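import Mathlib
import Pool.Agent.Helper743.Oracle

set_option autoImplicit false

/-! Upper density distances and coding a set on a sparse set of positions. -/

namespace Pool.Agent.H572R3

open Filter Pool.Agent.Helper743

/-- the number of disagreements below `n` -/
noncomputable def dis (X Y : ℕ → Bool) (n : ℕ) : ℝ :=
  (((Finset.range n).filter (fun i => X i ≠ Y i)).card : ℝ) / (n : ℝ)

lemma dis_nonneg (X Y : ℕ → Bool) (n : ℕ) : 0 ≤ dis X Y n := by unfold dis; positivity

lemma dis_le_one (X Y : ℕ → Bool) (n : ℕ) : dis X Y n ≤ 1 := by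
  unfold dis
  apply div_le_one_of_le₀ _ (by positivity)
  have := Finset.card_filter_le (Finset.range n) (fun i => X i ≠ Y i)
  rw [Finset.card_range] at this
  exact_mod_cast this

noncomputable def dlt (X Y : ℕ → Bool) : ℝ := limsup (dis X Y) atTop

lemma bdd_le (X Y : ℕ → Bool) : IsBoundedUnder (· ≤ ·) atTop (dis X Y) :=
  isBoundedUnder_of ⟨1, dis_le_one X Y⟩

lemma bdd_ge (X Y : ℕ → Bool) : IsBoundedUnder (· ≥ ·) atTop (dis X Y) :=
  isBoundedUnder_of ⟨0, dis_nonneg X Y⟩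

lemma dlt_nonneg (X Y : ℕ → Bool) : 0 ≤ dlt X Y := by
  unfold dlt
  exact le_limsup_of_le (bdd_le X Y) (fun b hb => by
    obtain ⟨n, hn⟩ := hb.exists
    exact (dis_nonneg X Y n).trans hn)

lemma dlt_le_one (X Y : ℕ → Bool) : dlt X Y ≤ 1 := by
  unfold dlt
  exact limsup_le_of_le ((bdd_ge X Y).isCoboundedUnder_le) (Eventually.of_forall (dis_le_one X Y))

lemma dlt_mono_of {X Y X' Y' : ℕ → Bool} {e : ℕ → ℝ} (he : Tendsto e atTop (nhds 0))
    (h : ∀ n, dis X Y n ≤ dis X' Y' n + e n) : dlt X Y ≤ dlt X' Y' := by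
  apply le_of_forall_pos_le_add
  intro ε hε
  have h1 : dlt X Y - ε ≤ dlt X' Y' := by
    unfold dlt
    refine le_limsup_of_le (bdd_le X' Y') (fun b hb => ?_)
    rw [sub_le_iff_le_add]
    refine limsup_le_of_le ((bdd_ge X Y).isCoboundedUnder_le) ?_
    have h2 : ∀ᶠ n in atTop, e n ≤ ε := (he.eventually_le_const hε)
    filter_upwards [hb, h2] with n h3 h4
    linarith [h n]
  linarith

/-- positions used for coding -/
def isPos (n : ℕ) : Bool := decide (n.unpair.1 = 0)

/-- code `B` into `X` on the sparse set of positions -/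
def codeIn (B X : ℕ → Bool) (n : ℕ) : Bool := if n.unpair.1 = 0 then B n.unpair.2 else X n

lemma card_pos (n : ℕ) : ((Finset.range n).filter (fun i => i.unpair.1 = 0)).card ≤ n.sqrt + 1 := by
  have h1 : ((Finset.range n).filter (fun i => i.unpair.1 = 0)).card ≤
      (Finset.range (n.sqrt + 1)).card := by
    apply Finset.card_le_card_of_injOn (fun i => i.unpair.2)
    · intro i hi
      simp only [Finset.coe_filter, Finset.mem_range, Set.mem_ofPred_eq] at hi
      simp only [Finset.coe_range, Set.mem_Iio]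
      obtain ⟨h1, h2⟩ := hi
      have h3 : Nat.pair i.unpair.1 i.unpair.2 = i := Nat.pair_unpair i
      rw [h2] at h3
      have h4 : i.unpair.2 * i.unpair.2 ≤ i := by
        by_cases h0 : i.unpair.2 = 0
        · simp [h0]
        · unfold Nat.pair at h3
          rw [if_pos (Nat.pos_of_ne_zero h0)] at h3
          omega
      have h5 : i.unpair.2 ≤ n.sqrt := by
        rw [Nat.le_sqrt]
        omega
      omega
    · intro i hi j hj hij
      simp only [Finset.coe_filter, Finset.mem_range, Set.mem_ofPred_eq] at hi hj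
      simp only at hij
      rw [← Nat.pair_unpair i, ← Nat.pair_unpair j, hi.2, hj.2, hij]
  simpa using h1

lemma tendsto_sqrt : Tendsto (fun n : ℕ => ((n.sqrt : ℝ) + 1) / (n : ℝ)) atTop (nhds 0) := by
  have h1 : Tendsto (fun n : ℕ => (2 : ℝ) * (Real.sqrt (n : ℝ) / (n : ℝ))) atTop (nhds 0) := by
    have h2 : Tendsto (fun n : ℕ => (Real.sqrt (n : ℝ))⁻¹) atTop (nhds 0) := by
      apply Tendsto.inv_tendsto_atTop
      exact Real.tendsto_sqrt_atTop.comp tendsto_natCast_atTop_atTop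
    have h3 := h2.const_mul 2
    rw [mul_zero] at h3
    refine h3.congr (fun n => ?_)
    congr 1
    rw [Real.sqrt_div_self]
  refine squeeze_zero' (Eventually.of_forall (fun n => by positivity)) ?_ h1
  filter_upwards [eventually_ge_atTop 1] with n hn
  have hn' : (0 : ℝ) < n := by exact_mod_cast hn
  rw [mul_div_assoc']
  apply div_le_div_of_nonneg_right _ hn'.le
  have h4 : (n.sqrt : ℝ) ≤ Real.sqrt n := by
    exact Real.nat_sqrt_le_real_sqrt
  have h5 : (1 : ℝ) ≤ Real.sqrt n := by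
    rw [Real.one_le_sqrt]
    exact_mod_cast hn
  linarith

lemma codeIn_ne {B X : ℕ → Bool} {i : ℕ} (h : ¬ i.unpair.1 = 0) : codeIn B X i = X i := by
  unfold codeIn
  rw [if_neg h]

lemma codeIn_dis (B X Y : ℕ → Bool) (n : ℕ) :
    dis (codeIn B X) Y n ≤ dis X Y n + ((n.sqrt : ℝ) + 1) / (n : ℝ) := by
  unfold dis
  rw [← add_div]
  apply div_le_div_of_nonneg_right _ (by positivity)
  have h1 : (Finset.range n).filter (fun i => codeIn B X i ≠ Y i) ⊆
      (Finset.range n).filter (fun i => X i ≠ Y i) ∪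
      (Finset.range n).filter (fun i => i.unpair.1 = 0) := by
    intro i hi
    rw [Finset.mem_filter] at hi
    rw [Finset.mem_union, Finset.mem_filter, Finset.mem_filter]
    by_cases h : i.unpair.1 = 0
    · exact Or.inr ⟨hi.1, h⟩
    · rw [codeIn_ne h] at hi
      exact Or.inl hi
  have h2 := (Finset.card_le_card h1).trans (Finset.card_union_le _ _)
  have h3 := h2.trans (Nat.add_le_add_left (card_pos n) _)
  exact_mod_cast h3

lemma codeIn_dis' (B X Y : ℕ → Bool) (n : ℕ) :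
    dis X Y n ≤ dis (codeIn B X) Y n + ((n.sqrt : ℝ) + 1) / (n : ℝ) := by
  unfold dis
  rw [← add_div]
  apply div_le_div_of_nonneg_right _ (by positivity)
  have h1 : (Finset.range n).filter (fun i => X i ≠ Y i) ⊆
      (Finset.range n).filter (fun i => codeIn B X i ≠ Y i) ∪
      (Finset.range n).filter (fun i => i.unpair.1 = 0) := by
    intro i hi
    rw [Finset.mem_filter] at hi
    rw [Finset.mem_union, Finset.mem_filter, Finset.mem_filter]
    by_cases h : i.unpair.1 = 0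
    · exact Or.inr ⟨hi.1, h⟩
    · rw [codeIn_ne h]
      exact Or.inl hi
  have h2 := (Finset.card_le_card h1).trans (Finset.card_union_le _ _)
  have h3 := h2.trans (Nat.add_le_add_left (card_pos n) _)
  exact_mod_cast h3

lemma dis_symm (X Y : ℕ → Bool) : dis X Y = dis Y X := by
  funext n
  unfold dis
  congr 3
  ext i
  simp [ne_comm]

lemma dlt_symm (X Y : ℕ → Bool) : dlt X Y = dlt Y X := by
  unfold dlt
  rw [dis_symm]

lemma dlt_codeIn (B X Y : ℕ → Bool) : dlt (codeIn B X) Y = dlt X Y :=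
  le_antisymm (dlt_mono_of tendsto_sqrt (codeIn_dis B X Y))
    (dlt_mono_of tendsto_sqrt (codeIn_dis' B X Y))

lemma dlt_codeIn' (B X Y : ℕ → Bool) : dlt Y (codeIn B X) = dlt Y X := by
  rw [dlt_symm, dlt_codeIn, dlt_symm]

/-- numerical version of a set -/
def nb (X : ℕ → Bool) : ℕ → ℕ := fun n => (X n).toNat

/-- Turing reducibility between sets -/
def BR (X Y : ℕ → Bool) : Prop := TR (nb X) (nb Y)

lemma BR.refl (X : ℕ → Bool) : BR X X := TR.refl _
lemma BR.trans {X Y Z : ℕ → Bool} (h : BR X Y) (h' : BR Y Z) : BR X Z := TR.trans h h'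

lemma BR_iff {X Y : ℕ → Bool} : BR X Y ↔
    TuringReducible (fun n => Part.some (X n).toNat) (fun n => Part.some (Y n).toNat) := TR_iff

lemma codeIn_le {B X Z : ℕ → Bool} (h1 : BR B Z) (h2 : BR X Z) : BR (codeIn B X) Z := by
  have c1 : Computable (fun n : ℕ => n.unpair.2) := Computable.snd.comp Computable.unpair
  have c2 : Computable (fun n : ℕ => n.unpair.1) := Computable.fst.comp Computable.unpair
  have h3 : RecT {((nb Z : ℕ → ℕ) : ℕ →. ℕ)} (fun n => Nat.pair n.unpair.1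
      (Nat.pair (nb B n.unpair.2) (nb X n))) :=
    RecT.pair (Computable.recT c2) (RecT.pair (RecT.comp h1 (Computable.recT c1)) h2)
  have h4 : Computable (fun z : ℕ => if z.unpair.1 = 0 then z.unpair.2.unpair.1
      else z.unpair.2.unpair.2) := by
    have : Primrec (fun z : ℕ => if z.unpair.1 = 0 then z.unpair.2.unpair.1
      else z.unpair.2.unpair.2) :=
      Primrec.ite (Primrec.eq.comp (Primrec.fst.comp Primrec.unpair) (Primrec.const 0))
        (Primrec.fst.comp (Primrec.unpair.comp (Primrec.snd.comp Primrec.unpair)))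
        (Primrec.snd.comp (Primrec.unpair.comp (Primrec.snd.comp Primrec.unpair)))
    exact this.to_comp
  have h5 := (Computable.recT h4).comp h3
  refine Nat.RecursiveIn.of_eq h5 ?_
  intro n
  congr 1
  simp only [Nat.unpair_pair, nb, codeIn]
  split_ifs <;> rfl

lemma le_codeIn (B X : ℕ → Bool) : BR B (codeIn B X) := by
  have c1 : Computable (fun n : ℕ => Nat.pair 0 n) :=
    Primrec₂.natPair.to_comp.comp (Computable.const 0) Computable.id
  have h5 := (TR.refl (nb (codeIn B X))).comp (Computable.recT c1)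
  refine Nat.RecursiveIn.of_eq h5 ?_
  intro n
  congr 1
  simp [nb, codeIn]

/-- the analytic part: `S X Y` -/
noncomputable def supInf (X Y : ℕ → Bool) : ℝ :=
  sSup {r : ℝ | ∃ X' : ℕ → Bool, (BR X' X ∧ BR X X') ∧
    r = sInf {s : ℝ | ∃ Y' : ℕ → Bool, (BR Y' Y ∧ BR Y Y') ∧ s = dlt X' Y'}}

lemma infSet_bdd (X' Y : ℕ → Bool) :
    BddBelow {s : ℝ | ∃ Y' : ℕ → Bool, (BR Y' Y ∧ BR Y Y') ∧ s = dlt X' Y'} := by
  refine ⟨0, ?_⟩
  rintro s ⟨Y', _, rfl⟩
  exact dlt_nonneg _ _

lemma infSet_le_one (X' Y : ℕ → Bool) :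
    sInf {s : ℝ | ∃ Y' : ℕ → Bool, (BR Y' Y ∧ BR Y Y') ∧ s = dlt X' Y'} ≤ 1 :=
  (csInf_le (infSet_bdd X' Y) ⟨Y, ⟨BR.refl _, BR.refl _⟩, rfl⟩).trans (dlt_le_one _ _)

lemma supSet_bdd (X Y : ℕ → Bool) :
    BddAbove {r : ℝ | ∃ X' : ℕ → Bool, (BR X' X ∧ BR X X') ∧
    r = sInf {s : ℝ | ∃ Y' : ℕ → Bool, (BR Y' Y ∧ BR Y Y') ∧ s = dlt X' Y'}} := by
  refine ⟨1, ?_⟩
  rintro r ⟨X', _, rfl⟩
  exact infSet_le_one _ _

/-- monotone in the first argument -/
lemma supInf_mono {X Z : ℕ → Bool} (Y : ℕ → Bool) (h : BR X Z) : supInf X Y ≤ supInf Z Y := by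
  unfold supInf
  apply csSup_le_csSup (supSet_bdd Z Y)
  · exact ⟨_, X, ⟨BR.refl _, BR.refl _⟩, rfl⟩
  · rintro r ⟨X', ⟨h1, h2⟩, rfl⟩
    refine ⟨codeIn Z X', ⟨codeIn_le (BR.refl _) (h1.trans h), le_codeIn _ _⟩, ?_⟩
    congr 1
    ext s
    simp only [Set.mem_ofPred_eq, dlt_codeIn]

/-- antitone in the second argument -/
lemma supInf_anti {X Z : ℕ → Bool} (Y : ℕ → Bool) (h : BR X Z) : supInf Y Z ≤ supInf Y X := by
  unfold supInf
  apply csSup_le
  · exact ⟨_, Y, ⟨BR.refl _, BR.refl _⟩, rfl⟩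
  · rintro r ⟨Y', h1, rfl⟩
    refine le_trans ?_ (le_csSup (supSet_bdd Y X) ⟨Y', h1, rfl⟩)
    apply csInf_le_csInf (infSet_bdd _ _)
    · exact ⟨_, X, ⟨BR.refl _, BR.refl _⟩, rfl⟩
    · rintro s ⟨X', ⟨h2, h3⟩, rfl⟩
      refine ⟨codeIn Z X', ⟨codeIn_le (BR.refl _) (h2.trans h), le_codeIn _ _⟩, ?_⟩
      rw [dlt_codeIn']

end Pool.Agent.H572R3
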