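import Mathlib

set_option autoImplicit false

/-! The coin tossing measure on Cantor space: measures of clopen sets. -/

namespace Pool.Agent.H572R3

open MeasureTheory

/-- the coin tossing measure -/
noncomputable def coin : Measure (ℕ → Bool) :=
  Measure.infinitePi (fun _ : ℕ => (PMF.uniformOfFintype Bool).toMeasure)

instance : IsProbabilityMeasure coin := by unfold coin; infer_instance

lemma half_singleton (b : Bool) : (PMF.uniformOfFintype Bool).toMeasure {b} = 1 / 2 := by
  rw [PMF.toMeasure_apply_singleton _ _ (MeasurableSet.singleton b)]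
  simp

lemma measurableSet_restrict (L : ℕ) (C : Set (Fin L → Bool)) :
    MeasurableSet {X : ℕ → Bool | (fun i : Fin L => X i) ∈ C} := by
  have : Measurable (fun X : ℕ → Bool => (fun i : Fin L => X i)) :=
    measurable_pi_lambda _ (fun i => measurable_pi_apply _)
  exact this (Set.toFinite C).measurableSet

lemma coin_point (L : ℕ) (c : Fin L → Bool) :
    coin {X : ℕ → Bool | (fun i : Fin L => X i) = c} = (1 / 2) ^ L := by
  have h1 : {X : ℕ → Bool | (fun i : Fin L => X i) = c} =
      Set.pi (Finset.range L : Set ℕ)
        (fun i => {if h : i < L then c ⟨i, h⟩ else true}) := by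
    ext X
    simp only [Set.mem_ofPred_eq, Set.mem_pi, Finset.coe_range, Set.mem_Iio, Set.mem_singleton_iff]
    constructor
    · intro h i hi
      rw [dif_pos hi, ← h]
    · intro h
      funext i
      have := h i i.2
      rw [dif_pos i.2] at this
      exact this
  rw [h1]
  unfold coin
  rw [Measure.infinitePi_pi _ (fun i _ => MeasurableSet.singleton _)]
  rw [Finset.prod_congr rfl (fun i _ => half_singleton _)]
  simp

lemma coin_clopen (L : ℕ) (C : Finset (Fin L → Bool)) :
    coin {X : ℕ → Bool | (fun i : Fin L => X i) ∈ C} = (C.card : ENNReal) * (1 / 2) ^ L := by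
  have h1 : {X : ℕ → Bool | (fun i : Fin L => X i) ∈ C} =
      ⋃ c ∈ C, {X : ℕ → Bool | (fun i : Fin L => X i) = c} := by
    ext X; simp
  rw [h1, measure_biUnion_finset]
  · simp [coin_point]
  · intro a _ b _ hab
    simp only [Function.onFun]
    rw [Set.disjoint_left]
    intro X hX hX'
    exact hab (hX.symm.trans hX')
  · intro b _
    have := measurableSet_restrict L {b}
    simpa using this

end Pool.Agent.H572R3
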