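import Mathlib
import Pool.Agent.H572R3.Meas
import Pool.Agent.H572R3.Dens

set_option autoImplicit false

/-! Random sets: existence, halves. -/

namespace Pool.Agent.H572R3

open MeasureTheory Pool.Agent.Helper743

theorem countable_computable {α β : Type*} [Primcodable α] [Primcodable β] :
    {f : α → β | Computable f}.Countable := by
  have h : ∀ f : {f : α → β // Computable f}, ∃ c : Nat.Partrec.Code, c.eval =
      fun n => Part.bind (Encodable.decode (α := α) n)
        (fun a => (Part.some (f.1 a)).map Encodable.encode) := by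
    intro f
    exact Nat.Partrec.Code.exists_code.1 f.2
  choose c hc using h
  have hinj : Function.Injective c := by
    intro f g hfg
    apply Subtype.ext
    funext a
    have h1 := hc f
    rw [hfg, hc g] at h1
    have h2 := congrFun h1 (Encodable.encode a)
    simp only [Encodable.encodek, Part.coe_some, Part.bind_some, Part.map_some, Part.some_inj] at h2
    exact (Encodable.encode_injective h2).symm
  exact Set.countable_coe_iff.1 hinj.countable

/-- initial segments -/
def bp (X : ℕ → Bool) (l : ℕ) : List Bool := (List.range l).map X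

@[simp] lemma bp_length (X : ℕ → Bool) (l : ℕ) : (bp X l).length = l := by simp [bp]

lemma bp_getD (X : ℕ → Bool) {l i : ℕ} (h : i < l) : (bp X l).getD i false = X i := by
  simp [bp, List.getD, h]

lemma eq_bp_iff {σ : List Bool} {X : ℕ → Bool} :
    σ = bp X σ.length ↔ ∀ i < σ.length, σ.getD i false = X i := by
  constructor
  · intro h i hi
    rw [h, bp_getD X (by simpa using hi)]
  · intro h
    apply List.ext_getElem (by simp)
    intro i h1 h2
    have := h i h1
    simp only [List.getD, List.getElem?_eq_getElem h1, Option.getD_some] at this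
    simp [bp, this]

/-- the clopen set of strings of length `L` extending some `f n j`, `j < M` -/
def cov (f : ℕ → ℕ → Option (List Bool)) (n M L : ℕ) : Set (Fin L → Bool) :=
  {τ | ∃ j < M, ∃ σ : List Bool, f n j = some σ ∧ σ.length ≤ L ∧
    ∀ i : Fin L, (i : ℕ) < σ.length → σ.getD i false = τ i}

def TB (f : ℕ → ℕ → Option (List Bool)) : Prop :=
  ∀ n M L : ℕ, (cov f n M L).ncard * 2 ^ n ≤ 2 ^ L

def Fails (f : ℕ → ℕ → Option (List Bool)) (X : ℕ → Bool) : Prop :=
  ∀ n : ℕ, ∃ j : ℕ, ∃ σ : List Bool, f n j = some σ ∧ σ = bp X σ.length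

/-- Martin-Löf randomness -/
def RR (X : ℕ → Bool) : Prop := ¬ ∃ f : ℕ → ℕ → Option (List Bool), Computable₂ f ∧ TB f ∧ Fails f X

lemma coin_ncard (L : ℕ) (C : Set (Fin L → Bool)) :
    coin {X : ℕ → Bool | (fun i : Fin L => X i) ∈ C} = (C.ncard : ENNReal) * (1 / 2) ^ L := by
  classical
  have h := coin_clopen L C.toFinset
  rw [Set.ncard_eq_toFinset_card' C, ← h]
  simp

lemma coin_of_bound {L n : ℕ} {C : Set (Fin L → Bool)} (h : C.ncard * 2 ^ n ≤ 2 ^ L) :
    coin {X : ℕ → Bool | (fun i : Fin L => X i) ∈ C} ≤ (1 / 2) ^ n := by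
  rw [coin_ncard]
  have h1 : (C.ncard : ENNReal) * 2 ^ n ≤ 2 ^ L := by exact_mod_cast h
  have h2 : ∀ k : ℕ, ((1 : ENNReal) / 2) ^ k = (2 ^ k)⁻¹ := by
    intro k
    rw [one_div, ENNReal.inv_pow]
  rw [h2, h2]
  rw [← div_eq_mul_inv, ENNReal.div_le_iff (by positivity) (by finiteness)]
  rw [mul_comm, ← div_eq_mul_inv, ENNReal.le_div_iff_mul_le (Or.inl (by positivity))
    (Or.inl (by finiteness))]
  exact h1

lemma match_null {f : ℕ → ℕ → Option (List Bool)} (hf : TB f) :
    coin {X | Fails f X} = 0 := by
  have h1 : ∀ n, coin {X | Fails f X} ≤ (1 / 2) ^ n := by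
    intro n
    let A : ℕ → Set (ℕ → Bool) := fun M =>
      {X | ∃ j < M, ∃ σ : List Bool, f n j = some σ ∧ σ = bp X σ.length}
    have hA : ∀ M, coin (A M) ≤ (1 / 2) ^ n := by
      intro M
      let L := (Finset.range M).sup (fun j => ((f n j).getD []).length)
      have : A M ⊆ {X : ℕ → Bool | (fun i : Fin L => X i) ∈ cov f n M L} := by
        rintro X ⟨j, hj, σ, h1, h2⟩
        refine ⟨j, hj, σ, h1, ?_, ?_⟩
        · have := Finset.le_sup (f := fun j => ((f n j).getD []).length) (Finset.mem_range.2 hj)
          simpa [h1] using this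
        · intro i hi
          exact eq_bp_iff.1 h2 i hi
      exact (measure_mono this).trans (coin_of_bound (hf n M L))
    have hmono : Monotone A := by
      intro M M' hM X hX
      obtain ⟨j, hj, h⟩ := hX
      exact ⟨j, lt_of_lt_of_le hj hM, h⟩
    have hsub : {X | Fails f X} ⊆ ⋃ M, A M := by
      intro X hX
      obtain ⟨j, σ, h1, h2⟩ := hX n
      exact Set.mem_iUnion.2 ⟨j + 1, j, by omega, σ, h1, h2⟩
    refine (measure_mono hsub).trans ?_
    rw [hmono.measure_iUnion]
    exact iSup_le hA
  have h2 : Filter.Tendsto (fun n : ℕ => ((1 : ENNReal) / 2) ^ n) Filter.atTop (nhds 0) := by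
    apply ENNReal.tendsto_pow_atTop_nhds_zero_of_lt_one
    simp
  exact le_antisymm (ge_of_tendsto' h2 h1) bot_le

theorem ae_random : ∀ᵐ X ∂coin, RR X := by
  have hc : {f : ℕ × ℕ → Option (List Bool) | Computable f}.Countable := countable_computable
  have : ∀ᵐ X ∂coin, ∀ f ∈ {f : ℕ × ℕ → Option (List Bool) | Computable f},
      ¬ (TB (fun n j => f (n, j)) ∧ Fails (fun n j => f (n, j)) X) := by
    rw [ae_ball_iff hc]
    intro f _
    by_cases h : TB (fun n j => f (n, j))
    · have := match_null h
      rw [measure_eq_zero_iff_ae_notMem] at this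
      filter_upwards [this] with X hX h'
      exact hX h'.2
    · exact Filter.Eventually.of_forall (fun X h' => h h'.1)
  filter_upwards [this] with X hX
  rintro ⟨f, h1, h2, h3⟩
  exact hX (fun p => f p.1 p.2) h1 ⟨h2, h3⟩

theorem exists_random : ∃ X, RR X := ae_random.exists

end Pool.Agent.H572R3
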