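import Mathlib
import Pool.Agent.H572R3.Rand

set_option autoImplicit false

/-! The even half of a random set is random and strictly below it. -/

namespace Pool.Agent.H572R3

open MeasureTheory Pool.Agent.Helper743

def ev0 (Z : ℕ → Bool) : ℕ → Bool := fun n => Z (2 * n)

lemma ev0_le (Z : ℕ → Bool) : BR (ev0 Z) Z := by
  have c1 : Computable (fun n : ℕ => 2 * n) :=
    (Primrec.nat_mul.comp (Primrec.const 2) Primrec.id).to_comp
  exact (TR.refl (nb Z)).comp (Computable.recT c1)

def weave (σ ρ : List Bool) : List Bool :=
  (List.range (2 * σ.length)).map (fun i => if i % 2 = 0 then σ.getD (i / 2) false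
    else ρ.getD (i / 2) false)

lemma weave_length (σ ρ : List Bool) : (weave σ ρ).length = 2 * σ.length := by simp [weave]

lemma weave_getD (σ ρ : List Bool) {i : ℕ} (h : i < 2 * σ.length) :
    (weave σ ρ).getD i false = if i % 2 = 0 then σ.getD (i / 2) false
    else ρ.getD (i / 2) false := by
  simp [weave, List.getD, h]

lemma weave_prim : Primrec₂ weave := by
  refine Primrec.list_map (Primrec.list_range.comp (Primrec.nat_mul.comp (Primrec.const 2)
    (Primrec.list_length.comp Primrec.fst))) ?_
  refine Primrec.ite (Primrec.eq.comp (Primrec.nat_mod.comp Primrec.snd (Primrec.const 2))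
    (Primrec.const 0)) ?_ ?_
  · exact (Primrec.list_getD false).comp (Primrec.fst.comp Primrec.fst)
      (Primrec.nat_div.comp Primrec.snd (Primrec.const 2))
  · exact (Primrec.list_getD false).comp (Primrec.snd.comp Primrec.fst)
      (Primrec.nat_div.comp Primrec.snd (Primrec.const 2))

lemma half_count (L a : ℕ) (ha : a = (L + 1) / 2) (C : Set (Fin a → Bool)) :
    {τ : Fin L → Bool | (fun i : Fin a => τ ⟨2 * i, by omega⟩) ∈ C}.ncard ≤
      C.ncard * 2 ^ (L - a) := by
  have h1 : {τ : Fin L → Bool | (fun i : Fin a => τ ⟨2 * i, by omega⟩) ∈ C}.ncard ≤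
      (C ×ˢ (Set.univ : Set (Fin (L - a) → Bool))).ncard := by
    apply Set.ncard_le_ncard_of_injOn
      (fun τ => ((fun i : Fin a => τ ⟨2 * i, by omega⟩),
        (fun i : Fin (L - a) => τ ⟨2 * i + 1, by omega⟩)))
    · intro τ hτ
      exact ⟨hτ, trivial⟩
    · intro τ _ τ' _ h
      simp only [Prod.mk.injEq] at h
      funext i
      rcases Nat.even_or_odd' (i : ℕ) with ⟨k, hk | hk⟩
      · have := congrFun h.1 ⟨k, by omega⟩
        have e : i = ⟨2 * k, by omega⟩ := Fin.ext hk
        rw [e]
        exact this
      · have := congrFun h.2 ⟨k, by omega⟩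
        have e : i = ⟨2 * k + 1, by omega⟩ := Fin.ext hk
        rw [e]
        exact this
  refine h1.trans ?_
  rw [Set.ncard_prod, Set.ncard_univ]
  simp

theorem RR_ev0 {Z : ℕ → Bool} (hZ : RR Z) : RR (ev0 Z) := by
  rintro ⟨f, hf, hT, hF⟩
  apply hZ
  refine ⟨fun n j => (f n j.unpair.1).bind (fun σ =>
    (Encodable.decode (α := List Bool) j.unpair.2).map (fun ρ => weave σ ρ)), ?_, ?_, ?_⟩
  · have h1 : Computable (fun p : ℕ × ℕ => f p.1 p.2.unpair.1) :=
      hf.comp Computable.fst (Computable.fst.comp (Computable.unpair.comp Computable.snd))
    refine Computable.option_bind h1 ?_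
    have h2 : Computable (fun q : (ℕ × ℕ) × List Bool =>
        Encodable.decode (α := List Bool) q.1.2.unpair.2) :=
      Computable.decode.comp (Computable.snd.comp (Computable.unpair.comp
        (Computable.snd.comp Computable.fst)))
    refine Computable.option_map h2 ?_
    exact weave_prim.to_comp.comp (Computable.snd.comp Computable.fst) Computable.snd
  · intro n M L
    set a := (L + 1) / 2 with ha
    have hsub : cov (fun n j => (f n j.unpair.1).bind (fun σ =>
        (Encodable.decode (α := List Bool) j.unpair.2).map (fun ρ => weave σ ρ))) n M L ⊆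
        {τ : Fin L → Bool | (fun i : Fin a => τ ⟨2 * i, by omega⟩) ∈ cov f n M a} := by
      rintro τ ⟨j, hj, σ', h1, h2, h3⟩
      simp only [Option.bind_eq_some_iff, Option.map_eq_some_iff] at h1
      obtain ⟨σ, h4, ρ, h5, rfl⟩ := h1
      rw [weave_length] at h2
      refine ⟨j.unpair.1, lt_of_le_of_lt (Nat.unpair_left_le j) hj, σ, h4, by omega, ?_⟩
      intro i hi
      have h6 := h3 ⟨2 * i, by omega⟩ (by rw [weave_length]; simp only; omega)
      rw [weave_getD _ _ (by simp only; omega)] at h6
      simpa using h6
    have h1 := Set.ncard_le_ncard hsub (Set.toFinite _)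
    have h2 := h1.trans (half_count L a ha (cov f n M a))
    have h3 := hT n M a
    calc _ ≤ ((cov f n M a).ncard * 2 ^ (L - a)) * 2 ^ n := Nat.mul_le_mul_right _ h2
      _ = ((cov f n M a).ncard * 2 ^ n) * 2 ^ (L - a) := by ring
      _ ≤ 2 ^ a * 2 ^ (L - a) := Nat.mul_le_mul_right _ h3
      _ = 2 ^ L := by rw [← pow_add]; congr 1; omega
  · intro n
    obtain ⟨j, σ, h1, h2⟩ := hF n
    refine ⟨Nat.pair j (Encodable.encode (bp (fun n => Z (2 * n + 1)) σ.length)),
      weave σ (bp (fun n => Z (2 * n + 1)) σ.length), ?_, ?_⟩
    · simp [h1]
    · rw [eq_bp_iff]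
      intro i hi
      rw [weave_length] at hi
      rw [weave_getD _ _ hi]
      rcases Nat.even_or_odd' i with ⟨k, hk | hk⟩
      · subst hk
        have := eq_bp_iff.1 h2 k (by omega)
        simp only [ev0] at this
        rw [if_pos (by omega)]
        rw [show 2 * k / 2 = k by omega]
        exact this
      · subst hk
        rw [if_neg (by omega), show (2 * k + 1) / 2 = k by omega]
        rw [bp_getD _ (by omega)]

/-- the even bits of a string, as numbers -/
def evens (τ : List Bool) : List ℕ :=
  (List.range ((τ.length + 1) / 2)).map (fun i => (τ.getD (2 * i) false).toNat)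

lemma evens_prim : Primrec evens := by
  refine Primrec.list_map (Primrec.list_range.comp (Primrec.nat_div.comp
    (Primrec.succ.comp Primrec.list_length) (Primrec.const 2))) ?_
  have h1 : Primrec (fun q : List Bool × ℕ => q.1.getD (2 * q.2) false) :=
    (Primrec.list_getD false).comp Primrec.fst (Primrec.nat_mul.comp (Primrec.const 2) Primrec.snd)
  exact (Primrec.dom_finite Bool.toNat).comp h1

lemma evens_bp (Z : ℕ → Bool) (l : ℕ) : evens (bp Z l) = pre (nb (ev0 Z)) ((l + 1) / 2) := by
  unfold evens pre
  rw [bp_length]
  apply List.map_congr_left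
  intro i hi
  rw [List.mem_range] at hi
  rw [bp_getD Z (by omega)]
  rfl

lemma evens_getElem? (τ : List Bool) (k : ℕ) : (evens τ)[k]? =
    if k < (τ.length + 1) / 2 then some (τ.getD (2 * k) false).toNat else none := by
  unfold evens
  by_cases h : k < (τ.length + 1) / 2 <;> simp [h]

/-- bounded conjunction -/
def allB (p : ℕ → Bool) : ℕ → Bool
  | 0 => true
  | n + 1 => allB p n && p n

lemma allB_iff (p : ℕ → Bool) (n : ℕ) : allB p n = true ↔ ∀ k < n, p k = true := by
  induction n with
  | zero => simp [allB]
  | succ n ih =>
    rw [allB, Bool.and_eq_true, ih]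
    constructor
    · rintro ⟨h1, h2⟩ k hk
      rcases Nat.lt_succ_iff_lt_or_eq.1 hk with h | h
      · exact h1 k h
      · rw [h]; exact h2
    · intro h
      exact ⟨fun k hk => h k (by omega), h n (by omega)⟩

lemma allB_comp {α : Type*} [Primcodable α] {p : α → ℕ → Bool} (hp : Computable₂ p) {g : α → ℕ}
    (hg : Computable g) : Computable (fun a => allB (p a) (g a)) := by
  have h := Computable.nat_rec hg (Computable.const true)
    (h := fun (a : α) (q : ℕ × Bool) => q.2 && p a q.1) (by
      exact Primrec.and.to_comp.comp (Computable.snd.comp Computable.snd)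
        (hp.comp Computable.fst (Computable.fst.comp Computable.snd)))
  refine h.of_eq ?_
  intro a
  generalize g a = n
  induction n with
  | zero => rfl
  | succ n ih => rw [allB, ← ih]

theorem not_le_half {Z : ℕ → Bool} (hZ : RR Z) : ¬ BR Z (ev0 Z) := by
  intro hred
  apply hZ
  obtain ⟨ev, hev, hmono, hspec⟩ := use_principle (nb (ev0 Z)) _ hred
  let chk : ℕ → List Bool → Bool := fun n τ => decide (2 * n ≤ τ.length) &&
    allB (fun k => decide (ev (evens τ) (2 * k + 1) = some (τ.getD (2 * k + 1) false).toNat)) n
  have hchk : Computable₂ chk := by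
    have h1 : Computable (fun p : ℕ × List Bool => decide (2 * p.1 ≤ p.2.length)) := by
      have : Primrec (fun p : ℕ × List Bool => decide (2 * p.1 ≤ p.2.length)) :=
        (Primrec.nat_le.comp (Primrec.nat_mul.comp (Primrec.const 2) Primrec.fst)
          (Primrec.list_length.comp Primrec.snd)).decide
      exact this.to_comp
    have h2 : Computable₂ (fun (p : ℕ × List Bool) (k : ℕ) =>
        decide (ev (evens p.2) (2 * k + 1) = some (p.2.getD (2 * k + 1) false).toNat)) := by
      have e1 : Computable (fun q : (ℕ × List Bool) × ℕ => 2 * q.2 + 1) :=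
        (Primrec.succ.comp (Primrec.nat_mul.comp (Primrec.const 2) Primrec.snd)).to_comp
      have e2 : Computable (fun q : (ℕ × List Bool) × ℕ => ev (evens q.1.2) (2 * q.2 + 1)) :=
        hev.comp (evens_prim.to_comp.comp (Computable.snd.comp Computable.fst)) e1
      have e3 : Computable (fun q : (ℕ × List Bool) × ℕ =>
          some (q.1.2.getD (2 * q.2 + 1) false).toNat) := by
        have : Primrec (fun q : (ℕ × List Bool) × ℕ =>
          some (q.1.2.getD (2 * q.2 + 1) false).toNat) :=
          Primrec.option_some.comp ((Primrec.dom_finite Bool.toNat).comp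
            ((Primrec.list_getD false).comp (Primrec.snd.comp Primrec.fst)
              (Primrec.succ.comp (Primrec.nat_mul.comp (Primrec.const 2) Primrec.snd))))
        exact this.to_comp
      exact (PrimrecRel.decide (Primrec.eq (α := Option ℕ))).to_comp.comp e2 e3
    have h3 := allB_comp h2 (g := fun p : ℕ × List Bool => p.1) Computable.fst
    exact Primrec.and.to_comp.comp h1 h3
  let f' : ℕ → ℕ → Option (List Bool) := fun n j =>
    (Encodable.decode (α := List Bool) j).bind (fun τ => cond (chk n τ) (some τ) none)
  refine ⟨f', ?_, ?_, ?_⟩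
  · refine Computable.option_bind (Computable.decode.comp Computable.snd) ?_
    refine Computable.cond (hchk.comp (Computable.fst.comp Computable.fst) Computable.snd)
      (Computable.option_some.comp Computable.snd) (Computable.const none)
  · intro n M L
    by_cases hL : 2 * n ≤ L
    swap
    · have : cov f' n M L = ∅ := by
        apply Set.eq_empty_of_forall_notMem
        rintro τ ⟨j, hj, σ, h1, h2, h3⟩
        simp only [f', Option.bind_eq_some_iff] at h1
        obtain ⟨σ', _, h5⟩ := h1
        cases hc : chk n σ' with
        | false => rw [hc] at h5; simp at h5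
        | true =>
          rw [hc] at h5
          simp only [cond_true, Option.some.injEq] at h5
          subst h5
          simp only [chk, Bool.and_eq_true, decide_eq_true_eq] at hc
          omega
      rw [this]
      simp
    -- all covered strings satisfy the correctness condition
    let good : Set (Fin L → Bool) := {τ | ∀ k, (hk : k < n) →
      ev (evens (List.ofFn τ)) (2 * k + 1) = some (τ ⟨2 * k + 1, by omega⟩).toNat}
    have hsub : cov f' n M L ⊆ good := by
      rintro τ ⟨j, hj, σ, h1, h2, h3⟩ k hk
      simp only [f', Option.bind_eq_some_iff] at h1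
      obtain ⟨σ', _, h5⟩ := h1
      cases hc : chk n σ' with
      | false => rw [hc] at h5; simp at h5
      | true =>
        rw [hc] at h5
        simp only [cond_true, Option.some.injEq] at h5
        subst h5
        simp only [chk, Bool.and_eq_true, decide_eq_true_eq, allB_iff] at hc
        obtain ⟨h6, h7⟩ := hc
        have h8 := h7 k hk
        rw [h3 ⟨2 * k + 1, by omega⟩ (by simp only; omega)] at h8
        refine hmono _ _ _ _ ?_ h8
        -- prefix
        rw [List.prefix_iff_getElem?]
        intro i hi
        rw [evens_getElem?]
        have hi' : i < (σ'.length + 1) / 2 := by simpa [evens] using hi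
        rw [if_pos (by rw [List.length_ofFn]; omega)]
        congr 1
        have h9 : (evens σ')[i]? = some (evens σ')[i] := List.getElem?_eq_getElem hi
        rw [evens_getElem?, if_pos hi'] at h9
        simp only [Option.some.injEq] at h9
        rw [← h9]
        congr 1
        rw [h3 ⟨2 * i, by omega⟩ (by simp only; omega)]
        simp only [List.getD]
        rw [List.getElem?_eq_getElem (by rw [List.length_ofFn]; omega)]
        simp
    have h1 := Set.ncard_le_ncard hsub (Set.toFinite _)
    have h2 : good.ncard * 2 ^ n ≤ 2 ^ L := by
      have h3 : (good ×ˢ (Set.univ : Set (Fin n → Bool))).ncard ≤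
          (Set.univ : Set (Fin L → Bool)).ncard := by
        apply Set.ncard_le_ncard_of_injOn (fun p : (Fin L → Bool) × (Fin n → Bool) =>
          (fun i : Fin L => if h : (i : ℕ) % 2 = 1 ∧ (i : ℕ) / 2 < n then p.2 ⟨(i : ℕ) / 2, h.2⟩
            else p.1 i))
        · intro _ _; trivial
        · rintro ⟨τ, w⟩ hτ ⟨τ', w'⟩ hτ' h
          simp only at h
          have hg : τ ∈ good := hτ.1
          have hg' : τ' ∈ good := hτ'.1
          have he : ∀ i : Fin L, (i : ℕ) % 2 = 0 → τ i = τ' i := by
            intro i hi
            have := congrFun h i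
            rw [dif_neg (by omega), dif_neg (by omega)] at this
            exact this
          have hev' : evens (List.ofFn τ) = evens (List.ofFn τ') := by
            unfold evens
            rw [List.length_ofFn, List.length_ofFn]
            apply List.map_congr_left
            intro i hi
            rw [List.mem_range] at hi
            congr 1
            simp only [List.getD]
            rw [List.getElem?_eq_getElem (by rw [List.length_ofFn]; omega),
              List.getElem?_eq_getElem (by rw [List.length_ofFn]; omega)]
            simp only [List.getElem_ofFn, Option.getD_some]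
            exact he ⟨2 * i, by omega⟩ (by simp)
          have ho : ∀ i : Fin L, τ i = τ' i := by
            intro i
            rcases Nat.even_or_odd' (i : ℕ) with ⟨k, hk | hk⟩
            · exact he i (by omega)
            · by_cases hkn : k < n
              · have a1 := hg k hkn
                have a2 := hg' k hkn
                rw [hev', a2] at a1
                simp only [Option.some.injEq] at a1
                have e : i = ⟨2 * k + 1, by omega⟩ := Fin.ext hk
                rw [e]
                have binj : ∀ a b : Bool, a.toNat = b.toNat → a = b := by decide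
                exact (binj _ _ a1).symm
              · have := congrFun h i
                rw [dif_neg (by omega), dif_neg (by omega)] at this
                exact this
          have hw : w = w' := by
            funext k
            have := congrFun h ⟨2 * k + 1, by omega⟩
            simp only at this
            rw [dif_pos ⟨by omega, by omega⟩, dif_pos ⟨by omega, by omega⟩] at this
            have e : (⟨(2 * (k : ℕ) + 1) / 2, by omega⟩ : Fin n) = k := Fin.ext (by simp only; omega)
            rw [e] at this
            exact this
          rw [Prod.mk.injEq]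
          exact ⟨funext ho, hw⟩
      rw [Set.ncard_prod, Set.ncard_univ, Set.ncard_univ] at h3
      simpa using h3
    exact (Nat.mul_le_mul_right _ h1).trans h2
  · intro n
    -- collect finitely many computations
    have hcol : ∀ m, ∃ N, ∀ k < m, ev (pre (nb (ev0 Z)) N) (2 * k + 1) =
        some (Z (2 * k + 1)).toNat := by
      intro m
      induction m with
      | zero => exact ⟨0, by simp⟩
      | succ m ih =>
        obtain ⟨N, hN⟩ := ih
        obtain ⟨N', hN'⟩ := (hspec (2 * m + 1) (Z (2 * m + 1)).toNat).1 (by
          change _ ∈ Part.some _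
          exact Part.mem_some _)
        refine ⟨max N N', fun k hk => ?_⟩
        rcases Nat.lt_succ_iff_lt_or_eq.1 hk with h | h
        · exact hmono _ _ _ _ (pre_prefix _ (le_max_left _ _)) (hN k h)
        · rw [h]
          exact hmono _ _ _ _ (pre_prefix _ (le_max_right _ _)) hN'
    obtain ⟨N, hN⟩ := hcol n
    set l := max (2 * n) (2 * N) with hl
    refine ⟨Encodable.encode (bp Z l), bp Z l, ?_, by rw [bp_length]⟩
    have hc : chk n (bp Z l) = true := by
      simp only [chk, Bool.and_eq_true, decide_eq_true_eq, allB_iff, bp_length]
      refine ⟨by omega, fun k hk => ?_⟩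
      rw [evens_bp, bp_getD Z (by omega)]
      exact hmono _ _ _ _ (pre_prefix _ (by omega)) (hN k hk)
    simp [f', hc]

end Pool.Agent.H572R3
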