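import Mathlib
import Pool.Agent.H572R3.Rand
import Pool.Agent.H572R3.Half

set_option autoImplicit false

/-! Counting and computability of measures of clopen sets. -/

namespace Pool.Agent.H572R3

open MeasureTheory Pool.Agent.Helper743

/-- the real whose bits are those of `c` -/
def xc (c : ℕ) : ℕ → Bool := fun j => decide (c / 2 ^ j % 2 = 1)

lemma xc_eq_testBit (c j : ℕ) : xc c j = c.testBit j := by
  rw [Nat.testBit_eq_decide_div_mod_eq]
  rfl

lemma xc_inj {L c c' : ℕ} (hc : c < 2 ^ L) (hc' : c' < 2 ^ L) (h : ∀ j < L, xc c j = xc c' j) :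
    c = c' := by
  apply Nat.eq_of_testBit_eq
  intro j
  by_cases hj : j < L
  · rw [← xc_eq_testBit, ← xc_eq_testBit]; exact h j hj
  · have h2 : 2 ^ L ≤ 2 ^ j := Nat.pow_le_pow_right (by norm_num) (by omega)
    rw [Nat.testBit_lt_two_pow (by omega), Nat.testBit_lt_two_pow (by omega)]

lemma xc_bij (L : ℕ) : Function.Bijective (fun (c : Fin (2 ^ L)) (j : Fin L) => xc c j) := by
  rw [Fintype.bijective_iff_injective_and_card]
  refine ⟨?_, by simp⟩
  intro c c' h
  apply Fin.ext
  exact xc_inj c.2 c'.2 (fun j hj => congrFun h ⟨j, hj⟩)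

lemma exists_xc (X : ℕ → Bool) (L : ℕ) : ∃ c < 2 ^ L, ∀ j < L, xc c j = X j := by
  obtain ⟨c, hc⟩ := (xc_bij L).2 (fun j => X j)
  exact ⟨c, c.2, fun j hj => congrFun hc ⟨j, hj⟩⟩

/-- sums over initial segments -/
def sumB (p : ℕ → ℕ) : ℕ → ℕ
  | 0 => 0
  | n + 1 => sumB p n + p n

lemma sumB_eq (p : ℕ → ℕ) (n : ℕ) : sumB p n = ∑ c ∈ Finset.range n, p c := by
  induction n with
  | zero => simp [sumB]
  | succ n ih => rw [sumB, ih, Finset.sum_range_succ]

lemma le_sumB (p : ℕ → ℕ) {n c : ℕ} (h : c < n) : p c ≤ sumB p n := by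
  rw [sumB_eq]
  exact Finset.single_le_sum (f := p) (fun _ _ => Nat.zero_le _) (Finset.mem_range.2 h)

lemma sumB_comp {α : Type*} [Primcodable α] {p : α → ℕ → ℕ} (hp : Computable₂ p) {g : α → ℕ}
    (hg : Computable g) : Computable (fun a => sumB (p a) (g a)) := by
  have h := Computable.nat_rec hg (Computable.const 0)
    (h := fun (a : α) (q : ℕ × ℕ) => q.2 + p a q.1) (by
      exact Primrec.nat_add.to_comp.comp (Computable.snd.comp Computable.snd)
        (hp.comp Computable.fst (Computable.fst.comp Computable.snd)))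
  refine h.of_eq ?_
  intro a
  generalize g a = n
  induction n with
  | zero => rfl
  | succ n ih => rw [sumB, ← ih]

lemma pow2_prim : Primrec (fun n : ℕ => 2 ^ n) := by
  have h : Primrec (fun n : ℕ => Nat.rec (motive := fun _ => ℕ) 1 (fun _ ih => 2 * ih) n) :=
    Primrec.nat_rec₁ 1 (f := fun _ ih => 2 * ih)
      (Primrec.nat_mul.comp (Primrec.const 2) Primrec.snd)
  refine h.of_eq ?_
  intro n
  induction n with
  | zero => rfl
  | succ n ih =>
    change 2 * (Nat.rec (motive := fun _ => ℕ) 1 (fun _ ih => 2 * ih) n) = 2 ^ (n + 1)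
    rw [ih, pow_succ, mul_comm]

lemma xc_prim : Primrec₂ xc := by
  have h : Primrec (fun q : ℕ × ℕ => decide (q.1 / 2 ^ q.2 % 2 = 1)) :=
    (Primrec.eq.comp (Primrec.nat_mod.comp (Primrec.nat_div.comp Primrec.fst
      (pow2_prim.comp Primrec.snd)) (Primrec.const 2)) (Primrec.const 1)).decide
  exact h

lemma pre_xc_prim : Primrec₂ (fun c s : ℕ => pre (nb (xc c)) s) := by
  refine Primrec.list_map (Primrec.list_range.comp Primrec.snd) ?_
  exact (Primrec.dom_finite Bool.toNat).comp (xc_prim.comp (Primrec.fst.comp Primrec.fst)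
    Primrec.snd)

lemma pre_congr {X Y : ℕ → Bool} {s : ℕ} (h : ∀ j < s, X j = Y j) :
    pre (nb X) s = pre (nb Y) s := by
  unfold pre nb
  apply List.map_congr_left
  intro j hj
  rw [h j (List.mem_range.1 hj)]

/-- the measure of a clopen set is computed by counting -/
lemma coin_real_count (L : ℕ) (P : (ℕ → Bool) → Bool)
    (hP : ∀ X Y : ℕ → Bool, (∀ j < L, X j = Y j) → P X = P Y) :
    coin.real {X | P X = true} = (sumB (fun c => (P (xc c)).toNat) (2 ^ L) : ℝ) / 2 ^ L := by
  classical
  let ext : (Fin L → Bool) → (ℕ → Bool) := fun x j => if h : j < L then x ⟨j, h⟩ else false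
  let C : Set (Fin L → Bool) := {x | P (ext x) = true}
  have h1 : {X | P X = true} = {X : ℕ → Bool | (fun i : Fin L => X i) ∈ C} := by
    ext X
    simp only [Set.mem_ofPred_eq, C]
    rw [hP X (ext (fun i : Fin L => X i))]
    intro j hj
    simp [ext, hj]
  have h2 : C.ncard = sumB (fun c => (P (xc c)).toNat) (2 ^ L) := by
    have e1 : C = (fun (c : Fin (2 ^ L)) (j : Fin L) => xc c j) '' {c | P (xc c) = true} := by
      ext x
      simp only [Set.mem_image, Set.mem_ofPred_eq, C]
      constructor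
      · intro hx
        obtain ⟨c, hc⟩ := (xc_bij L).2 x
        refine ⟨c, ?_, hc⟩
        rw [← hx]
        apply hP
        intro j hj
        have := congrFun hc ⟨j, hj⟩
        simp only at this
        simp [ext, hj, this]
      · rintro ⟨c, hc, rfl⟩
        rw [← hc]
        apply hP
        intro j hj
        simp [ext, hj]
    rw [e1, Set.ncard_image_of_injective _ (xc_bij L).1, sumB_eq]
    rw [Set.ncard_eq_toFinset_card']
    rw [Finset.sum_range]
    have e2 : ({c : Fin (2 ^ L) | P (xc c) = true} : Set (Fin (2 ^ L))).toFinset =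
        Finset.univ.filter (fun c : Fin (2 ^ L) => P (xc c) = true) := by
      ext c
      simp
    rw [e2, Finset.card_filter]
    apply Finset.sum_congr rfl
    intro c _
    cases P (xc c) <;> simp
  rw [h1, Measure.real, coin_ncard, h2]
  simp [div_eq_mul_inv]

end Pool.Agent.H572R3
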