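import Mathlib
import Pool.Agent.H572R3.Bits

set_option autoImplicit false

/-! Forcing with time bounds: measure-theoretic columns. -/

namespace Pool.Agent.H572R3

open MeasureTheory Pool.Agent.Helper743

/-- computable monotone functionals -/
def Mon (ev : List ℕ × ℕ → Option ℕ) : Prop :=
  Computable ev ∧ ∀ σ τ x y, σ <+: τ → ev (σ, x) = some y → ev (τ, x) = some y

lemma Mon.isSome {ev : List ℕ × ℕ → Option ℕ} (h : Mon ev) {σ τ : List ℕ} (hst : σ <+: τ) {x : ℕ}
    (hs : (ev (σ, x)).isSome = true) : (ev (τ, x)).isSome = true := by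
  obtain ⟨y, hy⟩ := Option.isSome_iff_exists.1 hs
  rw [h.2 σ τ x y hst hy]; rfl

theorem exists_enum : ∃ E : ℕ → List ℕ × ℕ → Option ℕ, (∀ e, Mon (E e)) ∧
    ∀ ev, Mon ev → ∃ e, E e = ev := by
  have h1 : {ev : List ℕ × ℕ → Option ℕ | Mon ev}.Countable :=
    (countable_computable (α := List ℕ × ℕ) (β := Option ℕ)).mono (fun ev h => h.1)
  have h2 : {ev : List ℕ × ℕ → Option ℕ | Mon ev}.Nonempty :=
    ⟨fun _ => none, Computable.const none, fun _ _ _ _ _ h => by simp at h⟩
  obtain ⟨f, hf⟩ := h1.exists_eq_range h2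
  refine ⟨f, fun e => ?_, fun ev hev => ?_⟩
  · have : f e ∈ Set.range f := ⟨e, rfl⟩
    rw [← hf] at this
    exact this
  · have : ev ∈ Set.range f := by rw [← hf]; exact hev
    exact this

section column

variable (ev : List ℕ × ℕ → Option ℕ) (i a : ℕ)

/-- `X` respects the time bounds given by `τ` on column `i` from `a` on -/
def KS (τ : List ℕ) : Set (ℕ → Bool) :=
  {X | ∀ n, a ≤ n → ∀ s, τ[Nat.pair i n]? = some s → (ev (pre (nb X) s, n)).isSome = true}

def Kb (τ : List ℕ) (X : ℕ → Bool) : Bool :=
  allB (fun n => decide (n < a) || Option.casesOn (motive := fun _ => Bool) (τ[Nat.pair i n]?) true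
     (fun s => (ev (pre (nb X) s, n)).isSome)) τ.length

lemma Kb_iff (τ : List ℕ) (X : ℕ → Bool) : Kb ev i a τ X = true ↔ X ∈ KS ev i a τ := by
  unfold Kb KS
  rw [allB_iff]
  constructor
  · intro h n hn s hs
    have h1 : Nat.pair i n < τ.length := by
      by_contra hc
      rw [List.getElem?_eq_none (by omega)] at hs
      simp at hs
    have h2 := h n (lt_of_le_of_lt (Nat.right_le_pair i n) h1)
    rw [hs] at h2
    simp only [Bool.or_eq_true, decide_eq_true_eq] at h2
    rcases h2 with h2 | h2
    · omega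
    · exact h2
  · intro h n _
    simp only [Bool.or_eq_true, decide_eq_true_eq]
    by_cases hn : n < a
    · exact Or.inl hn
    · right
      cases hs : τ[Nat.pair i n]? with
      | none => rfl
      | some s => exact h n (by omega) s hs

/-- the largest entry of a list -/
def mx (τ : List ℕ) : ℕ := τ.foldr (fun b s => max b s) 0

lemma mx_prim : Primrec mx := by
  have := Primrec.list_foldr (f := fun τ : List ℕ => τ) (g := fun _ => 0)
    (h := fun _ (q : ℕ × ℕ) => max q.1 q.2) Primrec.id (Primrec.const 0)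
    (Primrec.nat_max.comp (Primrec.fst.comp Primrec.snd) (Primrec.snd.comp Primrec.snd))
  exact this

lemma le_mx {τ : List ℕ} {j s : ℕ} (h : τ[j]? = some s) : s ≤ mx τ := by
  induction τ generalizing j with
  | nil => simp at h
  | cons b τ ih =>
    cases j with
    | zero =>
      simp only [List.getElem?_cons_zero, Option.some.injEq] at h
      subst h
      exact le_max_left _ _
    | succ j =>
      simp only [List.getElem?_cons_succ] at h
      exact (ih h).trans (le_max_right _ _)

lemma Kb_congr {τ : List ℕ} {X Y : ℕ → Bool} (h : ∀ j < mx τ, X j = Y j) :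
    Kb ev i a τ X = Kb ev i a τ Y := by
  have key : ∀ X Y : ℕ → Bool, (∀ j < mx τ, X j = Y j) → X ∈ KS ev i a τ → Y ∈ KS ev i a τ := by
    intro X Y h hX n hn s hs
    have := hX n hn s hs
    rwa [pre_congr (X := X) (Y := Y) (fun j hj => h j (lt_of_lt_of_le hj (le_mx hs)))] at this
  rw [Bool.eq_iff_iff, Kb_iff, Kb_iff]
  exact ⟨key X Y h, key Y X (fun j hj => (h j hj).symm)⟩

/-- counting -/
def cnt (τ : List ℕ) : ℕ := sumB (fun c => (Kb ev i a τ (xc c)).toNat) (2 ^ mx τ)

noncomputable def uu (τ : List ℕ) : ℝ := coin.real (KS ev i a τ)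

lemma uu_eq (τ : List ℕ) : uu ev i a τ = (cnt ev i a τ : ℝ) / 2 ^ mx τ := by
  unfold uu cnt
  rw [← coin_real_count (mx τ) (fun X => Kb ev i a τ X) (fun X Y h => Kb_congr ev i a h)]
  congr 1
  ext X
  simp [Kb_iff]

variable {ev} in
lemma Kb_comp (hev : Computable ev) : Computable (fun q : List ℕ × ℕ => Kb ev i a q.1 (xc q.2)) := by
  unfold Kb
  refine allB_comp (p := fun (q : List ℕ × ℕ) (n : ℕ) => decide (n < a) ||
    Option.casesOn (motive := fun _ => Bool) (q.1[Nat.pair i n]?) true
     (fun s => (ev (pre (nb (xc q.2)) s, n)).isSome)) ?_ (Computable.list_length.comp Computable.fst)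
  have h1 : Computable (fun q : (List ℕ × ℕ) × ℕ => decide (q.2 < a)) := by
    have : Primrec (fun q : (List ℕ × ℕ) × ℕ => decide (q.2 < a)) :=
      (Primrec.nat_lt.comp Primrec.snd (Primrec.const a)).decide
    exact this.to_comp
  have h2 : Computable (fun q : (List ℕ × ℕ) × ℕ =>
      (Option.casesOn (motive := fun _ => Bool) (q.1.1[Nat.pair i q.2]?) true
       (fun s => (ev (pre (nb (xc q.1.2)) s, q.2)).isSome))) := by
    refine Computable.option_casesOn ?_ (Computable.const true) ?_
    · have : Primrec (fun q : (List ℕ × ℕ) × ℕ => q.1.1[Nat.pair i q.2]?) :=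
        Primrec.list_getElem?.comp (Primrec.fst.comp Primrec.fst)
          (Primrec₂.natPair.comp (Primrec.const i) Primrec.snd)
      exact this.to_comp
    · refine Primrec.option_isSome.to_comp.comp (hev.comp (Computable.pair ?_ ?_))
      · exact (pre_xc_prim.comp (Primrec.snd.comp (Primrec.fst.comp Primrec.fst))
          Primrec.snd).to_comp
      · exact Computable.snd.comp Computable.fst
  exact Primrec.or.to_comp.comp h1 h2

variable {ev} in
lemma cnt_comp (hev : Computable ev) : Computable (cnt ev i a) := by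
  unfold cnt
  refine sumB_comp (p := fun (τ : List ℕ) (c : ℕ) => (Kb ev i a τ (xc c)).toNat) ?_
    (pow2_prim.to_comp.comp mx_prim.to_comp)
  exact (Primrec.dom_finite Bool.toNat).to_comp.comp (Kb_comp i a hev)

variable {ev} in
lemma dec_uu (hev : Computable ev) (r : ℚ) : ∃ d : List ℕ → Bool, Computable d ∧
    ∀ τ, d τ = true ↔ (r : ℝ) < uu ev i a τ := by
  by_cases hr : r < 0
  · refine ⟨fun _ => true, Computable.const true, fun τ => ?_⟩
    simp only [true_iff]
    have h1 : (r : ℝ) < 0 := by exact_mod_cast hr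
    exact lt_of_lt_of_le h1 measureReal_nonneg
  · refine ⟨fun τ => decide (r.num.toNat * 2 ^ mx τ < cnt ev i a τ * r.den), ?_, fun τ => ?_⟩
    · have h1 : Primrec (fun q : ℕ × ℕ => decide (r.num.toNat * 2 ^ q.1 < q.2 * r.den)) :=
        (Primrec.nat_lt.comp (Primrec.nat_mul.comp (Primrec.const _)
          (pow2_prim.comp Primrec.fst)) (Primrec.nat_mul.comp Primrec.snd (Primrec.const _))).decide
      exact h1.to_comp.comp (mx_prim.to_comp.pair (cnt_comp i a hev))
    · rw [decide_eq_true_iff, uu_eq]
      have hnum : ((r.num.toNat : ℕ) : ℤ) = r.num :=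
        Int.toNat_of_nonneg (Rat.num_nonneg.2 (not_lt.1 hr))
      have hnumR : ((r.num.toNat : ℕ) : ℝ) = (r.num : ℝ) := by exact_mod_cast hnum
      have hrr : (r : ℝ) = (r.num : ℝ) / (r.den : ℝ) := by exact_mod_cast (Rat.num_div_den r).symm
      rw [hrr, div_lt_div_iff₀ (by exact_mod_cast r.den_pos) (by positivity), ← hnumR]
      exact_mod_cast Iff.rfl

/-! measure theory -/

/-- totality from `a` on -/
def GS : Set (ℕ → Bool) := {X | ∀ n, a ≤ n → ∃ s, (ev (pre (nb X) s, n)).isSome = true}

def WS (m : ℕ) : Set (ℕ → Bool) :=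
  {X | ∀ n, a ≤ n → n < m → ∃ s, (ev (pre (nb X) s, n)).isSome = true}

lemma meas_cl (s n : ℕ) : MeasurableSet {X : ℕ → Bool | (ev (pre (nb X) s, n)).isSome = true} := by
  have h : {X : ℕ → Bool | (ev (pre (nb X) s, n)).isSome = true} =
      {X : ℕ → Bool | (fun i : Fin s => X i) ∈
        {x : Fin s → Bool | (ev (pre (nb (fun j => if h : j < s then x ⟨j, h⟩ else false)) s,
          n)).isSome = true}} := by
    ext X
    simp only [Set.mem_ofPred_eq]
    rw [pre_congr (X := X) (Y := fun j => if h : j < s then X j else false)]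
    intro j hj
    simp [hj]
  rw [h]
  exact measurableSet_restrict s _

lemma meas_GS : MeasurableSet (GS ev a) := by
  have : GS ev a = ⋂ n, ⋂ (_ : a ≤ n), ⋃ s, {X | (ev (pre (nb X) s, n)).isSome = true} := by
    ext X; simp [GS]
  rw [this]
  exact MeasurableSet.iInter (fun n => MeasurableSet.iInter (fun _ =>
    MeasurableSet.iUnion (fun s => meas_cl ev s n)))

lemma meas_WS (m : ℕ) : MeasurableSet (WS ev a m) := by
  have : WS ev a m = ⋂ n, ⋂ (_ : a ≤ n), ⋂ (_ : n < m), ⋃ s,
      {X | (ev (pre (nb X) s, n)).isSome = true} := by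
    ext X; simp [WS]
  rw [this]
  exact MeasurableSet.iInter (fun n => MeasurableSet.iInter (fun _ => MeasurableSet.iInter (fun _ =>
    MeasurableSet.iUnion (fun s => meas_cl ev s n))))

lemma meas_KS (τ : List ℕ) : MeasurableSet (KS ev i a τ) := by
  have : KS ev i a τ = ⋂ n, ⋂ (_ : a ≤ n), ⋂ s, ⋂ (_ : τ[Nat.pair i n]? = some s),
      {X | (ev (pre (nb X) s, n)).isSome = true} := by
    ext X; simp [KS]
  rw [this]
  exact MeasurableSet.iInter (fun n => MeasurableSet.iInter (fun _ => MeasurableSet.iInter (fun s =>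
    MeasurableSet.iInter (fun _ => meas_cl ev s n))))

lemma KS_anti {σ τ : List ℕ} (h : σ <+: τ) : KS ev i a τ ⊆ KS ev i a σ := by
  intro X hX n hn s hs
  obtain ⟨ρ, rfl⟩ := h
  refine hX n hn s ?_
  have h1 : Nat.pair i n < σ.length := by
    by_contra hc
    rw [List.getElem?_eq_none (by omega)] at hs
    simp at hs
  rw [List.getElem?_append_left h1, hs]

noncomputable def vv (τ : List ℕ) : ℝ := coin.real (GS ev a ∩ KS ev i a τ)

lemma vv_le_uu (τ : List ℕ) : vv ev i a τ ≤ uu ev i a τ :=
  measureReal_mono Set.inter_subset_right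

lemma uu_anti {σ τ : List ℕ} (h : σ <+: τ) : uu ev i a τ ≤ uu ev i a σ :=
  measureReal_mono (KS_anti ev i a h)

lemma vv_anti {σ τ : List ℕ} (h : σ <+: τ) : vv ev i a τ ≤ vv ev i a σ :=
  measureReal_mono (Set.inter_subset_inter_right _ (KS_anti ev i a h))

/-- activation -/
lemma vv_init {τ : List ℕ} (h : τ.length ≤ a) : vv ev i a τ = coin.real (GS ev a) := by
  unfold vv
  congr 1
  rw [Set.inter_eq_left]
  intro X _ n hn s hs
  rw [List.getElem?_eq_none (h.trans (hn.trans (Nat.right_le_pair i n)))] at hs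
  simp at hs

variable {ev} in
lemma ext_one (hev : Mon ev) {τ : List ℕ} {q : ℝ} (hq : q < vv ev i a τ) :
    ∀ᶠ s in Filter.atTop, q < vv ev i a (τ ++ [s]) := by
  let A : ℕ → Set (ℕ → Bool) := fun s => GS ev a ∩ KS ev i a (τ ++ [s])
  have hmono : Monotone A := by
    intro s s' hs X hX
    refine ⟨hX.1, ?_⟩
    intro n hn t ht
    by_cases hlt : Nat.pair i n < τ.length
    · refine hX.2 n hn t ?_
      rw [List.getElem?_append_left hlt] at ht ⊢
      exact ht
    · by_cases heq : Nat.pair i n = τ.length
      · have h1 := hX.2 n hn s (by rw [heq]; simp)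
        rw [heq] at ht
        simp only [List.getElem?_concat_length, Option.some.injEq] at ht
        subst ht
        exact hev.isSome (pre_prefix _ hs) h1
      · rw [List.getElem?_eq_none (by simp; omega)] at ht
        simp at ht
  have hU : ⋃ s, A s = GS ev a ∩ KS ev i a τ := by
    apply Set.Subset.antisymm
    · apply Set.iUnion_subset
      intro s
      exact Set.inter_subset_inter_right _ (KS_anti ev i a (List.prefix_append _ _))
    · intro X hX
      by_cases hn : ∃ n, a ≤ n ∧ Nat.pair i n = τ.length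
      · obtain ⟨n, hn, hl⟩ := hn
        obtain ⟨s, hs⟩ := hX.1 n hn
        refine Set.mem_iUnion.2 ⟨s, hX.1, ?_⟩
        intro n' hn' t ht
        by_cases hlt : Nat.pair i n' < τ.length
        · refine hX.2 n' hn' t ?_
          rw [List.getElem?_append_left hlt] at ht
          exact ht
        · by_cases heq : Nat.pair i n' = τ.length
          · have h2 : n' = n := by
              have := heq.trans hl.symm
              rw [Nat.pair_eq_pair] at this
              exact this.2
            rw [heq] at ht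
            simp only [List.getElem?_concat_length, Option.some.injEq] at ht
            subst ht
            subst h2
            exact hs
          · rw [List.getElem?_eq_none (by simp; omega)] at ht
            simp at ht
      · push Not at hn
        refine Set.mem_iUnion.2 ⟨0, hX.1, ?_⟩
        intro n' hn' t ht
        by_cases hlt : Nat.pair i n' < τ.length
        · refine hX.2 n' hn' t ?_
          rw [List.getElem?_append_left hlt] at ht
          exact ht
        · rw [List.getElem?_eq_none (by have := hn n' hn'; simp; omega)] at ht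
          simp at ht
  have h1 : Filter.Tendsto (fun s => coin (A s)) Filter.atTop (nhds (coin (⋃ s, A s))) :=
    tendsto_measure_iUnion_atTop hmono
  rw [hU] at h1
  have h2 : Filter.Tendsto (fun s => vv ev i a (τ ++ [s])) Filter.atTop (nhds (vv ev i a τ)) :=
    (ENNReal.tendsto_toReal (measure_ne_top _ _)).comp h1
  exact h2.eventually (lt_mem_nhds hq)

/-- the gap between `uu` and `vv` gets small -/
lemma gap {ε : ℝ} (hε : 0 < ε) : ∃ l : ℕ, ∀ τ : List ℕ, l ≤ τ.length →
    uu ev i a τ - vv ev i a τ < ε := by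
  let A : ℕ → Set (ℕ → Bool) := fun m => WS ev a m \ GS ev a
  have hanti : Antitone A := by
    intro m m' hm X hX
    exact ⟨fun n hn hnm => hX.1 n hn (by omega), hX.2⟩
  have hI : ⋂ m, A m = ∅ := by
    rw [Set.eq_empty_iff_forall_notMem]
    intro X hX
    rw [Set.mem_iInter] at hX
    exact (hX 0).2 (fun n hn => (hX (n + 1)).1 n hn (by omega))
  have h1 : Filter.Tendsto (fun m => coin (A m)) Filter.atTop (nhds (coin (⋂ m, A m))) :=
    tendsto_measure_iInter_atTop
      (fun m => ((meas_WS ev a m).diff (meas_GS ev a)).nullMeasurableSet) hanti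
      ⟨0, measure_ne_top _ _⟩
  rw [hI, measure_empty] at h1
  have h2 : Filter.Tendsto (fun m => coin.real (A m)) Filter.atTop (nhds 0) :=
    (ENNReal.tendsto_toReal (by simp)).comp h1
  obtain ⟨m, hm⟩ := (h2.eventually (gt_mem_nhds hε)).exists
  refine ⟨(Finset.range m).sup (fun n => Nat.pair i n + 1), fun τ hτ => ?_⟩
  have h3 : uu ev i a τ - vv ev i a τ = coin.real (KS ev i a τ \ GS ev a) := by
    unfold uu vv
    have := measureReal_inter_add_sdiff (μ := coin) (s := KS ev i a τ) (t := GS ev a)
      (meas_GS ev a)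
    rw [Set.inter_comm] at this
    linarith
  rw [h3]
  refine lt_of_le_of_lt (measureReal_mono ?_) hm
  intro X hX
  refine ⟨?_, hX.2⟩
  intro n hn hnm
  have h4 : Nat.pair i n < τ.length := by
    have := Finset.le_sup (f := fun n => Nat.pair i n + 1) (Finset.mem_range.2 hnm)
    omega
  exact ⟨_, hX.1 n hn (τ[Nat.pair i n]) (List.getElem?_eq_getElem h4)⟩

end column

end Pool.Agent.H572R3
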