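import Mathlib
import Pool.Agent.H572R3.Force

set_option autoImplicit false

/-! Forcing with time bounds: conditions, density and the generic function. -/

namespace Pool.Agent.H572R3

open MeasureTheory Pool.Agent.Helper743

structure Cond where
  st : List ℕ
  N : ℕ
  a : ℕ → ℕ
  q : ℕ → ℝ

section forcing

variable (E : ℕ → List ℕ × ℕ → Option ℕ)

def Cond.ok (c : Cond) : Prop :=
  ∀ i < c.N, c.q i < vv (E i.unpair.1) i (c.a i) c.st ∧
    coin.real (GS (E i.unpair.1) (c.a i)) - (1 / 2) ^ i.unpair.2 ≤ c.q i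

/-- `c'` extends `c` -/
def Cond.ex (c' c : Cond) : Prop :=
  c.st <+: c'.st ∧ c.N ≤ c'.N ∧ ∀ i < c.N, c'.a i = c.a i ∧ c.q i ≤ c'.q i

lemma Cond.ex_refl (c : Cond) : c.ex c := ⟨List.prefix_refl _, le_refl _, fun _ _ => ⟨rfl, le_refl _⟩⟩

lemma Cond.ex_trans {c c' c'' : Cond} (h : c''.ex c') (h' : c'.ex c) : c''.ex c :=
  ⟨h'.1.trans h.1, h'.2.1.trans h.2.1, fun i hi =>
    ⟨(h.2.2 i (lt_of_lt_of_le hi h'.2.1)).1.trans (h'.2.2 i hi).1,
      (h'.2.2 i hi).2.trans (h.2.2 i (lt_of_lt_of_le hi h'.2.1)).2⟩⟩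

variable {E}

lemma ext_st (hE : ∀ e, Mon (E e)) {c : Cond} (hc : c.ok E) :
    ∀ᶠ s in Filter.atTop, ({c with st := c.st ++ [s]} : Cond).ok E := by
  have h : ∀ᶠ s in Filter.atTop, ∀ i ∈ Finset.range c.N,
      c.q i < vv (E i.unpair.1) i (c.a i) (c.st ++ [s]) := by
    rw [Filter.eventually_all_finset]
    intro i hi
    exact ext_one i (c.a i) (hE _) (hc i (Finset.mem_range.1 hi)).1
  filter_upwards [h] with s hs i hi
  exact ⟨hs i (Finset.mem_range.2 hi), (hc i hi).2⟩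

lemma ext_len (hE : ∀ e, Mon (E e)) (c : Cond) (hc : c.ok E) (l : ℕ) :
    ∃ τ, c.st <+: τ ∧ l ≤ τ.length ∧ ({c with st := τ} : Cond).ok E := by
  induction l with
  | zero => exact ⟨c.st, List.prefix_refl _, Nat.zero_le _, hc⟩
  | succ l ih =>
    obtain ⟨τ, h1, h2, h3⟩ := ih
    obtain ⟨s, hs⟩ := (ext_st hE h3).exists
    exact ⟨τ ++ [s], h1.trans (List.prefix_append _ _), by simpa using h2, hs⟩

lemma ex_st {c : Cond} {τ : List ℕ} (h : c.st <+: τ) : ({c with st := τ} : Cond).ex c :=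
  ⟨h, le_refl _, fun _ _ => ⟨rfl, le_refl _⟩⟩

lemma dense_len (hE : ∀ e, Mon (E e)) (l : ℕ) (c : Cond) (hc : c.ok E) :
    ∃ c' : Cond, c'.ok E ∧ c'.ex c ∧ l ≤ c'.st.length := by
  obtain ⟨τ, h1, h2, h3⟩ := ext_len hE c hc l
  exact ⟨{c with st := τ}, h3, ex_st h1, h2⟩

lemma dense_ne (hE : ∀ e, Mon (E e)) (g : ℕ → ℕ) (c : Cond) (hc : c.ok E) :
    ∃ c' : Cond, c'.ok E ∧ c'.ex c ∧ ∃ x s, c'.st[x]? = some s ∧ s ≠ g x := by
  obtain ⟨s, hs, hs2⟩ := ((ext_st hE hc).and (Filter.eventually_gt_atTop (g c.st.length))).exists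
  refine ⟨{c with st := c.st ++ [s]}, hs, ex_st (List.prefix_append _ _), c.st.length, s, ?_, ?_⟩
  · simp
  · omega

lemma dense_N (M : ℕ) (c : Cond) (hc : c.ok E) :
    ∃ c' : Cond, c'.ok E ∧ c'.ex c ∧ M ≤ c'.N := by
  induction M with
  | zero => exact ⟨c, hc, c.ex_refl, Nat.zero_le _⟩
  | succ M ih =>
    obtain ⟨c', h1, h2, h3⟩ := ih
    refine ⟨⟨c'.st, c'.N + 1, Function.update c'.a c'.N c'.st.length,
      Function.update c'.q c'.N
        (coin.real (GS (E c'.N.unpair.1) c'.st.length) - (1 / 2) ^ c'.N.unpair.2)⟩, ?_, ?_, ?_⟩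
    · intro i hi
      simp only at hi ⊢
      by_cases h : i = c'.N
      · subst h
        simp only [Function.update_self]
        rw [vv_init _ _ _ (le_refl _)]
        refine ⟨?_, le_refl _⟩
        have : (0 : ℝ) < (1 / 2) ^ c'.N.unpair.2 := by positivity
        linarith
      · simp only [Function.update_of_ne h]
        exact h1 i (by omega)
    · refine Cond.ex_trans ?_ h2
      refine ⟨List.prefix_refl _, Nat.le_succ _, fun i hi => ?_⟩
      have h : i ≠ c'.N := by omega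
      simp only [Function.update_of_ne h]
      exact ⟨trivial, le_refl _⟩
    · simp only
      omega

lemma dec_all (hE : ∀ e, Mon (E e)) (N : ℕ) (a : ℕ → ℕ) (r : ℕ → ℚ) :
    ∃ d : List ℕ → Bool, Computable d ∧
    ∀ τ, d τ = true ↔ ∀ i < N, (r i : ℝ) < uu (E i.unpair.1) i (a i) τ := by
  induction N with
  | zero => exact ⟨fun _ => true, Computable.const true, fun τ => by simp⟩
  | succ N ih =>
    obtain ⟨d, h1, h2⟩ := ih
    obtain ⟨d', h3, h4⟩ := dec_uu N (a N) (hE N.unpair.1).1 (r N)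
    refine ⟨fun τ => d τ && d' τ, Primrec.and.to_comp.comp h1 h3, fun τ => ?_⟩
    rw [Bool.and_eq_true, h2, h4]
    constructor
    · rintro ⟨h5, h6⟩ i hi
      by_cases h : i = N
      · subst h; exact h6
      · exact h5 i (by omega)
    · intro h
      exact ⟨fun i hi => h i (by omega), h N (by omega)⟩

lemma comp_of_search {C : ℕ → ℕ} {f : ℕ → ℕ → Option ℕ} (hf : Computable₂ f)
    (h1 : ∀ n, ∃ k y, f n k = some y) (h2 : ∀ n k y, f n k = some y → y = C n) : Computable C := by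
  have h3 := Partrec.rfindOpt hf
  refine Partrec.of_eq h3 (fun n => ?_)
  have hdom : (Nat.rfindOpt (f n)).Dom := by
    rw [Nat.rfindOpt_dom]
    obtain ⟨k, y, h⟩ := h1 n
    exact ⟨k, y, h⟩
  obtain ⟨k, hk⟩ := Nat.rfindOpt_spec (Part.get_mem hdom)
  show Nat.rfindOpt (f n) = Part.some (C n)
  rw [Part.eq_some_iff]
  have := h2 n k _ hk
  rw [← this]
  exact Part.get_mem hdom

/-- the condition decides that `C` is not computed by `ev'` -/
def Dec (E : ℕ → List ℕ × ℕ → Option ℕ) (ev' : List ℕ × ℕ → Option ℕ) (C : ℕ → ℕ) (c : Cond) :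
    Prop :=
  ∃ n, (∃ y, ev' (c.st, n) = some y ∧ y ≠ C n) ∨
    ∀ τ, c.st <+: τ → (∀ i < c.N, c.q i < uu (E i.unpair.1) i (c.a i) τ) → ev' (τ, n) = none

lemma dense_dec (hE : ∀ e, Mon (E e)) {ev' : List ℕ × ℕ → Option ℕ} (hev' : Mon ev') {C : ℕ → ℕ}
    (hC : ¬ Computable C) (c : Cond) (hc : c.ok E) :
    ∃ c' : Cond, c'.ok E ∧ c'.ex c ∧ Dec E ev' C c' := by
  have hr : ∀ i, ∃ r : ℚ, i < c.N → c.q i < (r : ℝ) ∧ (r : ℝ) < vv (E i.unpair.1) i (c.a i) c.st := by
    intro i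
    by_cases hi : i < c.N
    · obtain ⟨r, h1, h2⟩ := exists_rat_btwn (hc i hi).1
      exact ⟨r, fun _ => ⟨h1, h2⟩⟩
    · exact ⟨0, fun h => absurd h hi⟩
  choose r hr using hr
  have hl : ∀ i, ∃ l : ℕ, i < c.N → ∀ τ : List ℕ, l ≤ τ.length →
      uu (E i.unpair.1) i (c.a i) τ - vv (E i.unpair.1) i (c.a i) τ < (r i : ℝ) - c.q i := by
    intro i
    by_cases hi : i < c.N
    · obtain ⟨l, hl⟩ := gap (E i.unpair.1) i (c.a i) (sub_pos.2 (hr i hi).1)
      exact ⟨l, fun _ => hl⟩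
    · exact ⟨0, fun h => absurd h hi⟩
  choose l hl using hl
  let c1 : Cond := ⟨c.st, c.N, c.a, fun i => (r i : ℝ)⟩
  have hc1 : c1.ok E := fun i hi => ⟨(hr i hi).2, (hc i hi).2.trans (hr i hi).1.le⟩
  obtain ⟨τ0, h1, h2, h3⟩ := ext_len hE c1 hc1 ((Finset.range c.N).sup l)
  have hkey : ∀ τ, τ0 <+: τ → (∀ i < c.N, (r i : ℝ) < uu (E i.unpair.1) i (c.a i) τ) →
      ({c with st := τ} : Cond).ok E := by
    intro τ hτ hu i hi
    refine ⟨?_, (hc i hi).2⟩
    have h4 := hl i hi τ ((Finset.le_sup (Finset.mem_range.2 hi)).trans (h2.trans hτ.length_le))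
    have h5 := hu i hi
    simp only
    linarith
  by_cases hA : ∃ τ, τ0 <+: τ ∧ (∀ i < c.N, (r i : ℝ) < uu (E i.unpair.1) i (c.a i) τ) ∧
      ∃ n y, ev' (τ, n) = some y ∧ y ≠ C n
  · obtain ⟨τ, h4, h5, n, y, h6, h7⟩ := hA
    exact ⟨{c with st := τ}, hkey τ h4 h5, ex_st (h1.trans h4), n, Or.inl ⟨y, h6, h7⟩⟩
  · by_cases hB : ∃ n, ∀ τ, τ0 <+: τ → (∀ i < c.N, (r i : ℝ) < uu (E i.unpair.1) i (c.a i) τ) →
        ev' (τ, n) = none
    · obtain ⟨n, hn⟩ := hB
      refine ⟨{c1 with st := τ0}, h3, ⟨h1, le_refl _, fun i hi => ⟨rfl, (hr i hi).1.le⟩⟩, n,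
        Or.inr hn⟩
    · exfalso
      apply hC
      obtain ⟨d, hd1, hd2⟩ := dec_all hE c.N c.a r
      let f : ℕ → ℕ → Option ℕ := fun n k => (Encodable.decode (α := List ℕ) k).bind (fun ρ =>
        bif d (τ0 ++ ρ) then ev' (τ0 ++ ρ, n) else none)
      have hf : Computable₂ f := by
        have a1 : Computable (fun q : (ℕ × ℕ) × List ℕ => τ0 ++ q.2) :=
          (Primrec.list_append.comp (Primrec.const τ0) Primrec.snd).to_comp
        refine Computable.option_bind (Computable.decode.comp Computable.snd) ?_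
        exact Computable.cond (hd1.comp a1)
          (hev'.1.comp (a1.pair (Computable.fst.comp Computable.fst))) (Computable.const none)
      refine comp_of_search hf ?_ ?_
      · intro n
        push Not at hB
        obtain ⟨τ, hτ, hu, hne⟩ := hB n
        obtain ⟨ρ, rfl⟩ := hτ
        obtain ⟨y, hy⟩ := Option.ne_none_iff_exists'.1 hne
        refine ⟨Encodable.encode ρ, y, ?_⟩
        simp only [f, Encodable.encodek, Option.bind_some]
        rw [(hd2 _).2 hu]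
        exact hy
      · intro n k y hy
        simp only [f] at hy
        obtain ⟨ρ, hρ, h4⟩ := Option.bind_eq_some_iff.1 hy
        by_contra hne
        apply hA
        cases hdv : d (τ0 ++ ρ) with
        | false => rw [hdv] at h4; simp at h4
        | true =>
          rw [hdv] at h4
          exact ⟨τ0 ++ ρ, List.prefix_append _ _, (hd2 _).1 hdv, n, y, h4, hne⟩

end forcing

end Pool.Agent.H572R3
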