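import Mathlib
import Pool.Agent.H572R3.Force2

set_option autoImplicit false

/-! The forcing theorem: almost everywhere dominating functions avoiding countably many
noncomputable functions. -/

namespace Pool.Agent.H572R3

open MeasureTheory Pool.Agent.Helper743

theorem exists_seq {E : ℕ → List ℕ × ℕ → Option ℕ} (S : ℕ → Set Cond)
    (hS : ∀ t (c : Cond), c.ok E → ∃ c' : Cond, c'.ok E ∧ c'.ex c ∧ c' ∈ S t) :
    ∃ c : ℕ → Cond, (∀ t, (c t).ok E) ∧ (∀ t t', t ≤ t' → (c t').ex (c t)) ∧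
      ∀ t, c (t + 1) ∈ S t := by
  choose! g h1 h2 h3 using hS
  let c : ℕ → Cond := fun t => Nat.rec ⟨[], 0, fun _ => 0, fun _ => 0⟩ (fun t c => g t c) t
  have hok : ∀ t, (c t).ok E := by
    intro t
    induction t with
    | zero => intro i hi; exact absurd hi (Nat.not_lt_zero _)
    | succ t ih => exact h1 t _ ih
  refine ⟨c, hok, ?_, fun t => h3 t _ (hok t)⟩
  intro t t' ht
  induction t', ht using Nat.le_induction with
  | base => exact Cond.ex_refl _
  | succ t' _ ih => exact Cond.ex_trans (h2 t' _ (hok t')) ih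

theorem exists_limit {c : ℕ → Cond} (h1 : ∀ t t', t ≤ t' → (c t').ex (c t))
    (h2 : ∀ l, ∃ t, l ≤ (c t).st.length) :
    ∃ h : ℕ → ℕ, ∀ t, (c t).st = pre h (c t).st.length := by
  choose T hT using fun x : ℕ => h2 (x + 1)
  refine ⟨fun x => (c (T x)).st[x]'(hT x), fun t => ?_⟩
  apply pre_eq_of_prefix
  intro x hx
  rcases le_total t (T x) with h | h
  · obtain ⟨ρ, hρ⟩ := (h1 t (T x) h).1
    have : (c (T x)).st[x]'(hT x) = (c t).st[x] := by
      simp only [← hρ]
      exact List.getElem_append_left hx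
    exact this.symm
  · obtain ⟨ρ, hρ⟩ := (h1 (T x) t h).1
    have : (c t).st[x] = (c (T x)).st[x]'(hT x) := by
      simp only [← hρ]
      exact List.getElem_append_left (hT x)
    exact this

/-- the columns met by the generic function -/
def KH (ev : List ℕ × ℕ → Option ℕ) (i a : ℕ) (h : ℕ → ℕ) : Set (ℕ → Bool) :=
  {X | ∀ n, a ≤ n → (ev (pre (nb X) (h (Nat.pair i n)), n)).isSome = true}

lemma vv_limit {ev : List ℕ × ℕ → Option ℕ} {i a : ℕ} {h : ℕ → ℕ} {q : ℝ}
    (hq : ∀ s, q ≤ vv ev i a (pre h s)) : q ≤ coin.real (GS ev a ∩ KH ev i a h) := by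
  let A : ℕ → Set (ℕ → Bool) := fun s => GS ev a ∩ KS ev i a (pre h s)
  have hanti : Antitone A := by
    intro s s' hs
    exact Set.inter_subset_inter_right _ (KS_anti ev i a (pre_prefix h hs))
  have hI : ⋂ s, A s = GS ev a ∩ KH ev i a h := by
    apply Set.Subset.antisymm
    · intro X hX
      rw [Set.mem_iInter] at hX
      refine ⟨(hX 0).1, fun n hn => ?_⟩
      exact (hX (Nat.pair i n + 1)).2 n hn _ (by rw [pre_getElem?, if_pos (Nat.lt_succ_self _)])
    · intro X hX
      rw [Set.mem_iInter]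
      intro s
      refine ⟨hX.1, fun n hn t ht => ?_⟩
      rw [pre_getElem?] at ht
      by_cases hlt : Nat.pair i n < s
      · rw [if_pos hlt] at ht
        simp only [Option.some.injEq] at ht
        subst ht
        exact hX.2 n hn
      · rw [if_neg hlt] at ht
        simp at ht
  have h1 : Filter.Tendsto (fun s => coin (A s)) Filter.atTop (nhds (coin (⋂ s, A s))) :=
    tendsto_measure_iInter_atTop
      (fun s => ((meas_GS ev a).inter (meas_KS ev i a _)).nullMeasurableSet) hanti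
      ⟨0, measure_ne_top _ _⟩
  rw [hI] at h1
  have h2 : Filter.Tendsto (fun s => coin.real (A s)) Filter.atTop
      (nhds (coin.real (GS ev a ∩ KH ev i a h))) :=
    (ENNReal.tendsto_toReal (measure_ne_top _ _)).comp h1
  exact ge_of_tendsto' h2 hq

lemma meas_KH (ev : List ℕ × ℕ → Option ℕ) (i a : ℕ) (h : ℕ → ℕ) :
    MeasurableSet (KH ev i a h) := by
  have : KH ev i a h = ⋂ n, ⋂ (_ : a ≤ n), {X | (ev (pre (nb X) (h (Nat.pair i n)), n)).isSome = true} := by
    ext X; simp [KH]
  rw [this]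
  exact MeasurableSet.iInter (fun n => MeasurableSet.iInter (fun _ => meas_cl ev _ n))

/-- the dominating function -/
lemma dominate {ev : List ℕ × ℕ → Option ℕ} (hev : Mon ev) {i a : ℕ} {h g : ℕ → ℕ} {X : ℕ → Bool}
    (hg : ∀ x y, y = g x ↔ ∃ n, ev (pre (nb X) n, x) = some y) (hX : X ∈ KH ev i a h) :
    ∃ f, TR f h ∧ ∀ᶠ n in Filter.atTop, g n ≤ f n := by
  let F : ℕ × ℕ → ℕ := fun q => sumB (fun c => (ev (pre (nb (xc c)) q.2, q.1)).getD 0) (2 ^ q.2)
  have hF : Computable F := by
    refine sumB_comp (p := fun (q : ℕ × ℕ) (c : ℕ) => (ev (pre (nb (xc c)) q.2, q.1)).getD 0) ?_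
      (pow2_prim.to_comp.comp Computable.snd)
    refine Computable.option_getD (hev.1.comp (Computable.pair ?_
      (Computable.fst.comp Computable.fst))) (Computable.const 0)
    exact (pre_xc_prim.comp Primrec.snd (Primrec.snd.comp Primrec.fst)).to_comp
  refine ⟨fun n => F (n, h (Nat.pair i n)), ?_, ?_⟩
  · have c1 : Computable (fun z : ℕ => F (z.unpair.1, z.unpair.2)) :=
      hF.comp ((Computable.fst.comp Computable.unpair).pair (Computable.snd.comp Computable.unpair))
    have c2 : Computable (fun n : ℕ => Nat.pair i n) :=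
      (Primrec₂.natPair.comp (Primrec.const i) Primrec.id).to_comp
    have r1 : RecT {(h : ℕ →. ℕ)} (fun n => Nat.pair n (h (Nat.pair i n))) :=
      RecT.pair (Computable.recT Computable.id) ((TR.refl h).comp (Computable.recT c2))
    have r2 := (Computable.recT (O := {(h : ℕ →. ℕ)}) c1).comp r1
    refine Nat.RecursiveIn.of_eq r2 ?_
    intro n
    simp
  · filter_upwards [Filter.eventually_ge_atTop a] with n hn
    obtain ⟨c, hc, hcX⟩ := exists_xc X (h (Nat.pair i n))
    obtain ⟨y, hy⟩ := Option.isSome_iff_exists.1 (hX n hn)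
    have h1 : y = g n := (hg n y).2 ⟨_, hy⟩
    have h2 : (ev (pre (nb (xc c)) (h (Nat.pair i n)), n)).getD 0 = g n := by
      rw [pre_congr hcX, hy, ← h1]; rfl
    rw [← h2]
    exact le_sumB (fun c => (ev (pre (nb (xc c)) (h (Nat.pair i n)), n)).getD 0) hc

theorem forcing (CC : Set (ℕ → ℕ)) (hCC : CC.Countable) (hn : ∀ C ∈ CC, ¬ Computable C) :
    ∃ h : ℕ → ℕ, ¬ Computable h ∧ (∀ C ∈ CC, ¬ TR C h) ∧
      ∀ᵐ X ∂coin, ∀ g, TR g (nb X) → ∃ f, TR f h ∧ ∀ᶠ n in Filter.atTop, g n ≤ f n := by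
  obtain ⟨E, hE, hEs⟩ := exists_enum
  let S : Set (Set Cond) := (Set.range fun l => {c : Cond | l ≤ c.st.length}) ∪
    (Set.range fun M => {c : Cond | M ≤ c.N}) ∪
    ((fun g => {c : Cond | ∃ x s, c.st[x]? = some s ∧ s ≠ g x}) '' {g : ℕ → ℕ | Computable g}) ∪
    (Set.image2 (fun ev C => {c : Cond | Dec E ev C c}) {ev : List ℕ × ℕ → Option ℕ | Mon ev} CC)
  have hScount : S.Countable := by
    refine Set.Countable.union (Set.Countable.union (Set.Countable.union
      (Set.countable_range _) (Set.countable_range _)) ?_) ?_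
    · exact (countable_computable (α := ℕ) (β := ℕ)).image _
    · refine Set.Countable.image2 ?_ hCC _
      exact (countable_computable (α := List ℕ × ℕ) (β := Option ℕ)).mono (fun ev h => h.1)
  have hSne : S.Nonempty := ⟨_, Or.inl (Or.inl (Or.inl ⟨0, rfl⟩))⟩
  have hSd : ∀ D ∈ S, ∀ c : Cond, c.ok E → ∃ c' : Cond, c'.ok E ∧ c'.ex c ∧ c' ∈ D := by
    rintro D (((⟨l, rfl⟩ | ⟨M, rfl⟩) | ⟨g, hg, rfl⟩) | ⟨ev, hev, C, hC, rfl⟩) c hc
    · exact dense_len hE l c hc
    · exact dense_N M c hc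
    · exact dense_ne hE g c hc
    · exact dense_dec hE hev (hn C hC) c hc
  obtain ⟨ff, hff⟩ := hScount.exists_eq_range hSne
  have hffS : ∀ t, ff t ∈ S := fun t => by rw [hff]; exact ⟨t, rfl⟩
  obtain ⟨c, hok, hex, hmem⟩ := exists_seq ff (fun t c hc => hSd _ (hffS t) c hc)
  have hmeet : ∀ D ∈ S, ∃ t, c t ∈ D := by
    intro D hD
    rw [hff] at hD
    obtain ⟨t, rfl⟩ := hD
    exact ⟨t + 1, hmem t⟩
  have hlen : ∀ l, ∃ t, l ≤ (c t).st.length := fun l =>
    hmeet _ (Or.inl (Or.inl (Or.inl ⟨l, rfl⟩)))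
  obtain ⟨h, hh⟩ := exists_limit hex hlen
  have hvv : ∀ t i, i < (c t).N → ∀ s, (c t).q i < vv (E i.unpair.1) i ((c t).a i) (pre h s) := by
    intro t i hi s
    obtain ⟨t', ht'⟩ := hlen s
    have h1 := hex t (max t t') (le_max_left _ _)
    have h2 := hex t' (max t t') (le_max_right _ _)
    have h3 := (hok (max t t') i (lt_of_lt_of_le hi h1.2.1)).1
    rw [(h1.2.2 i hi).1, hh (max t t')] at h3
    have h4 : s ≤ (c (max t t')).st.length := ht'.trans h2.1.length_le
    exact lt_of_le_of_lt (h1.2.2 i hi).2 (lt_of_lt_of_le h3 (vv_anti _ _ _ (pre_prefix h h4)))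
  refine ⟨h, ?_, ?_, ?_⟩
  · intro hcomp
    obtain ⟨t, x, s, hx, hs⟩ := hmeet _ (Or.inl (Or.inr ⟨h, hcomp, rfl⟩))
    rw [hh t, pre_getElem?] at hx
    by_cases hlt : x < (c t).st.length
    · rw [if_pos hlt] at hx
      simp only [Option.some.injEq] at hx
      exact hs hx.symm
    · rw [if_neg hlt] at hx
      simp at hx
  · intro C hC hTR
    obtain ⟨ev, h1, h2, h3⟩ := use_principle h _ hTR
    have hM : Mon (fun p : List ℕ × ℕ => ev p.1 p.2) := ⟨h1, h2⟩
    obtain ⟨t, n, hD⟩ := hmeet _ (Or.inr ⟨_, hM, C, hC, rfl⟩)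
    rcases hD with ⟨y, hy, hne⟩ | hD
    · rw [hh t] at hy
      have := (h3 n y).2 ⟨_, hy⟩
      exact hne (by simpa using this)
    · obtain ⟨s, hs⟩ := (h3 n (C n)).1 (by simp)
      have h4 := h2 _ _ n (C n) (pre_prefix h (le_max_left s (c t).st.length)) hs
      have h5 := hD (pre h (max s (c t).st.length)) ?_ ?_
      · simp only at h5
        rw [h4] at h5
        simp at h5
      · rw [hh t, pre_length]
        exact pre_prefix h (le_max_right _ _)
      · intro i hi
        exact lt_of_lt_of_le (hvv t i hi _) (vv_le_uu _ _ _ _)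
  · -- almost everywhere domination
    have hT : ∀ i, ∃ t, i < (c t).N := fun i => hmeet _ (Or.inl (Or.inl (Or.inr ⟨i + 1, rfl⟩)))
    choose T hT using hT
    let b : ℕ → ℕ := fun i => (c (T i)).a i
    have hbound : ∀ i : ℕ, coin (GS (E i.unpair.1) 0 \ KH (E i.unpair.1) i (b i) h) ≤
        ENNReal.ofReal ((1 / 2) ^ i.unpair.2) := by
      intro i
      have h1 : (c (T i)).q i ≤ coin.real (GS (E i.unpair.1) (b i) ∩ KH (E i.unpair.1) i (b i) h) :=
        vv_limit (fun s => (hvv (T i) i (hT i) s).le)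
      have h2 := (hok (T i) i (hT i)).2
      have h3 := measureReal_inter_add_sdiff (μ := coin) (s := GS (E i.unpair.1) (b i))
        (t := KH (E i.unpair.1) i (b i) h) (meas_KH _ _ _ _)
      have h4 : coin.real (GS (E i.unpair.1) (b i) \ KH (E i.unpair.1) i (b i) h) ≤
          (1 / 2) ^ i.unpair.2 := by linarith
      have h5 : coin (GS (E i.unpair.1) (b i) \ KH (E i.unpair.1) i (b i) h) ≤
          ENNReal.ofReal ((1 / 2) ^ i.unpair.2) := by
        rw [← ENNReal.ofReal_toReal (measure_ne_top coin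
          (GS (E i.unpair.1) (b i) \ KH (E i.unpair.1) i (b i) h))]
        exact ENNReal.ofReal_le_ofReal h4
      refine (measure_mono ?_).trans h5
      intro X hX
      exact ⟨fun n _ => hX.1 n (Nat.zero_le _), hX.2⟩
    have hnull : ∀ e, ∀ᵐ X ∂coin, X ∈ GS (E e) 0 → ∃ k, X ∈ KH (E e) (Nat.pair e k) (b (Nat.pair e k)) h := by
      intro e
      rw [ae_iff]
      have h1 : ∀ k, coin {X | ¬ (X ∈ GS (E e) 0 →
          ∃ k, X ∈ KH (E e) (Nat.pair e k) (b (Nat.pair e k)) h)} ≤ ENNReal.ofReal ((1 / 2) ^ k) := by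
        intro k
        have h2 := hbound (Nat.pair e k)
        simp only [Nat.unpair_pair] at h2
        refine (measure_mono ?_).trans h2
        intro X hX
        simp only [Set.mem_ofPred_eq, Classical.not_imp, not_exists] at hX
        exact ⟨hX.1, hX.2 k⟩
      have h2 : Filter.Tendsto (fun k : ℕ => ENNReal.ofReal ((1 / 2 : ℝ) ^ k)) Filter.atTop
          (nhds 0) := by
        have := ENNReal.tendsto_ofReal (tendsto_pow_atTop_nhds_zero_of_lt_one
          (r := (1 / 2 : ℝ)) (by norm_num) (by norm_num))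
        simpa using this
      exact le_antisymm (ge_of_tendsto' h2 h1) bot_le
    have hall := ae_all_iff.2 hnull
    filter_upwards [hall] with X hX g hg
    obtain ⟨ev, h1, h2, h3⟩ := use_principle (nb X) _ hg
    have hM : Mon (fun p : List ℕ × ℕ => ev p.1 p.2) := ⟨h1, h2⟩
    obtain ⟨e, he⟩ := hEs _ hM
    have hgx : ∀ x y, y = g x ↔ ∃ n, E e (pre (nb X) n, x) = some y := by
      intro x y
      rw [he, ← h3 x y]
      simp
    obtain ⟨k, hk⟩ := hX e (by
      intro n _
      obtain ⟨s, hs⟩ := (hgx n (g n)).1 rfl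
      exact ⟨s, by rw [hs]; rfl⟩)
    exact dominate (hE e) hgx hk

/-- the functions computable in `A` form a countable set -/
lemma countable_TR (A : ℕ → ℕ) : {C : ℕ → ℕ | TR C A}.Countable := by
  have h : ∀ C : {C : ℕ → ℕ // TR C A}, ∃ ev : List ℕ × ℕ → Option ℕ, Computable ev ∧
      ∀ x y, y = C.1 x ↔ ∃ n, ev (pre A n, x) = some y := by
    intro C
    obtain ⟨ev, h1, h2, h3⟩ := use_principle A _ C.2
    refine ⟨fun p => ev p.1 p.2, h1, fun x y => ?_⟩
    rw [← h3 x y]
    simp
  choose ev h1 h2 using h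
  have hinj : Function.Injective (fun C => (⟨ev C, h1 C⟩ :
      {f : List ℕ × ℕ → Option ℕ // Computable f})) := by
    intro C D hCD
    simp only [Subtype.mk.injEq] at hCD
    apply Subtype.ext
    funext x
    have := (h2 C x (C.1 x)).1 rfl
    rw [hCD] at this
    exact (h2 D x _).2 this
  have hc : Countable {f : List ℕ × ℕ → Option ℕ // Computable f} :=
    (countable_computable (α := List ℕ × ℕ) (β := Option ℕ)).to_subtype
  exact Set.countable_coe_iff.1 hinj.countable

end Pool.Agent.H572R3
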