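import Mathlib
import Pool.Agent.H572R3.Force3

set_option autoImplicit false

/-! A universal functional and a computable tree of random reals. -/

namespace Pool.Agent.H572R3

open MeasureTheory Pool.Agent.Helper743 Nat.Partrec

/-- truncation -/
def tk (σ : List ℕ) (n : ℕ) : List ℕ := (List.range n).map (fun j => σ.getD j 0)

@[simp] lemma tk_length (σ : List ℕ) (n : ℕ) : (tk σ n).length = n := by simp [tk]

lemma tk_prim : Primrec₂ tk := by
  refine Primrec.list_map (Primrec.list_range.comp Primrec.snd) ?_
  exact (Primrec.list_getD 0).comp (Primrec.fst.comp Primrec.fst) Primrec.snd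

lemma tk_pre (Z : ℕ → ℕ) {n s : ℕ} (h : n ≤ s) : tk (pre Z s) n = pre Z n := by
  unfold tk pre
  apply List.map_congr_left
  intro j hj
  have : j < n := List.mem_range.1 hj
  simp [List.getD, show j < s by omega]

/-- first success -/
def fs {β : Type*} (p : ℕ → Option β) : ℕ → Option β
  | 0 => none
  | n + 1 => fs p n <|> p n

lemma fs_mono {β : Type*} (p : ℕ → Option β) {n m : ℕ} (h : n ≤ m) {y : β} (hy : fs p n = some y) :
    fs p m = some y := by
  induction m, h using Nat.le_induction with
  | base => exact hy
  | succ m _ ih => rw [fs, ih]; rfl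

lemma fs_some {β : Type*} {p : ℕ → Option β} {n : ℕ} {y : β} (h : fs p n = some y) :
    ∃ k < n, p k = some y := by
  induction n with
  | zero => simp [fs] at h
  | succ n ih =>
    rw [fs] at h
    cases hh : fs p n with
    | none => rw [hh] at h; exact ⟨n, Nat.lt_succ_self n, by simpa using h⟩
    | some z =>
      rw [hh] at h
      obtain ⟨k, hk, hk2⟩ := ih (by rw [hh]; simpa using h)
      exact ⟨k, by omega, hk2⟩

lemma fs_isSome {β : Type*} {p : ℕ → Option β} {n k : ℕ} (hk : k < n) {y : β} (h : p k = some y) :
    ∃ z, fs p n = some z := by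
  induction n with
  | zero => omega
  | succ n ih =>
    rw [fs]
    cases hh : fs p n with
    | none =>
      by_cases hkn : k = n
      · subst hkn; exact ⟨y, by simpa using h⟩
      · obtain ⟨z, hz⟩ := ih (by omega)
        rw [hh] at hz; simp at hz
    | some z => exact ⟨z, rfl⟩

lemma fs_congr {β : Type*} {p q : ℕ → Option β} {n : ℕ} (h : ∀ k < n, p k = q k) :
    fs p n = fs q n := by
  induction n with
  | zero => rfl
  | succ n ih => rw [fs, fs, ih (fun k hk => h k (by omega)), h n (by omega)]

lemma fs_comp {α β : Type*} [Primcodable α] [Primcodable β] {p : α → ℕ → Option β}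
    (hp : Computable₂ p) {g : α → ℕ} (hg : Computable g) :
    Computable (fun a => fs (p a) (g a)) := by
  have h := Computable.nat_rec hg (Computable.const (none : Option β))
    (h := fun (a : α) (q : ℕ × Option β) => (q.2 <|> p a q.1)) (by
      exact Primrec.option_orElse.to_comp.comp (Computable.snd.comp Computable.snd)
        (hp.comp Computable.fst (Computable.fst.comp Computable.snd)))
  refine h.of_eq ?_
  intro a
  generalize g a = n
  induction n with
  | zero => rfl
  | succ n ih => rw [fs, ← ih]

/-- evaluation of a code index with values in an encodable type -/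
def uev (β : Type*) [Primcodable β] (s e n : ℕ) : Option β :=
  (Code.evaln s (Denumerable.ofNat Code e) n).bind (fun m =>
    (Encodable.decode (α := Option β) m).getD none)

lemma uev_comp (β : Type*) [Primcodable β] :
    Computable (fun q : (ℕ × ℕ) × ℕ => uev β q.1.1 q.1.2 q.2) := by
  unfold uev
  refine Computable.option_bind ?_ ?_
  · exact (Code.primrec_evaln.comp (((Primrec.fst.comp Primrec.fst).pair
      ((Primrec.ofNat Code).comp (Primrec.snd.comp Primrec.fst))).pair Primrec.snd)).to_comp
  · exact Computable.option_getD (Computable.decode.comp Computable.snd) (Computable.const none)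

lemma uev_comp3 (β : Type*) [Primcodable β] {α : Type*} [Primcodable α] {f g h : α → ℕ}
    (hf : Computable f) (hg : Computable g) (hh : Computable h) :
    Computable (fun a => uev β (f a) (g a) (h a)) :=
  (uev_comp β).comp ((hf.pair hg).pair hh)

lemma uev_mono (β : Type*) [Primcodable β] {s s' e n : ℕ} (h : s ≤ s') {y : β}
    (hy : uev β s e n = some y) : uev β s' e n = some y := by
  unfold uev at hy ⊢
  obtain ⟨m, hm, h2⟩ := Option.bind_eq_some_iff.1 hy
  exact Option.bind_eq_some_iff.2 ⟨m, Code.evaln_mono h hm, h2⟩

attribute [irreducible] uev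

/-- every computable function with optional values has an index -/
lemma exists_index {α β : Type*} [Primcodable α] [Primcodable β] {f : α → Option β}
    (hf : Computable f) : ∃ e : ℕ, ∀ a y, f a = some y ↔ ∃ s, uev β s e (Encodable.encode a) = some y := by
  obtain ⟨c, hc⟩ := Code.exists_code.1 hf
  refine ⟨Encodable.encode c, fun a y => ?_⟩
  have h1 : c.eval (Encodable.encode a) = Part.some (Encodable.encode (f a)) := by
    rw [hc]
    simp
  have h2 : ∀ s m, m ∈ Code.evaln s c (Encodable.encode a) → m = Encodable.encode (f a) := by
    intro s m hm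
    have := Code.evaln_sound hm
    rw [h1] at this
    simpa using this
  unfold uev
  rw [show (Denumerable.ofNat Code (Encodable.encode c)) = c from Denumerable.ofNat_encode c]
  constructor
  · intro h
    obtain ⟨s, hs⟩ := Code.evaln_complete.1 (show Encodable.encode (f a) ∈
      c.eval (Encodable.encode a) by rw [h1]; simp)
    refine ⟨s, Option.bind_eq_some_iff.2 ⟨_, hs, ?_⟩⟩
    rw [Encodable.encodek]
    simpa using h
  · rintro ⟨s, hs⟩
    obtain ⟨m, hm, h3⟩ := Option.bind_eq_some_iff.1 hs
    rw [h2 s m hm, Encodable.encodek] at h3
    simpa using h3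


attribute [irreducible] tk fs

end Pool.Agent.H572R3
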