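import Mathlib
import Pool.Agent.H572R3.U1

set_option autoImplicit false

namespace Pool.Agent.H572R3

open MeasureTheory Pool.Agent.Helper743 Nat.Partrec

def enc (σ : List ℕ) (x : ℕ) : ℕ := Nat.pair (Encodable.encode σ) x

lemma enc_eq (σ : List ℕ) (x : ℕ) : Encodable.encode (σ, x) = enc σ x := rfl

lemma enc_prim : Primrec₂ enc := Primrec₂.natPair.comp (Primrec.encode.comp Primrec.fst) Primrec.snd

attribute [irreducible] enc

/-- the search step of the universal functional -/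
def wst (q : ℕ × (List ℕ × ℕ)) (k : ℕ) : Option ℕ :=
  uev ℕ k.unpair.1 q.1 (enc (tk q.2.1 k.unpair.2) q.2.2)

lemma wst_comp : Computable₂ wst := by
  have h1 : Primrec (fun z : (ℕ × (List ℕ × ℕ)) × ℕ => z.2.unpair.1) :=
    Primrec.fst.comp (Primrec.unpair.comp Primrec.snd)
  have h0 : Primrec (fun z : (ℕ × (List ℕ × ℕ)) × ℕ => z.1.1) :=
    Primrec.fst.comp Primrec.fst
  have ha : Primrec (fun z : (ℕ × (List ℕ × ℕ)) × ℕ => z.1.2.1) :=
    Primrec.fst.comp (Primrec.snd.comp Primrec.fst)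
  have hb : Primrec (fun z : (ℕ × (List ℕ × ℕ)) × ℕ => z.1.2.2) :=
    Primrec.snd.comp (Primrec.snd.comp Primrec.fst)
  have hc : Primrec (fun z : (ℕ × (List ℕ × ℕ)) × ℕ => z.2.unpair.2) :=
    Primrec.snd.comp (Primrec.unpair.comp Primrec.snd)
  have h2 : Primrec (fun z : (ℕ × (List ℕ × ℕ)) × ℕ => tk z.1.2.1 z.2.unpair.2) :=
    tk_prim.comp ha hc
  have h3 : Primrec (fun z : (ℕ × (List ℕ × ℕ)) × ℕ => enc (tk z.1.2.1 z.2.unpair.2) z.1.2.2) :=
    enc_prim.comp h2 hb
  exact uev_comp3 ℕ h1.to_comp h0.to_comp h3.to_comp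

/-- the universal functional -/
def W (i : ℕ) (q : List ℕ × ℕ) : Option ℕ := fs (wst (i, q)) q.1.length

lemma W_comp : Computable (fun q : ℕ × (List ℕ × ℕ) => W q.1 q.2) :=
  fs_comp wst_comp (Computable.list_length.comp (Computable.fst.comp Computable.snd))

lemma W_mono (i : ℕ) (Z : ℕ → ℕ) {s s' x y : ℕ} (h : s ≤ s') (hy : W i (pre Z s, x) = some y) :
    W i (pre Z s', x) = some y := by
  unfold W at hy ⊢
  simp only [pre_length] at hy ⊢
  refine fs_mono _ h ?_
  rw [← hy]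
  apply fs_congr
  intro k hk
  have : k.unpair.2 ≤ k := Nat.unpair_right_le k
  unfold wst
  simp only
  rw [tk_pre Z (by omega), tk_pre Z (by omega)]

lemma W_univ {C Z : ℕ → ℕ} (h : TR C Z) : ∃ i, ∀ x y, y = C x ↔ ∃ n, W i (pre Z n, x) = some y := by
  obtain ⟨ev, h1, h2, h3⟩ := use_principle Z _ h
  have h1' : Computable (fun q : List ℕ × ℕ => ev q.1 q.2) := h1
  obtain ⟨i, hi⟩ := exists_index h1'
  have hi' : ∀ σ x y, ev σ x = some y ↔ ∃ s, uev ℕ s i (enc σ x) = some y :=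
    fun σ x y => by rw [← enc_eq]; exact hi (σ, x) y
  have h3' : ∀ x y, y = C x ↔ ∃ n, ev (pre Z n) x = some y := by
    intro x y
    rw [← h3 x y]
    simp
  have hsound : ∀ x y n, W i (pre Z n, x) = some y → y = C x := by
    intro x y n hn
    unfold W at hn
    obtain ⟨k, hk, hk2⟩ := fs_some hn
    simp only [pre_length] at hk
    have : k.unpair.2 ≤ k := Nat.unpair_right_le k
    unfold wst at hk2
    simp only at hk2
    rw [tk_pre Z (by omega)] at hk2
    exact (h3' x y).2 ⟨_, (hi' (pre Z k.unpair.2) x y).2 ⟨_, hk2⟩⟩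
  refine ⟨i, fun x y => ⟨fun hy => ?_, fun ⟨n, hn⟩ => hsound x y n hn⟩⟩
  obtain ⟨n, hn⟩ := (h3' x y).1 hy
  obtain ⟨s, hs⟩ := (hi' (pre Z n) x y).1 hn
  have hk : wst (i, (pre Z (Nat.pair s n + 1), x)) (Nat.pair s n) = some y := by
    unfold wst
    simp only [Nat.unpair_pair]
    rw [tk_pre Z (by have := Nat.right_le_pair s n; omega)]
    exact hs
  obtain ⟨z, hz⟩ := fs_isSome (Nat.lt_succ_self (Nat.pair s n)) hk
  have hW : W i (pre Z (Nat.pair s n + 1), x) = some z := by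
    unfold W
    rw [pre_length]
    exact hz
  rw [hy, ← hsound x z _ hW]
  exact ⟨_, hW⟩

attribute [irreducible] W wst

end Pool.Agent.H572R3
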