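import Mathlib
import Pool.Agent.H572R3.U2

set_option autoImplicit false

/-! A computable tree of random reals. -/

namespace Pool.Agent.H572R3

open MeasureTheory Pool.Agent.Helper743 Nat.Partrec

/-! the tree of randoms -/

def anyB (p : ℕ → Bool) (n : ℕ) : Bool := !(allB (fun k => !(p k)) n)

lemma anyB_iff (p : ℕ → Bool) (n : ℕ) : anyB p n = true ↔ ∃ k < n, p k = true := by
  unfold anyB
  rw [Bool.not_eq_true', ← Bool.not_eq_true, allB_iff]
  push Not
  simp

lemma anyB_comp {α : Type*} [Primcodable α] {p : α → ℕ → Bool} (hp : Computable₂ p) {g : α → ℕ}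
    (hg : Computable g) : Computable (fun a => anyB (p a) (g a)) := by
  unfold anyB
  exact Primrec.not.to_comp.comp (allB_comp (p := fun a k => !(p a k))
    (Primrec.not.to_comp.comp hp) hg)

/-- the `k`-th string of the `e`-th test at stage `t` catches `σ` -/
def hit (e t k : ℕ) (σ : List ℕ) : Bool :=
  Option.casesOn (motive := fun _ => Bool) (uev (ℕ × List Bool) t e k) false
    (fun q => decide (q.1 = e + 2) && (decide (q.2.length ≤ t) &&
      decide (q.2.map Bool.toNat = tk σ q.2.length)))

def SB (e t : ℕ) (σ : List ℕ) : Bool := anyB (fun k => hit e t k σ) t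

def okB (e t : ℕ) : Bool :=
  decide ((sumB (fun c => (SB e t (pre (nb (xc c)) t)).toNat) (2 ^ t)) * 2 ^ (e + 2) ≤ 2 ^ t)

def badB (e : ℕ) (σ : List ℕ) : Bool := anyB (fun t => okB e t && SB e t σ) (σ.length + 1)

def Pl (σ : List ℕ) : Bool := allB (fun e => !(badB e σ)) σ.length

attribute [irreducible] anyB

/-- checking one entry -/
def chk (e t : ℕ) (σ : List ℕ) (q : ℕ × List Bool) : Bool :=
  decide (q.1 = e + 2) && (decide (q.2.length ≤ t) &&
      decide (q.2.map Bool.toNat = tk σ q.2.length))

lemma chk_comp : Primrec (fun z : ((ℕ × ℕ) × List ℕ) × (ℕ × List Bool) =>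
    chk z.1.1.1 z.1.1.2 z.1.2 z.2) := by
  have e1 : Primrec (fun z : ((ℕ × ℕ) × List ℕ) × (ℕ × List Bool) => decide (z.2.1 = z.1.1.1 + 2)) :=
    (Primrec.eq.comp (Primrec.fst.comp Primrec.snd)
        (Primrec.succ.comp (Primrec.succ.comp (Primrec.fst.comp (Primrec.fst.comp
          Primrec.fst))))).decide
  have e2 : Primrec (fun z : ((ℕ × ℕ) × List ℕ) × (ℕ × List Bool) =>
      decide (z.2.2.length ≤ z.1.1.2)) :=
    (Primrec.nat_le.comp (Primrec.list_length.comp
        (Primrec.snd.comp Primrec.snd)) (Primrec.snd.comp (Primrec.fst.comp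
          Primrec.fst))).decide
  have e3 : Primrec (fun z : ((ℕ × ℕ) × List ℕ) × (ℕ × List Bool) => z.2.2.map Bool.toNat) :=
    Primrec.list_map (Primrec.snd.comp Primrec.snd)
      (((Primrec.dom_finite Bool.toNat).comp Primrec.snd).to₂)
  have e4 : Primrec (fun z : ((ℕ × ℕ) × List ℕ) × (ℕ × List Bool) => tk z.1.2 z.2.2.length) :=
    tk_prim.comp (Primrec.snd.comp Primrec.fst)
      (Primrec.list_length.comp (Primrec.snd.comp Primrec.snd))
  exact Primrec.and.comp e1 (Primrec.and.comp e2 (Primrec.eq.comp e3 e4).decide)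

attribute [irreducible] chk

lemma hit_eq (e t k : ℕ) (σ : List ℕ) : hit e t k σ =
  Option.casesOn (motive := fun _ => Bool) (uev (ℕ × List Bool) t e k) false
    (fun q => chk e t σ q) := by
  unfold hit chk
  rfl

lemma hit_comp : Computable₂ (fun (q : (ℕ × ℕ) × List ℕ) (k : ℕ) => hit q.1.1 q.1.2 k q.2) := by
  have h1 : Computable (fun z : ((ℕ × ℕ) × List ℕ) × ℕ =>
      uev (ℕ × List Bool) z.1.1.2 z.1.1.1 z.2) :=
    uev_comp3 _ (Computable.snd.comp (Computable.fst.comp Computable.fst))
      (Computable.fst.comp (Computable.fst.comp Computable.fst)) Computable.snd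
  have h2 : Computable₂ (fun (z : ((ℕ × ℕ) × List ℕ) × ℕ) (q : ℕ × List Bool) =>
      chk z.1.1.1 z.1.1.2 z.1.2 q) :=
    (chk_comp.comp ((Primrec.fst.comp Primrec.fst).pair Primrec.snd)).to_comp
  refine (Computable.option_casesOn h1 (Computable.const false) h2).of_eq ?_
  intro z
  exact (hit_eq _ _ _ _).symm

lemma SB_comp : Computable (fun q : (ℕ × ℕ) × List ℕ => SB q.1.1 q.1.2 q.2) :=
  anyB_comp hit_comp (Computable.snd.comp Computable.fst)

attribute [irreducible] SB

section wrappers

variable {α : Type*} [Primcodable α]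

lemma SB_comp3 {f g : α → ℕ} {h : α → List ℕ} (hf : Computable f) (hg : Computable g)
    (hh : Computable h) : Computable (fun a => SB (f a) (g a) (h a)) :=
  SB_comp.comp ((hf.pair hg).pair hh)

lemma toNat_comp {f : α → Bool} (hf : Computable f) : Computable (fun a => (f a).toNat) :=
  (Primrec.dom_finite Bool.toNat).to_comp.comp hf

lemma and_comp {f g : α → Bool} (hf : Computable f) (hg : Computable g) :
    Computable (fun a => f a && g a) := Primrec.and.to_comp.comp hf hg

lemma or_comp {f g : α → Bool} (hf : Computable f) (hg : Computable g) :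
    Computable (fun a => f a || g a) := Primrec.or.to_comp.comp hf hg

lemma not_comp {f : α → Bool} (hf : Computable f) :
    Computable (fun a => !(f a)) := Primrec.not.to_comp.comp hf

lemma le_comp {f g : α → ℕ} (hf : Computable f) (hg : Computable g) :
    Computable (fun a => decide (f a ≤ g a)) := Primrec.nat_le.decide.to_comp.comp hf hg

lemma lt_comp {f g : α → ℕ} (hf : Computable f) (hg : Computable g) :
    Computable (fun a => decide (f a < g a)) := Primrec.nat_lt.decide.to_comp.comp hf hg

lemma mul_comp {f g : α → ℕ} (hf : Computable f) (hg : Computable g) :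
    Computable (fun a => f a * g a) := Primrec.nat_mul.to_comp.comp hf hg

lemma add_comp {f g : α → ℕ} (hf : Computable f) (hg : Computable g) :
    Computable (fun a => f a + g a) := Primrec.nat_add.to_comp.comp hf hg

lemma pow2_comp {f : α → ℕ} (hf : Computable f) :
    Computable (fun a => 2 ^ (f a)) := pow2_prim.to_comp.comp hf

lemma prexc_comp {f g : α → ℕ} (hf : Computable f) (hg : Computable g) :
    Computable (fun a => pre (nb (xc (f a))) (g a)) := pre_xc_prim.to_comp.comp hf hg

lemma tk_comp {f : α → List ℕ} {g : α → ℕ} (hf : Computable f) (hg : Computable g) :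
    Computable (fun a => tk (f a) (g a)) := tk_prim.to_comp.comp hf hg

lemma len_comp {f : α → List ℕ} (hf : Computable f) :
    Computable (fun a => (f a).length) := Computable.list_length.comp hf

end wrappers

lemma okB_comp : Computable₂ okB := by
  have h0 : Computable₂ (fun (q : ℕ × ℕ) (c : ℕ) => (SB q.1 q.2 (pre (nb (xc c)) q.2)).toNat) :=
    toNat_comp (SB_comp3 (Computable.fst.comp Computable.fst) (Computable.snd.comp Computable.fst)
      (prexc_comp Computable.snd (Computable.snd.comp Computable.fst)))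
  have h1 : Computable (fun q : ℕ × ℕ =>
      sumB (fun c => (SB q.1 q.2 (pre (nb (xc c)) q.2)).toNat) (2 ^ q.2)) :=
    sumB_comp h0 (pow2_comp Computable.snd)
  exact le_comp (mul_comp h1 (pow2_comp (add_comp Computable.fst (Computable.const 2))))
    (pow2_comp Computable.snd)

attribute [irreducible] okB

lemma badB_comp : Computable₂ badB := by
  have h0 : Computable₂ (fun (q : ℕ × List ℕ) (t : ℕ) => okB q.1 t && SB q.1 t q.2) :=
    and_comp (okB_comp.comp (Computable.fst.comp Computable.fst) Computable.snd)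
      (SB_comp3 (Computable.fst.comp Computable.fst) Computable.snd
        (Computable.snd.comp Computable.fst))
  exact anyB_comp h0 (add_comp (len_comp Computable.snd) (Computable.const 1))

attribute [irreducible] badB

lemma Pl_comp : Computable Pl := by
  have h0 : Computable₂ (fun (σ : List ℕ) (e : ℕ) => !(badB e σ)) :=
    not_comp (badB_comp.comp Computable.snd Computable.fst)
  exact allB_comp h0 Computable.list_length

lemma Pl_comp1 {α : Type*} [Primcodable α] {f : α → List ℕ} (hf : Computable f) :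
    Computable (fun a => Pl (f a)) := Pl_comp.comp hf

lemma SB_iff (e t : ℕ) (σ : List ℕ) : SB e t σ = true ↔ ∃ k < t, ∃ ρ : List Bool,
    uev (ℕ × List Bool) t e k = some (e + 2, ρ) ∧ ρ.length ≤ t ∧
      ρ.map Bool.toNat = tk σ ρ.length := by
  unfold SB
  rw [anyB_iff]
  refine exists_congr (fun k => and_congr_right (fun _ => ?_))
  unfold hit
  cases h : uev (ℕ × List Bool) t e k with
  | none => simp
  | some q =>
    obtain ⟨n, ρ⟩ := q
    simp only [Bool.and_eq_true, decide_eq_true_eq, Option.some.injEq, Prod.mk.injEq]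
    constructor
    · rintro ⟨h1, h2, h3⟩
      exact ⟨ρ, ⟨h1, rfl⟩, h2, h3⟩
    · rintro ⟨ρ', ⟨h1, rfl⟩, h2, h3⟩
      exact ⟨h1, h2, h3⟩

lemma SB_pre (e t : ℕ) (Z : ℕ → ℕ) {s : ℕ} (h : t ≤ s) : SB e t (pre Z s) = SB e t (pre Z t) := by
  rw [Bool.eq_iff_iff, SB_iff, SB_iff]
  refine exists_congr (fun k => and_congr_right (fun _ => exists_congr (fun ρ =>
    and_congr_right (fun _ => and_congr_right (fun hρ => ?_)))))
  rw [tk_pre Z (hρ.trans h), tk_pre Z hρ]

lemma SB_mono (e : ℕ) (Z : ℕ → ℕ) {t t' s : ℕ} (h : t ≤ t') (h1 : SB e t (pre Z s) = true) :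
    SB e t' (pre Z s) = true := by
  rw [SB_iff] at h1 ⊢
  obtain ⟨k, hk, ρ, h2, h3, h4⟩ := h1
  exact ⟨k, by omega, ρ, uev_mono _ h h2, by omega, h4⟩

lemma Pl_anti (Z : ℕ → ℕ) {s s' : ℕ} (h : s ≤ s') (h1 : Pl (pre Z s') = true) :
    Pl (pre Z s) = true := by
  unfold Pl at h1 ⊢
  rw [allB_iff] at h1 ⊢
  rw [pre_length] at h1 ⊢
  intro e he
  have h2 := h1 e (by omega)
  rw [Bool.not_eq_true', ← Bool.not_eq_true] at h2 ⊢
  intro h3
  apply h2
  unfold badB at h3 ⊢
  rw [anyB_iff] at h3 ⊢
  obtain ⟨t, ht, h4⟩ := h3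
  simp only [pre_length] at ht ⊢
  rw [Bool.and_eq_true] at h4
  refine ⟨t, by omega, ?_⟩
  rw [Bool.and_eq_true]
  refine ⟨h4.1, ?_⟩
  rw [SB_pre e t Z (by omega)]
  rw [SB_pre e t Z (by omega)] at h4
  exact h4.2

lemma coin_count (t : ℕ) (p : List ℕ → Bool) :
    coin.real {X | p (pre (nb X) t) = true} =
      (sumB (fun c => (p (pre (nb (xc c)) t)).toNat) (2 ^ t) : ℝ) / 2 ^ t :=
  coin_real_count t (fun X => p (pre (nb X) t)) (fun X Y h => by
    show p _ = p _
    rw [pre_congr h])

lemma bad_meas (e t : ℕ) : coin.real {X | badB e (pre (nb X) t) = true} ≤ (1 / 2) ^ (e + 2) := by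
  classical
  by_cases h : ∃ s, s ≤ t ∧ okB e s = true
  · let s := Nat.findGreatest (fun s => okB e s = true) t
    obtain ⟨s0, hs0, hs1⟩ := h
    have hs : okB e s = true := Nat.findGreatest_spec (P := fun s => okB e s = true) hs0 hs1
    have hst : s ≤ t := Nat.findGreatest_le t
    have h1 : {X | badB e (pre (nb X) t) = true} ⊆ {X | SB e s (pre (nb X) s) = true} := by
      intro X hX
      simp only [Set.mem_ofPred_eq] at hX ⊢
      unfold badB at hX
      rw [anyB_iff] at hX
      obtain ⟨u, hu, h2⟩ := hX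
      simp only [pre_length] at hu
      rw [Bool.and_eq_true] at h2
      have hus : u ≤ s := Nat.le_findGreatest (P := fun s => okB e s = true) (by omega) h2.1
      have := SB_mono e (nb X) hus h2.2
      rwa [SB_pre e s (nb X) hst] at this
    refine (measureReal_mono h1).trans ?_
    rw [coin_count s (SB e s)]
    unfold okB at hs
    rw [decide_eq_true_eq] at hs
    have hs' : (sumB (fun c => (SB e s (pre (nb (xc c)) s)).toNat) (2 ^ s) : ℝ) * 2 ^ (e + 2) ≤
        2 ^ s := by exact_mod_cast hs
    rw [div_le_iff₀ (by positivity)]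
    have h4 : (0 : ℝ) < 2 ^ (e + 2) := by positivity
    rw [div_pow, one_pow, div_mul_eq_mul_div, one_mul, le_div_iff₀ h4]
    exact hs'
  · have h1 : {X | badB e (pre (nb X) t) = true} = ∅ := by
      rw [Set.eq_empty_iff_forall_notMem]
      intro X hX
      simp only [Set.mem_ofPred_eq] at hX
      unfold badB at hX
      rw [anyB_iff] at hX
      obtain ⟨u, hu, h2⟩ := hX
      simp only [pre_length] at hu
      rw [Bool.and_eq_true] at h2
      exact h ⟨u, by omega, h2.1⟩
    rw [h1]
    simp

lemma sum_geo (t : ℕ) : ∑ e ∈ Finset.range t, ((1 : ℝ) / 2) ^ (e + 2) ≤ 1 / 2 := by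
  have : ∑ e ∈ Finset.range t, ((1 : ℝ) / 2) ^ (e + 2) = 1 / 2 - (1 / 2) ^ (t + 1) := by
    induction t with
    | zero => norm_num
    | succ t ih => rw [Finset.sum_range_succ, ih]; ring
  rw [this]
  have : (0 : ℝ) < (1 / 2) ^ (t + 1) := by positivity
  linarith

/-- the tree keeps measure at least one half -/
lemma Pl_meas (t : ℕ) : 1 / 2 ≤ coin.real {X | Pl (pre (nb X) t) = true} := by
  have hm : ∀ p : List ℕ → Bool, MeasurableSet {X : ℕ → Bool | p (pre (nb X) t) = true} := by
    intro p
    have h : {X : ℕ → Bool | p (pre (nb X) t) = true} =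
      {X : ℕ → Bool | (fun i : Fin t => X i) ∈
        {x : Fin t → Bool | p (pre (nb (fun j => if h : j < t then x ⟨j, h⟩ else false)) t)
          = true}} := by
      ext X
      simp only [Set.mem_ofPred_eq]
      rw [pre_congr (X := X) (Y := fun j => if h : j < t then X j else false)]
      intro j hj
      simp [hj]
    rw [h]
    exact measurableSet_restrict t _
  have h1 : {X | Pl (pre (nb X) t) = true}ᶜ ⊆ ⋃ e ∈ Finset.range t, {X | badB e (pre (nb X) t) = true} := by
    intro X hX
    simp only [Set.mem_compl_iff, Set.mem_ofPred_eq] at hX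
    unfold Pl at hX
    rw [allB_iff] at hX
    push Not at hX
    obtain ⟨e, he, h2⟩ := hX
    simp only [pre_length] at he
    simp only [Set.mem_iUnion, Finset.mem_range, Set.mem_ofPred_eq]
    exact ⟨e, he, by simpa using h2⟩
  have h2 : coin.real {X | Pl (pre (nb X) t) = true}ᶜ ≤ 1 / 2 := by
    refine (measureReal_mono h1 (measure_ne_top _ _)).trans
      ((measureReal_biUnion_finset_le _ _).trans ?_)
    exact (Finset.sum_le_sum (fun e _ => bad_meas e t)).trans (sum_geo t)
  have h3 := measureReal_compl (μ := coin) (hm Pl)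
  have h4 : coin.real Set.univ = 1 := by simp
  rw [h4] at h3
  linarith

/-- randomness in the format of the frozen statement -/
def FR (A : ℕ → Bool) : Prop :=
  ∀ f : ℕ → Option (ℕ × List Bool), Computable f →
      (∀ n L : ℕ, {τ : Fin L → Bool | ∃ k : ℕ, ∃ σ : List Bool,
          f k = some (n, σ) ∧ List.IsPrefix σ (List.ofFn τ)}.ncard * 2 ^ n ≤ 2 ^ L) →
      ∃ n : ℕ, ∀ k : ℕ, ∀ σ : List Bool, f k = some (n, σ) →
        List.ofFn (fun i : Fin σ.length => A i.val) ≠ σ

lemma map_toNat_iff {ρ : List Bool} {X : ℕ → Bool} :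
    ρ.map Bool.toNat = pre (nb X) ρ.length ↔ ∀ i (h : i < ρ.length), ρ[i] = X i := by
  constructor
  · intro h i hi
    have h1 : (ρ.map Bool.toNat)[i]? = (pre (nb X) ρ.length)[i]? := by rw [h]
    rw [pre_getElem?, if_pos hi] at h1
    simp only [List.getElem?_map, List.getElem?_eq_getElem hi, Option.map_some,
      Option.some.injEq] at h1
    unfold nb at h1
    revert h1
    cases ρ[i] <;> cases X i <;> simp
  · intro h
    apply List.ext_getElem
    · simp
    · intro i h1 h2
      simp only [List.length_map] at h1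
      simp [pre, nb, h i h1]

lemma FR_of_Pl {Z : ℕ → Bool} (h : ∀ t, Pl (pre (nb Z) t) = true) : FR Z := by
  classical
  intro f hf hT
  obtain ⟨e, he⟩ := exists_index hf
  refine ⟨e + 2, fun k σ hk heq => ?_⟩
  have hσ : σ.map Bool.toNat = pre (nb Z) σ.length := by
    rw [map_toNat_iff]
    intro i hi
    have : σ[i] = (List.ofFn (fun i : Fin σ.length => Z i.val))[i]'(by simpa using hi) := by
      simp only [heq]
    rw [this]
    simp
  obtain ⟨s0, hs0⟩ := (he k (e + 2, σ)).1 hk
  rw [show Encodable.encode k = k from rfl] at hs0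
  let t := max s0 (max (k + 1) (max σ.length (e + 1)))
  have ht1 : s0 ≤ t := le_max_left _ _
  have ht2 : k + 1 ≤ t := (le_max_left _ _).trans (le_max_right _ _)
  have ht3 : σ.length ≤ t := (le_max_left _ _).trans ((le_max_right _ _).trans (le_max_right _ _))
  have ht4 : e + 1 ≤ t := (le_max_right _ _).trans ((le_max_right _ _).trans (le_max_right _ _))
  have hSB : SB e t (pre (nb Z) t) = true := by
    rw [SB_iff]
    refine ⟨k, by omega, σ, uev_mono _ ht1 hs0, ht3, ?_⟩
    rw [tk_pre _ ht3, hσ]
  have hok : okB e t = true := by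
    unfold okB
    rw [decide_eq_true_eq]
    refine le_trans (Nat.mul_le_mul_right _ ?_) (hT (e + 2) t)
    rw [sumB_eq]
    have h1 : ∑ c ∈ Finset.range (2 ^ t), (SB e t (pre (nb (xc c)) t)).toNat =
        ((Finset.range (2 ^ t)).filter (fun c => SB e t (pre (nb (xc c)) t) = true)).card := by
      rw [Finset.card_filter]
      apply Finset.sum_congr rfl
      intro c _
      cases SB e t (pre (nb (xc c)) t) <;> simp
    rw [h1, ← Set.ncard_coe_finset]
    refine Set.ncard_le_ncard_of_injOn (fun c (j : Fin t) => xc c j) ?_ ?_ (Set.toFinite _)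
    · intro c hc
      simp only [Finset.coe_filter, Finset.mem_range, Set.mem_ofPred_eq] at hc
      obtain ⟨k', hk', ρ, h2, h3, h4⟩ := (SB_iff _ _ _).1 hc.2
      rw [tk_pre _ h3, map_toNat_iff] at h4
      refine ⟨k', ρ, (he k' (e + 2, ρ)).2 ⟨t, h2⟩, ?_⟩
      rw [List.prefix_iff_eq_take]
      apply List.ext_getElem
      · simp [h3]
      · intro i h5 h6
        rw [h4 i h5]
        simp
    · intro c hc c' hc' hcc
      simp only [Finset.coe_filter, Finset.mem_range, Set.mem_ofPred_eq] at hc hc'
      exact xc_inj hc.1 hc'.1 (fun j hj => congrFun hcc ⟨j, hj⟩)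
  have hbad : badB e (pre (nb Z) t) = true := by
    unfold badB
    rw [anyB_iff]
    refine ⟨t, by simp, ?_⟩
    rw [hok, hSB]; rfl
  have h2 := h t
  unfold Pl at h2
  rw [allB_iff] at h2
  have h3 := h2 e (by rw [pre_length]; omega)
  rw [hbad] at h3
  simp at h3

attribute [irreducible] Pl

end Pool.Agent.H572R3
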