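import Mathlib
import Pool.Agent.H572R3.U3

set_option autoImplicit false

/-! The quantile lemma. -/

namespace Pool.Agent.H572R3

open MeasureTheory Pool.Agent.Helper743

/-- most significant first value of the first `t` bits -/
def NZ (Z : ℕ → Bool) : ℕ → ℕ
  | 0 => 0
  | t + 1 => 2 * NZ Z t + (Z t).toNat

lemma NZ_lt (Z : ℕ → Bool) (t : ℕ) : NZ Z t < 2 ^ t := by
  induction t with
  | zero => simp [NZ]
  | succ t ih =>
    rw [NZ, pow_succ]
    have : (Z t).toNat ≤ 1 := Bool.toNat_le (Z t)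
    omega

lemma NZ_le {Y Z : ℕ → Bool} {t t' : ℕ} (h : t ≤ t') (h1 : NZ Y t' ≤ NZ Z t') : NZ Y t ≤ NZ Z t := by
  induction t', h using Nat.le_induction with
  | base => exact h1
  | succ t' _ ih =>
    apply ih
    rw [NZ, NZ] at h1
    have : (Z t').toNat ≤ 1 := Bool.toNat_le (Z t')
    omega

lemma NZ_inj {Y Z : ℕ → Bool} {t : ℕ} : NZ Y t = NZ Z t ↔ ∀ j < t, Y j = Z j := by
  induction t with
  | zero => simp [NZ]
  | succ t ih =>
    rw [NZ, NZ]
    have h1 : (Z t).toNat ≤ 1 := Bool.toNat_le (Z t)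
    have h2 : (Y t).toNat ≤ 1 := Bool.toNat_le (Y t)
    constructor
    · intro h j hj
      have h3 : NZ Y t = NZ Z t := by omega
      have h4 : (Y t).toNat = (Z t).toNat := by omega
      by_cases hjt : j = t
      · subst hjt
        revert h4
        cases Y j <;> cases Z j <;> simp
      · exact (ih.1 h3) j (by omega)
    · intro h
      rw [ih.2 (fun j hj => h j (by omega)), h t (by omega)]

lemma pre_eq_iff {Y Z : ℕ → Bool} {t : ℕ} : pre (nb Y) t = pre (nb Z) t ↔ ∀ j < t, Y j = Z j := by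
  constructor
  · intro h j hj
    have h1 : (pre (nb Y) t)[j]? = (pre (nb Z) t)[j]? := by rw [h]
    rw [pre_getElem?, pre_getElem?, if_pos hj, if_pos hj] at h1
    simp only [Option.some.injEq] at h1
    unfold nb at h1
    revert h1
    cases Y j <;> cases Z j <;> simp
  · exact fun h => pre_congr h

lemma meas_fin (t : ℕ) (P : (ℕ → Bool) → Prop)
    (hP : ∀ X Y : ℕ → Bool, (∀ j < t, X j = Y j) → (P X ↔ P Y)) : MeasurableSet {X | P X} := by
  have h : {X : ℕ → Bool | P X} =
    {X : ℕ → Bool | (fun i : Fin t => X i) ∈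
      {x : Fin t → Bool | P (fun j => if h : j < t then x ⟨j, h⟩ else false)}} := by
    ext X
    simp only [Set.mem_ofPred_eq]
    apply hP
    intro j hj
    simp [hj]
  rw [h]
  exact measurableSet_restrict t _

lemma coin_cyl (t : ℕ) (Z : ℕ → Bool) : coin.real {Y | NZ Y t = NZ Z t} = (1 / 2) ^ t := by
  classical
  have h := coin_ncard t {fun i : Fin t => Z i}
  have h1 : {Y | NZ Y t = NZ Z t} = {X : ℕ → Bool | (fun i : Fin t => X i) ∈
      ({fun i : Fin t => Z i} : Set (Fin t → Bool))} := by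
    ext Y
    simp only [Set.mem_ofPred_eq, Set.mem_singleton_iff]
    rw [NZ_inj]
    constructor
    · intro h; funext i; exact h i i.2
    · intro h j hj; exact congrFun h ⟨j, hj⟩
  rw [h1, Measure.real, h]
  simp

variable (QS : ℕ → Set (ℕ → Bool))

noncomputable def FF (t : ℕ) (Z : ℕ → Bool) : ℝ := coin.real (QS t ∩ {Y | NZ Y t ≤ NZ Z t})

variable {QS}

lemma FF_congr {t : ℕ} {Y Z : ℕ → Bool} (h : ∀ j < t, Y j = Z j) : FF QS t Y = FF QS t Z := by
  unfold FF
  rw [NZ_inj.2 h]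

lemma FF_anti {T : ℕ} (hanti : ∀ t t', T ≤ t → t ≤ t' → QS t' ⊆ QS t) {t t' : ℕ} (h : T ≤ t)
    (h' : t ≤ t') (Z : ℕ → Bool) : FF QS t' Z ≤ FF QS t Z := by
  refine measureReal_mono ?_
  intro Y hY
  exact ⟨hanti t t' h h' hY.1, NZ_le h' hY.2⟩

lemma quant_up {c : ℝ} (hc : 0 < c) (t : ℕ) : coin.real (QS t ∩ {Z | FF QS t Z < c}) < c := by
  by_cases hne : {Z | FF QS t Z < c}.Nonempty
  · let S : Set ℕ := {n | ∃ Z, FF QS t Z < c ∧ NZ Z t = n}
    have hS1 : S.Nonempty := by
      obtain ⟨Z, hZ⟩ := hne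
      exact ⟨_, Z, hZ, rfl⟩
    have hS2 : BddAbove S := by
      refine ⟨2 ^ t, ?_⟩
      rintro n ⟨Z, _, rfl⟩
      exact (NZ_lt Z t).le
    obtain ⟨Z, hZ, hZ2⟩ := Nat.sSup_mem hS1 hS2
    refine lt_of_le_of_lt (measureReal_mono ?_) hZ
    intro Y hY
    refine ⟨hY.1, ?_⟩
    simp only [Set.mem_ofPred_eq]
    rw [hZ2]
    exact le_csSup hS2 ⟨Y, hY.2, rfl⟩
  · rw [Set.not_nonempty_iff_eq_empty.1 hne]
    simpa using hc

lemma quant_low {c : ℝ} (hc : 0 < c) {t : ℕ} (hbig : 2 * c ≤ coin.real (QS t)) :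
    c - (1 / 2) ^ t ≤ coin.real (QS t ∩ {Z | FF QS t Z < c}) := by
  have hne : ∃ Z, ¬ FF QS t Z < c := by
    by_contra h
    push Not at h
    have h1 : {Z | FF QS t Z < c} = Set.univ := by
      ext Z; simp [h Z]
    have h2 := quant_up (QS := QS) hc t
    rw [h1, Set.inter_univ] at h2
    linarith
  let S : Set ℕ := {n | ∃ Z, ¬ FF QS t Z < c ∧ NZ Z t = n}
  have hS1 : S.Nonempty := by
    obtain ⟨Z, hZ⟩ := hne
    exact ⟨_, Z, hZ, rfl⟩
  obtain ⟨Z, hZ, hZ2⟩ := Nat.sInf_mem hS1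
  have h1 : QS t ∩ {Y | NZ Y t ≤ NZ Z t} ⊆
      (QS t ∩ {Z | FF QS t Z < c}) ∪ {Y | NZ Y t = NZ Z t} := by
    intro Y hY
    by_cases h : NZ Y t = NZ Z t
    · exact Or.inr h
    · left
      refine ⟨hY.1, ?_⟩
      by_contra h2
      have h3 : sInf S ≤ NZ Y t := Nat.sInf_le ⟨Y, h2, rfl⟩
      rw [← hZ2] at h3
      have := hY.2
      simp only [Set.mem_ofPred_eq] at this
      omega
  have h2 : FF QS t Z ≤ coin.real (QS t ∩ {Z | FF QS t Z < c}) + (1 / 2) ^ t := by
    rw [← coin_cyl t Z]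
    exact (measureReal_mono h1).trans (measureReal_union_le _ _)
  have h3 := not_lt.1 hZ
  linarith

/-- the quantile lemma -/
theorem quantile {T : ℕ} {c : ℝ} (hm : ∀ t, MeasurableSet (QS t))
    (hanti : ∀ t t', T ≤ t → t ≤ t' → QS t' ⊆ QS t) (hc : 0 < c)
    (hbig : ∀ t, T ≤ t → 2 * c ≤ coin.real (QS t)) (b : ℕ) (hb : T ≤ b) :
    ∃ e, b < e ∧ ∃ Z0 : ℕ → Bool,
      0 < coin.real ((⋂ t, QS (T + t)) ∩ {Z | pre (nb Z) e = pre (nb Z0) e}) ∧
      FF QS e Z0 < c ∧ c ≤ FF QS (e - 1) Z0 := by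
  classical
  set Q : Set (ℕ → Bool) := ⋂ t, QS (T + t) with hQ
  let C : ℕ → Set (ℕ → Bool) := fun t => {Z | FF QS t Z < c}
  have hQm : MeasurableSet Q := MeasurableSet.iInter (fun t => hm _)
  have hCm : ∀ t, MeasurableSet (C t) := fun t =>
    meas_fin t (fun Z => FF QS t Z < c) (fun X Y h => by rw [FF_congr h])
  have hQsub : ∀ t, T ≤ t → Q ⊆ QS t := by
    intro t ht Z hZ
    have := Set.mem_iInter.1 hZ (t - T)
    rwa [show T + (t - T) = t by omega] at this
  have hlim : Filter.Tendsto (fun t => coin.real (QS (T + t))) Filter.atTop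
      (nhds (coin.real Q)) := by
    have h1 : Filter.Tendsto (fun t => coin (QS (T + t))) Filter.atTop (nhds (coin Q)) :=
      tendsto_measure_iInter_atTop (fun t => (hm _).nullMeasurableSet)
        (fun t t' h => hanti _ _ (by omega) (by omega)) ⟨0, measure_ne_top _ _⟩
    exact (ENNReal.tendsto_toReal (measure_ne_top _ _)).comp h1
  by_contra hcon
  push Not at hcon
  -- all differences are null
  have hnull : ∀ e, b < e → coin.real (Q ∩ (C e \ C (e - 1))) = 0 := by
    intro e he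
    by_contra hne
    have hsub : Q ∩ (C e \ C (e - 1)) ⊆ ⋃ k ∈ Finset.range (2 ^ e),
        (Q ∩ (C e \ C (e - 1))) ∩ {Z | pre (nb Z) e = pre (nb (xc k)) e} := by
      intro Z hZ
      obtain ⟨k, hk, hkZ⟩ := exists_xc Z e
      simp only [Set.mem_iUnion, Finset.mem_range]
      exact ⟨k, hk, hZ, pre_eq_iff.2 (fun j hj => (hkZ j hj).symm)⟩
    have hex : ∃ k, 0 < coin.real ((Q ∩ (C e \ C (e - 1))) ∩
        {Z | pre (nb Z) e = pre (nb (xc k)) e}) := by
      by_contra hall
      push Not at hall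
      apply hne
      apply le_antisymm _ measureReal_nonneg
      refine (measureReal_mono hsub (measure_ne_top _ _)).trans
        ((measureReal_biUnion_finset_le _ _).trans ?_)
      exact Finset.sum_nonpos (fun k _ => hall k)
    obtain ⟨k, hk⟩ := hex
    have hne2 : ((Q ∩ (C e \ C (e - 1))) ∩ {Z | pre (nb Z) e = pre (nb (xc k)) e}).Nonempty := by
      by_contra h
      rw [Set.not_nonempty_iff_eq_empty.1 h] at hk
      simp at hk
    obtain ⟨Z, ⟨hZQ, hZ1, hZ2⟩, hZ3⟩ := hne2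
    have h4 := pre_eq_iff.1 hZ3
    have h5 : FF QS e (xc k) < c := by
      rw [← FF_congr (QS := QS) h4]; exact hZ1
    have h6 : 0 < coin.real (Q ∩ {Z | pre (nb Z) e = pre (nb (xc k)) e}) := by
      refine lt_of_lt_of_le hk (measureReal_mono ?_)
      intro Y hY
      exact ⟨hY.1.1, hY.2⟩
    have h7 := hcon e he (xc k) h6 h5
    rw [← FF_congr (QS := QS) (t := e - 1) (fun j hj => h4 j (by omega))] at h7
    exact hZ2 h7
  have hle : ∀ n, coin.real (Q ∩ C (b + n)) ≤ coin.real (Q ∩ C b) := by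
    intro n
    induction n with
    | zero => simp
    | succ n ih =>
      have h1 : Q ∩ C (b + (n + 1)) ⊆ (Q ∩ C (b + n)) ∪ (Q ∩ (C (b + (n + 1)) \ C (b + (n + 1) - 1))) := by
        intro Z hZ
        by_cases h : Z ∈ C (b + n)
        · exact Or.inl ⟨hZ.1, h⟩
        · right
          refine ⟨hZ.1, hZ.2, ?_⟩
          rwa [show b + (n + 1) - 1 = b + n by omega]
      refine (measureReal_mono h1).trans ((measureReal_union_le _ _).trans ?_)
      rw [hnull _ (by omega), add_zero]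
      exact ih
  have hb1 : coin.real (Q ∩ C b) < c :=
    lt_of_le_of_lt (measureReal_mono (Set.inter_subset_inter_left _ (hQsub b hb))) (quant_up hc b)
  have hlow : ∀ t, b ≤ T + t → c - (1 / 2) ^ (T + t) - (coin.real (QS (T + t)) - coin.real Q) ≤
      coin.real (Q ∩ C b) := by
    intro t ht
    have h1 := quant_low (QS := QS) hc (hbig (T + t) (by omega))
    have h2 := hle (T + t - b)
    rw [show b + (T + t - b) = T + t by omega] at h2
    have h3 : coin.real (QS (T + t) ∩ C (T + t)) ≤ coin.real (Q ∩ C (T + t)) +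
        coin.real (QS (T + t) \ Q) := by
      refine (measureReal_mono ?_).trans (measureReal_union_le _ _)
      intro Z hZ
      by_cases h : Z ∈ Q
      · exact Or.inl ⟨h, hZ.2⟩
      · exact Or.inr ⟨hZ.1, h⟩
    have h4 : coin.real (QS (T + t) \ Q) = coin.real (QS (T + t)) - coin.real Q := by
      rw [measureReal_diff (hQsub _ (by omega)) hQm]
    rw [h4] at h3
    have h5 : coin.real (QS (T + t) ∩ {Z | FF QS (T + t) Z < c}) =
      coin.real (QS (T + t) ∩ C (T + t)) := rfl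
    rw [h5] at h1
    linarith
  have hlim2 : Filter.Tendsto (fun t => c - (1 / 2) ^ (T + t) -
      (coin.real (QS (T + t)) - coin.real Q)) Filter.atTop (nhds (c - 0 - (coin.real Q - coin.real Q))) := by
    refine Filter.Tendsto.sub (Filter.Tendsto.sub tendsto_const_nhds ?_)
      (hlim.sub tendsto_const_nhds)
    have h1 : Filter.Tendsto (fun n : ℕ => ((1 : ℝ) / 2) ^ n) Filter.atTop (nhds 0) :=
      tendsto_pow_atTop_nhds_zero_of_lt_one (by norm_num) (by norm_num)
    exact h1.comp (Filter.tendsto_add_atTop_iff_nat T |>.2 Filter.tendsto_id |>.congr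
      (fun n => by simp [add_comm]))
  have hfin : c - 0 - (coin.real Q - coin.real Q) ≤ coin.real (Q ∩ C b) := by
    apply le_of_tendsto hlim2
    filter_upwards [Filter.eventually_ge_atTop b] with t ht
    exact hlow t (by omega)
  linarith

end Pool.Agent.H572R3
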