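import Mathlib
import Pool.Agent.H572R3.Quant

set_option autoImplicit false

/-! Contexts with guessed requirements. -/

namespace Pool.Agent.H572R3

open MeasureTheory Pool.Agent.Helper743

/-- least `k < n` with `p k`, or `n` -/
def fnd (p : ℕ → Bool) : ℕ → ℕ
  | 0 => 0
  | n + 1 => bif decide (fnd p n < n) then fnd p n else (bif p n then n else n + 1)

lemma fnd_spec (p : ℕ → Bool) (n : ℕ) :
    (fnd p n < n ∧ p (fnd p n) = true ∧ ∀ k < fnd p n, p k = false) ∨
      (fnd p n = n ∧ ∀ k < n, p k = false) := by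
  induction n with
  | zero => right; exact ⟨rfl, fun k hk => by omega⟩
  | succ n ih =>
    rcases ih with ⟨h1, h2, h3⟩ | ⟨h1, h2⟩
    · left
      have : fnd p (n + 1) = fnd p n := by rw [fnd]; simp [h1]
      rw [this]
      exact ⟨by omega, h2, h3⟩
    · cases hp : p n with
      | true =>
        left
        have : fnd p (n + 1) = n := by rw [fnd]; simp [h1, hp]
        rw [this]
        exact ⟨by omega, hp, h2⟩
      | false =>
        right
        have : fnd p (n + 1) = n + 1 := by rw [fnd]; simp [h1, hp]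
        rw [this]
        refine ⟨rfl, fun k hk => ?_⟩
        by_cases h : k = n
        · rw [h]; exact hp
        · exact h2 k (by omega)

lemma fnd_eq {p : ℕ → Bool} {n k : ℕ} (hk : k < n) (h1 : p k = true) (h2 : ∀ j < k, p j = false) :
    fnd p n = k := by
  rcases fnd_spec p n with ⟨h3, h4, h5⟩ | ⟨h3, h4⟩
  · rcases lt_trichotomy (fnd p n) k with h | h | h
    · rw [h2 _ h] at h4; simp at h4
    · exact h
    · rw [h5 _ h] at h1; simp at h1
  · rw [h4 k hk] at h1; simp at h1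

lemma fnd_none {p : ℕ → Bool} {n : ℕ} (h : ∀ j < n, p j = false) : fnd p n = n := by
  rcases fnd_spec p n with ⟨h3, h4, h5⟩ | ⟨h3, h4⟩
  · rw [h _ h3] at h4; simp at h4
  · exact h3

/-- number of a string -/
def NN (σ : List ℕ) : ℕ → ℕ
  | 0 => 0
  | t + 1 => 2 * NN σ t + σ.getD t 0

lemma NN_pre (Z : ℕ → Bool) {t s : ℕ} (h : t ≤ s) : NN (pre (nb Z) s) t = NZ Z t := by
  induction t with
  | zero => rfl
  | succ t ih =>
    rw [NN, NZ, ih (by omega)]
    congr 1
    simp [List.getD, pre, show t < s by omega, nb]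

section ctx

variable (a : ℕ → ℕ → ℕ)

def Rb (xs σ : List ℕ) : Bool :=
  allB (fun k => !(decide (W k (σ, xs.getD k 0) = some (a (xs.getD k 0) σ.length)))) xs.length

def Qb (xs τ σ : List ℕ) : Bool := Pl σ && (decide (tk σ τ.length = τ) && Rb a xs σ)

def cQ (xs τ : List ℕ) (t : ℕ) : ℕ := sumB (fun c => (Qb a xs τ (pre (nb (xc c)) t)).toNat) (2 ^ t)

def gp (xs τ : List ℕ) (t : ℕ) : ℕ :=
  fnd (fun p => decide (2 ^ t ≤ cQ a (xs ++ [p.unpair.1]) τ t * 2 ^ p.unpair.2)) t

def stp (σ : List ℕ) (st : List ℕ × (ℕ × ℕ)) (e : ℕ) : List ℕ × (ℕ × ℕ) :=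
  (st.1 ++ [(gp a st.1 (tk σ e) σ.length).unpair.1],
    ((gp a st.1 (tk σ e) σ.length).unpair.2, e))

def gk (es σ : List ℕ) : ℕ → List ℕ × (ℕ × ℕ)
  | 0 => ([], (1, 0))
  | k + 1 => stp a σ (gk es σ k) (es.getD k 0)

def cC (xs τ σ : List ℕ) : ℕ :=
  sumB (fun c => (Qb a xs τ (pre (nb (xc c)) σ.length) &&
    decide (NN (pre (nb (xc c)) σ.length) σ.length ≤ NN σ σ.length)).toNat) (2 ^ σ.length)

def Cu (es σ : List ℕ) : Bool :=
  decide (cC a (gk a es σ es.length).1 (tk σ (gk a es σ es.length).2.2) σ *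
    2 ^ ((gk a es σ es.length).2.1 + 1) < 2 ^ σ.length)

def en (es σ : List ℕ) : ℕ :=
  fnd (fun e => decide ((gk a es σ es.length).2.2 < e) &&
    allB (fun t => decide (t < e) || Cu a es (tk σ t)) (σ.length + 1)) (σ.length + 1)

def dl (σ : List ℕ) : ℕ → Option (List ℕ)
  | 0 => some []
  | k + 1 => (dl σ k).bind (fun es =>
      bif decide (en a es σ ≤ σ.length) then some (es ++ [en a es σ]) else none)

variable (A' : ℕ → ℕ)

/-- the `i`-th level is reached and settled from `T` on -/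
structure Lev (es : List ℕ) (Z0 : ℕ → Bool) (L : ℕ) (xs : List ℕ) (r T : ℕ) : Prop where
  l1 : xs.length = es.length
  l2 : L ≤ T
  l3 : ∀ Z, pre (nb Z) L = pre (nb Z0) L → ∀ t, T ≤ t →
    gk a es (pre (nb Z) t) es.length = (xs, (r, L))
  l4 : ∀ k < xs.length, ∀ t, T ≤ t → a (xs.getD k 0) t = A' (xs.getD k 0)
  l5 : ∀ t, T ≤ t → 2 ^ t ≤ cQ a xs (pre (nb Z0) L) t * 2 ^ r
  l6 : ∀ Z, pre (nb Z) L = pre (nb Z0) L → ∀ s, L ≤ s → dl a (pre (nb Z) s) es.length = some es

variable {a A'}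

lemma cQ_meas (xs τ : List ℕ) (t : ℕ) : coin.real {Z | Qb a xs τ (pre (nb Z) t) = true} =
    (cQ a xs τ t : ℝ) / 2 ^ t := coin_count t (Qb a xs τ)

lemma Lev_zero (Z0 : ℕ → Bool) : Lev a A' [] Z0 0 [] 1 0 := by
  refine ⟨rfl, le_refl _, fun _ _ _ _ => rfl, fun k hk => by simp at hk, ?_, fun _ _ _ _ => rfl⟩
  intro t _
  have h1 : ∀ σ, Qb a [] (pre (nb Z0) 0) σ = Pl σ := by
    intro σ
    have e1 : Rb a [] σ = true := by
      unfold Rb; rw [allB_iff]; intro k hk; simp at hk
    unfold Qb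
    rw [e1]
    simp [pre, List.eq_nil_iff_length_eq_zero]
  have h2 := Pl_meas t
  have h3 := cQ_meas (a := a) [] (pre (nb Z0) 0) t
  simp only [h1] at h3
  rw [h3, le_div_iff₀ (by positivity)] at h2
  have h4 : (2 : ℝ) ^ t ≤ (cQ a [] (pre (nb Z0) 0) t : ℝ) * 2 ^ 1 := by linarith
  exact_mod_cast h4

lemma Rb_anti {xs : List ℕ} {T : ℕ} (h : ∀ k < xs.length, ∀ t, T ≤ t →
    a (xs.getD k 0) t = A' (xs.getD k 0)) {t t' : ℕ} (ht : T ≤ t) (htt : t ≤ t') (Z : ℕ → Bool)
    (h1 : Rb a xs (pre (nb Z) t') = true) : Rb a xs (pre (nb Z) t) = true := by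
  unfold Rb at h1 ⊢
  rw [allB_iff] at h1 ⊢
  intro k hk
  have h2 := h1 k hk
  simp only [pre_length, Bool.not_eq_true', decide_eq_false_iff_not] at h2 ⊢
  rw [h k hk t' (by omega)] at h2
  rw [h k hk t ht]
  exact fun h3 => h2 (W_mono k _ htt h3)

lemma Qb_anti {xs τ : List ℕ} {T : ℕ} (h : ∀ k < xs.length, ∀ t, T ≤ t →
    a (xs.getD k 0) t = A' (xs.getD k 0)) (hτ : τ.length ≤ T) {t t' : ℕ} (ht : T ≤ t)
    (htt : t ≤ t') (Z : ℕ → Bool) (h1 : Qb a xs τ (pre (nb Z) t') = true) :
    Qb a xs τ (pre (nb Z) t) = true := by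
  unfold Qb at h1 ⊢
  simp only [Bool.and_eq_true, decide_eq_true_eq] at h1 ⊢
  refine ⟨Pl_anti _ htt h1.1, ?_, Rb_anti h ht htt Z h1.2.2⟩
  rw [tk_pre _ (by omega)]
  rw [tk_pre _ (by omega)] at h1
  exact h1.2.1

lemma cC_meas (xs τ : List ℕ) (t : ℕ) (Z : ℕ → Bool) :
    FF (fun t => {Z | Qb a xs τ (pre (nb Z) t) = true}) t Z =
      (cC a xs τ (pre (nb Z) t) : ℝ) / 2 ^ t := by
  unfold FF cC
  rw [pre_length]
  rw [← coin_count t (fun σ => Qb a xs τ σ && decide (NN σ t ≤ NN (pre (nb Z) t) t))]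
  congr 1
  ext Y
  simp only [Set.mem_inter_iff, Set.mem_ofPred_eq, Bool.and_eq_true, decide_eq_true_eq]
  rw [NN_pre Y le_rfl, NN_pre Z le_rfl]

lemma half_pow_mul (c r t : ℕ) : (c : ℝ) / 2 ^ t < (1 / 2) ^ (r + 1) ↔ c * 2 ^ (r + 1) < 2 ^ t := by
  rw [div_pow, one_pow, div_lt_div_iff₀ (by positivity) (by positivity), one_mul]
  exact_mod_cast Iff.rfl

lemma half_pow_mul' (c r t : ℕ) : (1 / 2 : ℝ) ^ r ≤ (c : ℝ) / 2 ^ t ↔ 2 ^ t ≤ c * 2 ^ r := by
  rw [div_pow, one_pow, div_le_div_iff₀ (by positivity) (by positivity), one_mul]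
  exact_mod_cast Iff.rfl

/-- Sacks: a positive class is not contained in the computations of a noncomputable set -/
lemma sacks {A' : ℕ → ℕ} (hA : ¬ Computable A') {ev : List ℕ × ℕ → Option ℕ} (hev : Computable ev)
    (hmono : ∀ (Z : ℕ → Bool) (s s' x y : ℕ), s ≤ s' → ev (pre (nb Z) s, x) = some y →
      ev (pre (nb Z) s', x) = some y) {Qf : List ℕ → Bool} (hQf : Computable Qf)
    {T : ℕ} (hanti : ∀ t t', T ≤ t → t ≤ t' → ∀ Z : ℕ → Bool, Qf (pre (nb Z) t') = true →
      Qf (pre (nb Z) t) = true)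
    (hpos : 0 < coin.real {Z : ℕ → Bool | ∀ t, T ≤ t → Qf (pre (nb Z) t) = true}) :
    ∃ x, 0 < coin.real {Z : ℕ → Bool | (∀ t, T ≤ t → Qf (pre (nb Z) t) = true) ∧
      ∀ t, ev (pre (nb Z) t, x) ≠ some (A' x)} := by
  by_contra hcon
  push Not at hcon
  apply hA
  have hmf : ∀ t (p : List ℕ → Bool), MeasurableSet {Z : ℕ → Bool | p (pre (nb Z) t) = true} :=
    fun t p => meas_fin t (fun Z => p (pre (nb Z) t) = true) (fun X Y h => by rw [pre_congr h])
  set Q : Set (ℕ → Bool) := {Z : ℕ → Bool | ∀ t, T ≤ t → Qf (pre (nb Z) t) = true} with hQ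
  have hQe : Q = ⋂ t, {Z : ℕ → Bool | Qf (pre (nb Z) (T + t)) = true} := by
    ext Z
    simp only [hQ, Set.mem_ofPred_eq, Set.mem_iInter]
    constructor
    · intro h t; exact h _ (by omega)
    · intro h t ht
      have := h (t - T)
      rwa [show T + (t - T) = t by omega] at this
  have hQm : MeasurableSet Q := by
    rw [hQe]; exact MeasurableSet.iInter (fun t => hmf _ _)
  have hlim : Filter.Tendsto (fun t => coin.real {Z : ℕ → Bool | Qf (pre (nb Z) (T + t)) = true})
      Filter.atTop (nhds (coin.real Q)) := by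
    have h1 : Filter.Tendsto (fun t => coin {Z : ℕ → Bool | Qf (pre (nb Z) (T + t)) = true})
        Filter.atTop (nhds (coin Q)) := by
      rw [hQe]
      exact tendsto_measure_iInter_atTop (fun t => (hmf _ _).nullMeasurableSet)
        (fun t t' h Z hZ => hanti _ _ (by omega) (by omega) Z hZ) ⟨0, measure_ne_top _ _⟩
    exact (ENNReal.tendsto_toReal (measure_ne_top _ _)).comp h1
  obtain ⟨u, hu⟩ := (hlim.eventually (gt_mem_nhds (show coin.real Q < 3 / 2 * coin.real Q by
    linarith))).exists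
  let s0 := T + u
  let C : Set (ℕ → Bool) := {Z | Qf (pre (nb Z) s0) = true}
  have hC : coin.real C < 3 / 2 * coin.real Q := hu
  have hQC : Q ⊆ C := fun Z hZ => hZ s0 (by omega)
  have hCd : coin.real (C \ Q) = coin.real C - coin.real Q := measureReal_sdiff hQC hQm
  let p1 : ℕ → List ℕ → Bool := fun x σ => Qf (tk σ s0) && decide (ev (σ, x) = some (A' x))
  let f : ℕ → ℕ → Option ℕ := fun x k =>
    bif (decide (s0 ≤ k.unpair.1) && decide (sumB (fun c => (Qf (tk (pre (nb (xc c)) k.unpair.1) s0)).toNat)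
        (2 ^ k.unpair.1) < 2 * sumB (fun c => (Qf (tk (pre (nb (xc c)) k.unpair.1) s0) &&
        decide (ev (pre (nb (xc c)) k.unpair.1, x) = some k.unpair.2)).toNat) (2 ^ k.unpair.1)))
      then some k.unpair.2 else none
  have hf : Computable₂ f := by
    have d1 : Computable (fun z : ℕ × ℕ => z.2.unpair.1) :=
      (Primrec.fst.comp (Primrec.unpair.comp Primrec.snd)).to_comp
    have d2 : Computable (fun z : ℕ × ℕ => z.2.unpair.2) :=
      (Primrec.snd.comp (Primrec.unpair.comp Primrec.snd)).to_comp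
    have e1 : Computable₂ (fun (z : ℕ × ℕ) (c : ℕ) =>
        (Qf (tk (pre (nb (xc c)) z.2.unpair.1) s0)).toNat) :=
      toNat_comp (hQf.comp (tk_comp (prexc_comp Computable.snd (d1.comp Computable.fst))
        (Computable.const s0)))
    have e2 : Computable₂ (fun (z : ℕ × ℕ) (c : ℕ) =>
        (Qf (tk (pre (nb (xc c)) z.2.unpair.1) s0) &&
        decide (ev (pre (nb (xc c)) z.2.unpair.1, z.1) = some z.2.unpair.2)).toNat) := by
      refine toNat_comp (and_comp (hQf.comp (tk_comp (prexc_comp Computable.snd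
        (d1.comp Computable.fst)) (Computable.const s0))) ?_)
      exact Primrec.eq.decide.to_comp.comp (hev.comp ((prexc_comp Computable.snd
        (d1.comp Computable.fst)).pair (Computable.fst.comp Computable.fst)))
        (Computable.option_some.comp (d2.comp Computable.fst))
    refine Computable.cond (and_comp (le_comp (Computable.const s0) d1) (lt_comp
      (sumB_comp e1 (pow2_comp d1)) (mul_comp (Computable.const 2) (sumB_comp e2 (pow2_comp d1)))))
      (Computable.option_some.comp d2) (Computable.const none)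
  have hCs : ∀ s, s0 ≤ s → coin.real C =
      (sumB (fun c => (Qf (tk (pre (nb (xc c)) s) s0)).toNat) (2 ^ s) : ℝ) / 2 ^ s := by
    intro s hs
    rw [← coin_count s (fun σ => Qf (tk σ s0))]
    congr 1
    ext Z
    simp only [C, Set.mem_ofPred_eq]
    rw [tk_pre _ hs]
  have hDs : ∀ s x y, s0 ≤ s → coin.real {Z : ℕ → Bool | Z ∈ C ∧ ev (pre (nb Z) s, x) = some y} =
      (sumB (fun c => (Qf (tk (pre (nb (xc c)) s) s0) &&
        decide (ev (pre (nb (xc c)) s, x) = some y)).toNat) (2 ^ s) : ℝ) / 2 ^ s := by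
    intro s x y hs
    rw [← coin_count s (fun σ => Qf (tk σ s0) && decide (ev (σ, x) = some y))]
    congr 1
    ext Z
    simp only [C, Set.mem_ofPred_eq, Bool.and_eq_true, decide_eq_true_eq]
    rw [tk_pre _ hs]
  refine comp_of_search hf ?_ ?_
  · intro x
    -- the computations exhaust `Q`
    have h1 : coin.real {Z : ℕ → Bool | Z ∈ Q ∧ ∀ t, ev (pre (nb Z) t, x) ≠ some (A' x)} = 0 :=
      le_antisymm (hcon x) measureReal_nonneg
    let D : ℕ → Set (ℕ → Bool) := fun s => {Z | Z ∈ C ∧ ev (pre (nb Z) (s0 + s), x) = some (A' x)}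
    have hDmono : Monotone D := by
      intro s s' h Z hZ
      exact ⟨hZ.1, hmono Z _ _ _ _ (by omega) hZ.2⟩
    have h2 : coin.real Q ≤ coin.real (⋃ s, D s) := by
      have : Q ⊆ (⋃ s, D s) ∪ {Z : ℕ → Bool | Z ∈ Q ∧ ∀ t, ev (pre (nb Z) t, x) ≠ some (A' x)} := by
        intro Z hZ
        by_cases h : ∀ t, ev (pre (nb Z) t, x) ≠ some (A' x)
        · exact Or.inr ⟨hZ, h⟩
        · push Not at h
          obtain ⟨t, ht⟩ := h
          exact Or.inl (Set.mem_iUnion.2 ⟨t, hQC hZ, hmono Z _ _ _ _ (by omega) ht⟩)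
      refine (measureReal_mono this (measure_ne_top _ _)).trans ((measureReal_union_le _ _).trans ?_)
      rw [h1, add_zero]
    have h3 : Filter.Tendsto (fun s => coin.real (D s)) Filter.atTop (nhds (coin.real (⋃ s, D s))) :=
      (ENNReal.tendsto_toReal (measure_ne_top _ _)).comp (tendsto_measure_iUnion_atTop hDmono)
    have h4 : coin.real C / 2 < coin.real (⋃ s, D s) := by linarith
    obtain ⟨s, hs⟩ := (h3.eventually (lt_mem_nhds h4)).exists
    refine ⟨Nat.pair (s0 + s) (A' x), A' x, ?_⟩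
    have h5 := hDs (s0 + s) x (A' x) (by omega)
    have h6 := hCs (s0 + s) (by omega)
    have h7 : coin.real (D s) = coin.real {Z : ℕ → Bool | Z ∈ C ∧
      ev (pre (nb Z) (s0 + s), x) = some (A' x)} := rfl
    rw [h7, h5, h6] at hs
    rw [div_div, mul_comm, ← div_div, div_lt_div_iff_of_pos_right (by positivity)] at hs
    rw [div_lt_iff₀ (by norm_num)] at hs
    have h8 : sumB (fun c => (Qf (tk (pre (nb (xc c)) (s0 + s)) s0)).toNat) (2 ^ (s0 + s)) <
        2 * sumB (fun c => (Qf (tk (pre (nb (xc c)) (s0 + s)) s0) &&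
        decide (ev (pre (nb (xc c)) (s0 + s), x) = some (A' x))).toNat) (2 ^ (s0 + s)) := by
      rw [mul_comm]
      exact_mod_cast hs
    simp only [f, Nat.unpair_pair]
    rw [show decide (s0 ≤ s0 + s) = true by simp, decide_eq_true h8]
    rfl
  · intro x k y hk
    simp only [f] at hk
    cases hb : (decide (s0 ≤ k.unpair.1) && decide (sumB (fun c => (Qf (tk (pre (nb (xc c)) k.unpair.1) s0)).toNat)
        (2 ^ k.unpair.1) < 2 * sumB (fun c => (Qf (tk (pre (nb (xc c)) k.unpair.1) s0) &&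
        decide (ev (pre (nb (xc c)) k.unpair.1, x) = some k.unpair.2)).toNat) (2 ^ k.unpair.1))) with
    | false => rw [hb] at hk; simp at hk
    | true =>
      rw [hb] at hk
      simp only [cond_true, Option.some.injEq] at hk
      subst hk
      rw [Bool.and_eq_true, decide_eq_true_eq, decide_eq_true_eq] at hb
      obtain ⟨hs, hlt⟩ := hb
      have h5 := hDs k.unpair.1 x k.unpair.2 hs
      have h6 := hCs k.unpair.1 hs
      have h7 : coin.real C / 2 < coin.real {Z : ℕ → Bool | Z ∈ C ∧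
          ev (pre (nb Z) k.unpair.1, x) = some k.unpair.2} := by
        rw [h5, h6, div_div, mul_comm, ← div_div, div_lt_div_iff_of_pos_right (by positivity),
          div_lt_iff₀ (by norm_num), mul_comm]
        exact_mod_cast hlt
      -- it meets `Q` in a set of positive measure
      have h8 : 0 < coin.real (Q ∩ {Z : ℕ → Bool | ev (pre (nb Z) k.unpair.1, x) = some k.unpair.2}) := by
        have h9 : {Z : ℕ → Bool | Z ∈ C ∧ ev (pre (nb Z) k.unpair.1, x) = some k.unpair.2} ⊆
            (Q ∩ {Z : ℕ → Bool | ev (pre (nb Z) k.unpair.1, x) = some k.unpair.2}) ∪ (C \ Q) := by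
          intro Z hZ
          by_cases h : Z ∈ Q
          · exact Or.inl ⟨h, hZ.2⟩
          · exact Or.inr ⟨hZ.1, h⟩
        have h10 := (measureReal_mono (μ := coin) h9 (measure_ne_top _ _)).trans
          (measureReal_union_le _ _)
        rw [hCd] at h10
        linarith
      by_contra hne
      have h11 : coin.real (Q ∩ {Z : ℕ → Bool | ev (pre (nb Z) k.unpair.1, x) = some k.unpair.2}) ≤ 0 := by
        refine (measureReal_mono ?_).trans (hcon x)
        intro Z hZ
        refine ⟨hZ.1, fun t ht => ?_⟩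
        have h12 := hmono Z _ _ _ _ (le_max_left k.unpair.1 t) hZ.2
        have h13 := hmono Z _ _ _ _ (le_max_right k.unpair.1 t) ht
        rw [h12] at h13
        simp only [Option.some.injEq] at h13
        exact hne h13
      linarith

end ctx

end Pool.Agent.H572R3
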