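import Mathlib
import Pool.Agent.H572R3.Ctx

set_option autoImplicit false

/-! The extension step. -/

namespace Pool.Agent.H572R3

open MeasureTheory Pool.Agent.Helper743

section wr
variable {α : Type*} [Primcodable α]

lemma W_comp3 {f h : α → ℕ} {g : α → List ℕ} (hf : Computable f) (hg : Computable g)
    (hh : Computable h) : Computable (fun z => W (f z) (g z, h z)) :=
  W_comp.comp (hf.pair (hg.pair hh))

lemma getD_comp {f : α → List ℕ} {g : α → ℕ} (hf : Computable f) (hg : Computable g) :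
    Computable (fun z => (f z).getD (g z) 0) := (Primrec.list_getD 0).to_comp.comp hf hg

lemma optEq_comp {f g : α → Option ℕ} (hf : Computable f) (hg : Computable g) :
    Computable (fun z => decide (f z = g z)) := Primrec.eq.decide.to_comp.comp hf hg

lemma listEq_comp {f g : α → List ℕ} (hf : Computable f) (hg : Computable g) :
    Computable (fun z => decide (f z = g z)) := Primrec.eq.decide.to_comp.comp hf hg

lemma Rb_comp {a : ℕ → ℕ → ℕ} (ha : Computable₂ a) {f g : α → List ℕ} (hf : Computable f)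
    (hg : Computable g) : Computable (fun z => Rb a (f z) (g z)) := by
  have h0 : Computable₂ (fun (z : α) (k : ℕ) =>
      !(decide (W k (g z, (f z).getD k 0) = some (a ((f z).getD k 0) (g z).length)))) := by
    have h1 : Computable (fun q : α × ℕ => (f q.1).getD q.2 0) :=
      getD_comp (hf.comp Computable.fst) Computable.snd
    refine not_comp (optEq_comp (W_comp3 Computable.snd (hg.comp Computable.fst) h1)
      (Computable.option_some.comp (ha.comp h1 (len_comp (hg.comp Computable.fst)))))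
  exact allB_comp h0 (len_comp hf)

lemma Qb_comp {a : ℕ → ℕ → ℕ} (ha : Computable₂ a) {f g h : α → List ℕ} (hf : Computable f)
    (hg : Computable g) (hh : Computable h) : Computable (fun z => Qb a (f z) (g z) (h z)) :=
  and_comp (Pl_comp1 hh) (and_comp (listEq_comp (tk_comp hh (len_comp hg)) hg) (Rb_comp ha hf hh))

end wr

variable {a : ℕ → ℕ → ℕ} {A' : ℕ → ℕ}

lemma gk_append (es : List ℕ) (e : ℕ) (σ : List ℕ) {k : ℕ} (hk : k ≤ es.length) :
    gk a (es ++ [e]) σ k = gk a es σ k := by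
  induction k with
  | zero => rfl
  | succ k ih =>
    rw [gk, gk, ih (by omega)]
    congr 1
    simp [List.getD, List.getElem?_append_left (show k < es.length by omega)]

lemma getD_app_lt (xs : List ℕ) (x : ℕ) {k : ℕ} (hk : k < xs.length) :
    (xs ++ [x]).getD k 0 = xs.getD k 0 := by
  simp [List.getD, List.getElem?_append_left hk]

lemma getD_app_eq (xs : List ℕ) (x : ℕ) : (xs ++ [x]).getD xs.length 0 = x := by
  simp [List.getD]

/-- the guesses settle -/
lemma guess (hlim : ∀ x, ∃ T, ∀ t, T ≤ t → a x t = A' x) {xs τ : List ℕ} {T x0 : ℕ}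
    (hT : ∀ k < xs.length, ∀ t, T ≤ t → a (xs.getD k 0) t = A' (xs.getD k 0))
    (hτ : τ.length ≤ T)
    (hpos : 0 < coin.real {Z : ℕ → Bool | (∀ t, T ≤ t → Qb a xs τ (pre (nb Z) t) = true) ∧
      ∀ t, W xs.length (pre (nb Z) t, x0) ≠ some (A' x0)}) :
    ∃ x r T' : ℕ, T ≤ T' ∧ (∀ t, T' ≤ t → gp a xs τ t = Nat.pair x r) ∧
      (∀ k < (xs ++ [x]).length, ∀ t, T' ≤ t → a ((xs ++ [x]).getD k 0) t = A' ((xs ++ [x]).getD k 0)) ∧
      ∀ t, T' ≤ t → 2 ^ t ≤ cQ a (xs ++ [x]) τ t * 2 ^ r := by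
  classical
  let cond : ℕ → ℕ → Prop := fun p t => 2 ^ t ≤ cQ a (xs ++ [p.unpair.1]) τ t * 2 ^ p.unpair.2
  have hset : ∀ x, ∃ N, T ≤ N ∧ ∀ k < (xs ++ [x]).length, ∀ t, N ≤ t →
      a ((xs ++ [x]).getD k 0) t = A' ((xs ++ [x]).getD k 0) := by
    intro x
    obtain ⟨N, hN⟩ := hlim x
    refine ⟨max T N, le_max_left _ _, fun k hk t ht => ?_⟩
    rcases Nat.lt_or_ge k xs.length with h | h
    · rw [getD_app_lt xs x h]
      exact hT k h t ((le_max_left _ _).trans ht)
    · have hk' : k = xs.length := by simp at hk; omega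
      subst hk'
      rw [getD_app_eq]
      exact hN t ((le_max_right _ _).trans ht)
  have hcm : ∀ p t, cond p t ↔ (1 / 2 : ℝ) ^ p.unpair.2 ≤
      coin.real {Z | Qb a (xs ++ [p.unpair.1]) τ (pre (nb Z) t) = true} := by
    intro p t
    rw [cQ_meas, half_pow_mul']
  have hanti : ∀ p, ∃ N, ∀ t t', N ≤ t → t ≤ t' → cond p t' → cond p t := by
    intro p
    obtain ⟨N, hN1, hN2⟩ := hset p.unpair.1
    refine ⟨N, fun t t' ht htt hc => ?_⟩
    rw [hcm] at hc ⊢
    refine hc.trans (measureReal_mono ?_)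
    intro Z hZ
    exact Qb_anti hN2 (hτ.trans hN1) ht htt Z hZ
  have hconst : ∀ p, (∀ᶠ t in Filter.atTop, cond p t) ∨ (∀ᶠ t in Filter.atTop, ¬ cond p t) := by
    intro p
    obtain ⟨N, hN⟩ := hanti p
    by_cases h : ∀ t, N ≤ t → cond p t
    · left
      filter_upwards [Filter.eventually_ge_atTop N] with t ht
      exact h t ht
    · right
      push Not at h
      obtain ⟨t0, ht0, hc⟩ := h
      filter_upwards [Filter.eventually_ge_atTop t0] with t ht
      exact fun hc' => hc (hN t0 t ht0 ht hc')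
  have hex : ∃ p, ∀ᶠ t in Filter.atTop, cond p t := by
    obtain ⟨r0, hr0⟩ := exists_pow_lt_of_lt_one hpos (show (1 / 2 : ℝ) < 1 by norm_num)
    refine ⟨Nat.pair x0 r0, ?_⟩
    obtain ⟨N, hN1, hN2⟩ := hset x0
    filter_upwards [Filter.eventually_ge_atTop N] with t ht
    rw [hcm]
    simp only [Nat.unpair_pair]
    refine hr0.le.trans (measureReal_mono ?_)
    rintro Z ⟨hZ1, hZ2⟩
    have h1 := hZ1 t (hN1.trans ht)
    simp only [Set.mem_ofPred_eq]
    unfold Qb at h1 ⊢
    simp only [Bool.and_eq_true] at h1 ⊢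
    refine ⟨h1.1, h1.2.1, ?_⟩
    have h2 := h1.2.2
    unfold Rb at h2 ⊢
    rw [allB_iff] at h2 ⊢
    intro k hk
    rcases Nat.lt_or_ge k xs.length with h | h
    · rw [getD_app_lt xs x0 h]
      exact h2 k h
    · have hk' : k = xs.length := by simp at hk; omega
      subst hk'
      have h3 := hN2 xs.length (by simp) t ht
      rw [pre_length, h3]
      simp only [getD_app_eq, Bool.not_eq_true', decide_eq_false_iff_not]
      exact hZ2 t
  have hp := Nat.find_spec hex
  have hmin : ∀ j < Nat.find hex, ∀ᶠ t in Filter.atTop, ¬ cond j t := by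
    intro j hj
    rcases hconst j with h | h
    · exact absurd h (Nat.find_min hex hj)
    · exact h
  set p := Nat.find hex with hpdef
  have hmin2 : ∀ᶠ t in Filter.atTop, ∀ j ∈ Finset.range p, ¬ cond j t := by
    rw [Filter.eventually_all_finset]
    intro j hj
    exact hmin j (Finset.mem_range.1 hj)
  have hgp : ∀ᶠ t in Filter.atTop, gp a xs τ t = p := by
    filter_upwards [hp, hmin2, Filter.eventually_gt_atTop p] with t h1 h2 h3
    unfold gp
    apply fnd_eq h3
    · exact decide_eq_true h1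
    · intro j hj
      exact decide_eq_false (h2 j (Finset.mem_range.2 hj))
  obtain ⟨N, hN1, hN2⟩ := hset p.unpair.1
  obtain ⟨T', hT'⟩ := Filter.eventually_atTop.1 (hgp.and (hp.and (Filter.eventually_ge_atTop N)))
  refine ⟨p.unpair.1, p.unpair.2, T', hN1.trans (hT' T' le_rfl).2.2, ?_, ?_, ?_⟩
  · intro t ht
    rw [(hT' t ht).1, Nat.pair_unpair]
  · intro k hk t ht
    exact hN2 k hk t (hT' t ht).2.2
  · intro t ht
    exact (hT' t ht).2.1

theorem Lev.step (ha : Computable₂ a) (hlim : ∀ x, ∃ T, ∀ t, T ≤ t → a x t = A' x)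
    (hA : ¬ Computable A') {es : List ℕ} {Z0 : ℕ → Bool} {L : ℕ} {xs : List ℕ} {r T : ℕ}
    (h : Lev a A' es Z0 L xs r T) (b : ℕ) :
    ∃ (e : ℕ) (Z1 : ℕ → Bool) (x r' T' : ℕ), b < e ∧ T < e ∧ pre (nb Z1) L = pre (nb Z0) L ∧
      Lev a A' (es ++ [e]) Z1 e (xs ++ [x]) r' T' ∧
      ∀ Z, pre (nb Z) e = pre (nb Z1) e → ∀ s, T ≤ s → s < e →
        dl a (pre (nb Z) s) (es.length + 1) = none := by
  set τ := pre (nb Z0) L with hτ
  have hτl : τ.length = L := by simp [hτ]
  have hLT := h.l2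
  let QS : ℕ → Set (ℕ → Bool) := fun t => {Z | Qb a xs τ (pre (nb Z) t) = true}
  have hm : ∀ t, MeasurableSet (QS t) := fun t =>
    meas_fin t (fun Z => Qb a xs τ (pre (nb Z) t) = true) (fun X Y h => by rw [pre_congr h])
  have hanti : ∀ t t', T ≤ t → t ≤ t' → QS t' ⊆ QS t := fun t t' ht htt Z hZ =>
    Qb_anti h.l4 (by rw [hτl]; exact hLT) ht htt Z hZ
  have hbig : ∀ t, T ≤ t → 2 * ((1 / 2 : ℝ) ^ (r + 1)) ≤ coin.real (QS t) := by
    intro t ht
    have h1 : coin.real (QS t) = (cQ a xs τ t : ℝ) / 2 ^ t := cQ_meas xs τ t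
    rw [h1, pow_succ, show 2 * ((1 / 2 : ℝ) ^ r * (1 / 2)) = (1 / 2) ^ r by ring, half_pow_mul']
    exact h.l5 t ht
  obtain ⟨e, he, Z1, hpos, hF1, hF2⟩ := quantile hm hanti (by positivity) hbig (max b T)
    (le_max_right _ _)
  have hbe : b < e := lt_of_le_of_lt (le_max_left _ _) he
  have hTe : T < e := lt_of_le_of_lt (le_max_right _ _) he
  have hZ1L : pre (nb Z1) L = τ := by
    have hne : ((⋂ t, QS (T + t)) ∩ {Z | pre (nb Z) e = pre (nb Z1) e}).Nonempty := by
      by_contra h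
      rw [Set.not_nonempty_iff_eq_empty.1 h] at hpos
      simp at hpos
    obtain ⟨Y, hY1, hY2⟩ := hne
    have h1 : Qb a xs τ (pre (nb Y) (T + 0)) = true := Set.mem_iInter.1 hY1 0
    unfold Qb at h1
    simp only [Bool.and_eq_true, decide_eq_true_eq] at h1
    have h2 := h1.2.1
    rw [hτl, tk_pre _ (by omega)] at h2
    rw [← h2, pre_eq_iff]
    intro j hj
    exact ((pre_eq_iff.1 hY2) j (by omega)).symm
  have hZL : ∀ Z, pre (nb Z) e = pre (nb Z1) e → pre (nb Z) L = τ := by
    intro Z hZ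
    rw [← hZ1L, pre_eq_iff]
    intro j hj
    exact (pre_eq_iff.1 hZ) j (by omega)
  have hCu : ∀ Z, pre (nb Z) L = τ → ∀ t, T ≤ t →
      (Cu a es (pre (nb Z) t) = true ↔ FF QS t Z < (1 / 2 : ℝ) ^ (r + 1)) := by
    intro Z hZ t ht
    unfold Cu
    rw [h.l3 Z hZ t ht]
    simp only
    rw [decide_eq_true_eq, tk_pre _ (hLT.trans ht), hZ, pre_length]
    have h1 : FF QS t Z = (cC a xs τ (pre (nb Z) t) : ℝ) / 2 ^ t := cC_meas xs τ t Z
    rw [h1, half_pow_mul]
  have hFc : ∀ Z, pre (nb Z) e = pre (nb Z1) e → ∀ t, t ≤ e → FF QS t Z = FF QS t Z1 := by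
    intro Z hZ t ht
    apply FF_congr
    intro j hj
    exact (pre_eq_iff.1 hZ) j (by omega)
  have hcut : ∀ Z, pre (nb Z) e = pre (nb Z1) e → ∀ t, e ≤ t → Cu a es (pre (nb Z) t) = true := by
    intro Z hZ t ht
    rw [hCu Z (hZL Z hZ) t (by omega)]
    refine lt_of_le_of_lt (FF_anti hanti hTe.le ht Z) ?_
    rw [hFc Z hZ e le_rfl]
    exact hF1
  have hcuf : ∀ Z, pre (nb Z) e = pre (nb Z1) e → ∀ s, T ≤ s → s < e →
      ¬ Cu a es (pre (nb Z) s) = true := by
    intro Z hZ s hs hse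
    rw [hCu Z (hZL Z hZ) s hs, not_lt]
    refine hF2.trans ?_
    rw [← hFc Z hZ (e - 1) (by omega)]
    exact FF_anti hanti hs (by omega) Z
  have hen1 : ∀ Z, pre (nb Z) e = pre (nb Z1) e → ∀ s, e ≤ s → en a es (pre (nb Z) s) = e := by
    intro Z hZ s hs
    unfold en
    rw [h.l3 Z (hZL Z hZ) s (by omega), pre_length]
    apply fnd_eq (by omega)
    · simp only [Bool.and_eq_true, decide_eq_true_eq]
      refine ⟨by omega, ?_⟩
      rw [allB_iff]
      intro t ht
      simp only [Bool.or_eq_true, decide_eq_true_eq]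
      by_cases hte : t < e
      · exact Or.inl hte
      · right
        rw [tk_pre _ (by omega)]
        exact hcut Z hZ t (by omega)
    · intro j hj
      rw [← Bool.not_eq_true]
      intro hp
      simp only [Bool.and_eq_true, decide_eq_true_eq] at hp
      have h2 := (allB_iff _ _).1 hp.2 (e - 1) (by omega)
      simp only [Bool.or_eq_true, decide_eq_true_eq] at h2
      rcases h2 with h2 | h2
      · omega
      · rw [tk_pre _ (by omega)] at h2
        exact hcuf Z hZ (e - 1) (by omega) (by omega) h2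
  have hen2 : ∀ Z, pre (nb Z) e = pre (nb Z1) e → ∀ s, T ≤ s → s < e →
      en a es (pre (nb Z) s) = s + 1 := by
    intro Z hZ s hs hse
    unfold en
    rw [h.l3 Z (hZL Z hZ) s hs, pre_length]
    apply fnd_none
    intro j hj
    rw [← Bool.not_eq_true]
    intro hp
    simp only [Bool.and_eq_true, decide_eq_true_eq] at hp
    have h2 := (allB_iff _ _).1 hp.2 s (by omega)
    simp only [Bool.or_eq_true, decide_eq_true_eq] at h2
    rcases h2 with h2 | h2
    · omega
    · rw [tk_pre _ (by omega)] at h2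
      exact hcuf Z hZ s hs hse h2
  have hdl1 : ∀ Z, pre (nb Z) e = pre (nb Z1) e → ∀ s, e ≤ s →
      dl a (pre (nb Z) s) (es.length + 1) = some (es ++ [e]) := by
    intro Z hZ s hs
    rw [dl, h.l6 Z (hZL Z hZ) s (by omega), Option.bind_some, hen1 Z hZ s hs, pre_length,
      decide_eq_true hs]
    rfl
  have hdl2 : ∀ Z, pre (nb Z) e = pre (nb Z1) e → ∀ s, T ≤ s → s < e →
      dl a (pre (nb Z) s) (es.length + 1) = none := by
    intro Z hZ s hs hse
    rw [dl, h.l6 Z (hZL Z hZ) s (by omega), Option.bind_some, hen2 Z hZ s hs hse, pre_length,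
      decide_eq_false (by omega)]
    rfl
  -- the new requirement
  set τ' := pre (nb Z1) e with hτ'
  have hτ'l : τ'.length = e := by simp [hτ']
  have hl4 : ∀ k < xs.length, ∀ t, e ≤ t → a (xs.getD k 0) t = A' (xs.getD k 0) :=
    fun k hk t ht => h.l4 k hk t (by omega)
  have hpos1 : 0 < coin.real {Z : ℕ → Bool | ∀ t, e ≤ t → Qb a xs τ' (pre (nb Z) t) = true} := by
    refine lt_of_lt_of_le hpos (measureReal_mono ?_)
    rintro Z ⟨hZ1, hZ2⟩
    intro t ht
    have h1 : Qb a xs τ (pre (nb Z) (T + (t - T))) = true := Set.mem_iInter.1 hZ1 (t - T)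
    rw [show T + (t - T) = t by omega] at h1
    unfold Qb at h1 ⊢
    simp only [Bool.and_eq_true, decide_eq_true_eq] at h1 ⊢
    refine ⟨h1.1, ?_, h1.2.2⟩
    rw [hτ'l, tk_pre _ ht]
    exact hZ2
  obtain ⟨x0, hx0⟩ := sacks (A' := A') hA (ev := W xs.length)
    (W_comp3 (Computable.const xs.length) Computable.fst Computable.snd)
    (fun Z s s' x y hs hy => W_mono _ _ hs hy) (Qf := Qb a xs τ')
    (Qb_comp ha (Computable.const xs) (Computable.const τ') Computable.id) (T := e)
    (fun t t' ht htt Z hZ => Qb_anti hl4 (by rw [hτ'l]) ht htt Z hZ) hpos1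
  obtain ⟨x, r', T', hT'1, hT'2, hT'3, hT'4⟩ := guess hlim hl4 (by rw [hτ'l]) hx0
  refine ⟨e, Z1, x, r', T', hbe, hTe, hZ1L, ⟨?_, hT'1, ?_, hT'3, hT'4, ?_⟩, hdl2⟩
  · simp [h.l1]
  · intro Z hZ t ht
    rw [List.length_append, List.length_singleton, gk, gk_append es e _ le_rfl,
      h.l3 Z (hZL Z hZ) t (by omega), getD_app_eq]
    unfold stp
    simp only
    rw [pre_length, tk_pre _ (by omega), hZ, hT'2 t ht]
    simp
  · intro Z hZ s hs
    rw [List.length_append, List.length_singleton]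
    exact hdl1 Z hZ s hs

end Pool.Agent.H572R3
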