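import Mathlib
import Pool.Agent.H572R3.Step

set_option autoImplicit false

/-! The limit computable case. -/

namespace Pool.Agent.H572R3

open MeasureTheory Pool.Agent.Helper743

section wr
variable {α : Type*} [Primcodable α]

lemma fnd_comp {p : α → ℕ → Bool} (hp : Computable₂ p) {g : α → ℕ} (hg : Computable g) :
    Computable (fun z => fnd (p z) (g z)) := by
  have h := Computable.nat_rec hg (Computable.const 0)
    (h := fun (z : α) (q : ℕ × ℕ) => bif decide (q.2 < q.1) then q.2 else
      (bif p z q.1 then q.1 else q.1 + 1)) (by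
      refine Computable.cond (lt_comp (Computable.snd.comp Computable.snd)
        (Computable.fst.comp Computable.snd)) (Computable.snd.comp Computable.snd) ?_
      exact Computable.cond (hp.comp Computable.fst (Computable.fst.comp Computable.snd))
        (Computable.fst.comp Computable.snd)
        (Computable.succ.comp (Computable.fst.comp Computable.snd)))
  refine h.of_eq ?_
  intro z
  generalize g z = n
  induction n with
  | zero => rfl
  | succ n ih => rw [fnd, ← ih]

lemma NN_comp {f : α → List ℕ} {g : α → ℕ} (hf : Computable f) (hg : Computable g) :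
    Computable (fun z => NN (f z) (g z)) := by
  have h := Computable.nat_rec hg (Computable.const 0)
    (h := fun (z : α) (q : ℕ × ℕ) => 2 * q.2 + (f z).getD q.1 0) (by
      exact add_comp (mul_comp (Computable.const 2) (Computable.snd.comp Computable.snd))
        (getD_comp (hf.comp Computable.fst) (Computable.fst.comp Computable.snd)))
  refine h.of_eq ?_
  intro z
  generalize g z = n
  induction n with
  | zero => rfl
  | succ n ih => rw [NN, ← ih]

lemma unp1_comp {f : α → ℕ} (hf : Computable f) : Computable (fun z => (f z).unpair.1) :=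
  (Primrec.fst.comp Primrec.unpair).to_comp.comp hf

lemma unp2_comp {f : α → ℕ} (hf : Computable f) : Computable (fun z => (f z).unpair.2) :=
  (Primrec.snd.comp Primrec.unpair).to_comp.comp hf

variable {a : ℕ → ℕ → ℕ}

lemma cQ_comp (ha : Computable₂ a) {f g : α → List ℕ} {h : α → ℕ} (hf : Computable f)
    (hg : Computable g) (hh : Computable h) : Computable (fun z => cQ a (f z) (g z) (h z)) := by
  have h0 : Computable₂ (fun (z : α) (c : ℕ) =>
      (Qb a (f z) (g z) (pre (nb (xc c)) (h z))).toNat) :=
    toNat_comp (Qb_comp ha (hf.comp Computable.fst) (hg.comp Computable.fst)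
      (prexc_comp Computable.snd (hh.comp Computable.fst)))
  exact sumB_comp h0 (pow2_comp hh)

lemma gp_comp (ha : Computable₂ a) {f g : α → List ℕ} {h : α → ℕ} (hf : Computable f)
    (hg : Computable g) (hh : Computable h) : Computable (fun z => gp a (f z) (g z) (h z)) := by
  have h0 : Computable₂ (fun (z : α) (p : ℕ) =>
      decide (2 ^ (h z) ≤ cQ a (f z ++ [p.unpair.1]) (g z) (h z) * 2 ^ p.unpair.2)) := by
    refine le_comp (pow2_comp (hh.comp Computable.fst)) (mul_comp (cQ_comp ha ?_
      (hg.comp Computable.fst) (hh.comp Computable.fst)) (pow2_comp (unp2_comp Computable.snd)))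
    exact Computable.list_concat.comp (hf.comp Computable.fst) (unp1_comp Computable.snd)
  exact fnd_comp h0 hh

lemma stp_comp (ha : Computable₂ a) {f : α → List ℕ} {g : α → List ℕ × (ℕ × ℕ)} {h : α → ℕ}
    (hf : Computable f) (hg : Computable g) (hh : Computable h) :
    Computable (fun z => stp a (f z) (g z) (h z)) := by
  have h1 : Computable (fun z => gp a (g z).1 (tk (f z) (h z)) (f z).length) :=
    gp_comp ha (Computable.fst.comp hg) (tk_comp hf hh) (len_comp hf)
  exact (Computable.list_concat.comp (Computable.fst.comp hg) (unp1_comp h1)).pair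
    ((unp2_comp h1).pair hh)

lemma gk_comp (ha : Computable₂ a) {f g : α → List ℕ} {h : α → ℕ} (hf : Computable f)
    (hg : Computable g) (hh : Computable h) : Computable (fun z => gk a (f z) (g z) (h z)) := by
  have hr := Computable.nat_rec hh (Computable.const (([], (1, 0)) : List ℕ × (ℕ × ℕ)))
    (h := fun (z : α) (q : ℕ × (List ℕ × (ℕ × ℕ))) => stp a (g z) q.2 ((f z).getD q.1 0)) (by
      exact stp_comp ha (hg.comp Computable.fst) (Computable.snd.comp Computable.snd)
        (getD_comp (hf.comp Computable.fst) (Computable.fst.comp Computable.snd)))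
  refine hr.of_eq ?_
  intro z
  generalize h z = n
  induction n with
  | zero => rfl
  | succ n ih => rw [gk, ← ih]

lemma cC_comp (ha : Computable₂ a) {f g h : α → List ℕ} (hf : Computable f)
    (hg : Computable g) (hh : Computable h) : Computable (fun z => cC a (f z) (g z) (h z)) := by
  have h0 : Computable₂ (fun (z : α) (c : ℕ) =>
      (Qb a (f z) (g z) (pre (nb (xc c)) (h z).length) &&
        decide (NN (pre (nb (xc c)) (h z).length) (h z).length ≤
          NN (h z) (h z).length)).toNat) := by
    have h1 : Computable (fun q : α × ℕ => (h q.1).length) := len_comp (hh.comp Computable.fst)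
    have h2 : Computable (fun q : α × ℕ => pre (nb (xc q.2)) (h q.1).length) :=
      prexc_comp Computable.snd h1
    exact toNat_comp (and_comp (Qb_comp ha (hf.comp Computable.fst) (hg.comp Computable.fst) h2)
      (le_comp (NN_comp h2 h1) (NN_comp (hh.comp Computable.fst) h1)))
  exact sumB_comp h0 (pow2_comp (len_comp hh))

lemma Cu_comp (ha : Computable₂ a) {f g : α → List ℕ} (hf : Computable f)
    (hg : Computable g) : Computable (fun z => Cu a (f z) (g z)) := by
  have h1 : Computable (fun z => gk a (f z) (g z) (f z).length) := gk_comp ha hf hg (len_comp hf)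
  exact lt_comp (mul_comp (cC_comp ha (Computable.fst.comp h1)
    (tk_comp hg (Computable.snd.comp (Computable.snd.comp h1))) hg)
    (pow2_comp (Computable.succ.comp (Computable.fst.comp (Computable.snd.comp h1)))))
    (pow2_comp (len_comp hg))

lemma en_comp (ha : Computable₂ a) {f g : α → List ℕ} (hf : Computable f)
    (hg : Computable g) : Computable (fun z => en a (f z) (g z)) := by
  have h2 : Computable (fun z => (g z).length + 1) := Computable.succ.comp (len_comp hg)
  have h0 : Computable₂ (fun (z : α) (e : ℕ) => decide ((gk a (f z) (g z) (f z).length).2.2 < e) &&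
      allB (fun t => decide (t < e) || Cu a (f z) (tk (g z) t)) ((g z).length + 1)) := by
    have h1 : Computable (fun q : α × ℕ => gk a (f q.1) (g q.1) (f q.1).length) :=
      gk_comp ha (hf.comp Computable.fst) (hg.comp Computable.fst)
        (len_comp (hf.comp Computable.fst))
    refine and_comp (lt_comp (Computable.snd.comp (Computable.snd.comp h1)) Computable.snd) ?_
    refine allB_comp (p := fun (q : α × ℕ) (t : ℕ) => decide (t < q.2) ||
      Cu a (f q.1) (tk (g q.1) t)) ?_ (h2.comp Computable.fst)
    exact or_comp (lt_comp Computable.snd (Computable.snd.comp Computable.fst))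
      (Cu_comp ha (hf.comp (Computable.fst.comp Computable.fst))
        (tk_comp (hg.comp (Computable.fst.comp Computable.fst)) Computable.snd))
  exact fnd_comp h0 h2

lemma dl_comp (ha : Computable₂ a) {f : α → List ℕ} {g : α → ℕ} (hf : Computable f)
    (hg : Computable g) : Computable (fun z => dl a (f z) (g z)) := by
  have h := Computable.nat_rec hg (Computable.const (some [] : Option (List ℕ)))
    (h := fun (z : α) (q : ℕ × Option (List ℕ)) => q.2.bind (fun es =>
      bif decide (en a es (f z) ≤ (f z).length) then some (es ++ [en a es (f z)]) else none)) (by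
      refine Computable.option_bind (Computable.snd.comp Computable.snd) ?_
      have h1 : Computable (fun q : (α × (ℕ × Option (List ℕ))) × List ℕ => f q.1.1) :=
        hf.comp (Computable.fst.comp Computable.fst)
      have h2 : Computable (fun q : (α × (ℕ × Option (List ℕ))) × List ℕ =>
          en a q.2 (f q.1.1)) := en_comp ha Computable.snd h1
      exact Computable.cond (le_comp h2 (len_comp h1)) (Computable.option_some.comp
        (Computable.list_concat.comp Computable.snd h2)) (Computable.const none))
  refine h.of_eq ?_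
  intro z
  generalize g z = n
  induction n with
  | zero => rfl
  | succ n ih => rw [dl, ← ih]

end wr

lemma dl_none {a : ℕ → ℕ → ℕ} {σ : List ℕ} {k k' : ℕ} (h : k ≤ k') (h1 : dl a σ k = none) :
    dl a σ k' = none := by
  induction k', h using Nat.le_induction with
  | base => exact h1
  | succ k' _ ih => rw [dl, ih]; rfl

lemma sumB_pos {p : ℕ → ℕ} {n : ℕ} (h : 0 < sumB p n) : ∃ c < n, 0 < p c := by
  induction n with
  | zero => simp [sumB] at h
  | succ n ih =>
    rw [sumB] at h
    rcases Nat.eq_zero_or_pos (p n) with h1 | h1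
    · obtain ⟨c, hc, h2⟩ := ih (by omega)
      exact ⟨c, by omega, h2⟩
    · exact ⟨n, by omega, h1⟩

structure LS (a : ℕ → ℕ → ℕ) (A' : ℕ → ℕ) where
  es : List ℕ
  Z : ℕ → Bool
  L : ℕ
  xs : List ℕ
  r : ℕ
  T : ℕ
  h : Lev a A' es Z L xs r T

theorem caseB {a : ℕ → ℕ → ℕ} {A' : ℕ → ℕ} (ha : Computable₂ a)
    (hlim : ∀ x, ∃ T, ∀ t, T ≤ t → a x t = A' x) (hA : ¬ Computable A') (f0 : ℕ → ℕ) :
    ∃ B : ℕ → Bool, FR B ∧ ¬ TR A' (nb B) ∧ ∃ g, TR g (nb B) ∧
      ∀ q N, ∃ n, N ≤ n ∧ n.unpair.1 = q ∧ f0 n < g n := by
  classical
  let nn : LS a A' → ℕ := fun s => Nat.pair s.es.length.unpair.1 (max s.T (s.es.length + 1))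
  have hnext : ∀ s : LS a A', ∃ s' : LS a A', ∃ e x : ℕ, s'.es = s.es ++ [e] ∧ s'.L = e ∧
      s'.xs = s.xs ++ [x] ∧ max (f0 (nn s)) (nn s) < e ∧ s.T < e ∧
      pre (nb s'.Z) s.L = pre (nb s.Z) s.L ∧
      ∀ Z, pre (nb Z) e = pre (nb s'.Z) e → ∀ t, s.T ≤ t → t < e →
        dl a (pre (nb Z) t) (s.es.length + 1) = none := by
    intro s
    obtain ⟨e, Z1, x, r', T', h1, h2, h3, h4, h5⟩ := s.h.step ha hlim hA (max (f0 (nn s)) (nn s))
    exact ⟨⟨s.es ++ [e], Z1, e, s.xs ++ [x], r', T', h4⟩, e, x, rfl, rfl, rfl, h1, h2, h3, h5⟩
  choose nx E X h1 h2 h3 h4 h5 h6 h7 using hnext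
  let s : ℕ → LS a A' := fun i => Nat.rec ⟨[], fun _ => false, 0, [], 1, 0, Lev_zero _⟩
    (fun _ s => nx s) i
  have hs : ∀ i, s (i + 1) = nx (s i) := fun i => rfl
  have hlen : ∀ i, (s i).es.length = i := by
    intro i
    induction i with
    | zero => rfl
    | succ i ih => rw [hs, h1, List.length_append, List.length_singleton, ih]
  have hL1 : ∀ i, (s i).T < (s (i + 1)).L := by
    intro i; rw [hs, h2]; exact h5 _
  have hLT : ∀ i, (s i).L ≤ (s i).T := fun i => (s i).h.l2
  have hLi : ∀ i, i ≤ (s i).L := by
    intro i
    induction i with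
    | zero => exact Nat.zero_le _
    | succ i ih => have := hL1 i; have := hLT i; omega
  have hLmono : ∀ i j, i ≤ j → (s i).L ≤ (s j).L := by
    intro i j hij
    induction j, hij using Nat.le_induction with
    | base => exact le_rfl
    | succ j _ ih => have := hL1 j; have := hLT j; omega
  have hpre : ∀ i j, i ≤ j → ∀ x, x < (s i).L → (s j).Z x = (s i).Z x := by
    intro i j hij
    induction j, hij using Nat.le_induction with
    | base => intro x _; rfl
    | succ j hij ih =>
      intro x hx
      rw [← ih x hx, hs]
      exact (pre_eq_iff.1 (h6 (s j))) x (lt_of_lt_of_le hx (hLmono i j hij))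
  let B : ℕ → Bool := fun x => (s (x + 1)).Z x
  have hB : ∀ i, pre (nb B) (s i).L = pre (nb (s i).Z) (s i).L := by
    intro i
    rw [pre_eq_iff]
    intro x hx
    rcases le_total i (x + 1) with h | h
    · exact hpre i (x + 1) h x hx
    · exact (hpre (x + 1) i h x (by have := hLi (x + 1); omega)).symm
  -- a witness at each level
  have hwit : ∀ i, ∃ Y : ℕ → Bool, (∀ x < (s i).L, Y x = B x) ∧
      Qb a (s i).xs (pre (nb (s i).Z) (s i).L) (pre (nb Y) (s i).T) = true := by
    intro i
    have hl5 := (s i).h.l5 (s i).T le_rfl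
    have hpos : 0 < cQ a (s i).xs (pre (nb (s i).Z) (s i).L) (s i).T := by
      rcases Nat.eq_zero_or_pos (cQ a (s i).xs (pre (nb (s i).Z) (s i).L) (s i).T) with h | h
      · rw [h, zero_mul] at hl5
        have : 0 < 2 ^ (s i).T := by positivity
        omega
      · exact h
    obtain ⟨c, _, hc⟩ := sumB_pos hpos
    have hc' : Qb a (s i).xs (pre (nb (s i).Z) (s i).L) (pre (nb (xc c)) (s i).T) = true := by
      cases hh : Qb a (s i).xs (pre (nb (s i).Z) (s i).L) (pre (nb (xc c)) (s i).T) with
      | true => rfl
      | false => rw [hh] at hc; simp at hc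
    refine ⟨xc c, ?_, hc'⟩
    unfold Qb at hc'
    simp only [Bool.and_eq_true, decide_eq_true_eq] at hc'
    have h8 := hc'.2.1
    rw [pre_length, tk_pre _ (hLT i), ← hB i, pre_eq_iff] at h8
    exact h8
  have hxs : ∀ k i, k + 1 ≤ i → (s i).xs.getD k 0 = (s (k + 1)).xs.getD k 0 := by
    intro k i hki
    induction i, hki using Nat.le_induction with
    | base => rfl
    | succ i hi ih =>
      rw [← ih, hs, h3]
      apply getD_app_lt
      rw [(s i).h.l1, hlen]
      omega
  refine ⟨B, ?_, ?_, ?_⟩
  · apply FR_of_Pl
    intro t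
    obtain ⟨Y, hY1, hY2⟩ := hwit t
    unfold Qb at hY2
    simp only [Bool.and_eq_true] at hY2
    have h8 := Pl_anti (nb Y) ((hLi t).trans (hLT t)) hY2.1
    rw [pre_eq_iff.2 (fun j hj => hY1 j (lt_of_lt_of_le hj (hLi t)))] at h8
    exact h8
  · intro hTR
    obtain ⟨k, hk⟩ := W_univ hTR
    obtain ⟨n, hn⟩ := (hk ((s (k + 1)).xs.getD k 0) _).1 rfl
    let i := max (k + 1) n
    obtain ⟨Y, hY1, hY2⟩ := hwit i
    have hki : k + 1 ≤ i := le_max_left _ _
    have hni : n ≤ i := le_max_right _ _
    unfold Qb at hY2
    simp only [Bool.and_eq_true] at hY2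
    have h8 := hY2.2.2
    unfold Rb at h8
    rw [allB_iff] at h8
    have hkl : k < (s i).xs.length := by rw [(s i).h.l1, hlen]; omega
    have h9 := h8 k hkl
    rw [pre_length, (s i).h.l4 k hkl (s i).T le_rfl, hxs k i hki] at h9
    simp only [Bool.not_eq_true', decide_eq_false_iff_not] at h9
    apply h9
    have h10 : pre (nb B) n = pre (nb Y) n :=
      pre_eq_iff.2 (fun j hj => (hY1 j (lt_of_lt_of_le hj (hni.trans (hLi i)))).symm)
    rw [h10] at hn
    exact W_mono k _ (hni.trans ((hLi i).trans (hLT i))) hn
  · have hdl : ∀ n t, (s n).L ≤ t → (dl a (pre (nb B) t) n).isSome = true := by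
      intro n t ht
      have := (s n).h.l6 B (hB n) t ht
      rw [hlen] at this
      rw [this]; rfl
    have hex : ∀ n, ∃ t, n ≤ t ∧ (dl a (pre (nb B) t) n).isSome = true :=
      fun n => ⟨(s n).L, hLi n, hdl n _ le_rfl⟩
    refine ⟨fun n => Nat.find (hex n), ?_, ?_⟩
    · let pb : List ℕ → ℕ → ℕ → Bool := fun σ x t => decide (x ≤ t) && (dl a (tk σ t) x).isSome
      refine cert (G := nb B) (TR.refl (nb B)) (fun σ x _ =>
        bif decide (fnd (pb σ x) (σ.length + 1) ≤ σ.length) then
          some (fnd (pb σ x) (σ.length + 1)) else none) ?_ _ ?_ ?_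
      · have c0 : Computable₂ (fun (q : (List ℕ × ℕ) × ℕ) (t : ℕ) => pb q.1.1 q.1.2 t) := by
          refine and_comp (le_comp (Computable.snd.comp (Computable.fst.comp Computable.fst))
            Computable.snd) (Primrec.option_isSome.to_comp.comp (dl_comp ha ?_ ?_))
          · exact tk_comp (Computable.fst.comp (Computable.fst.comp Computable.fst)) Computable.snd
          · exact Computable.snd.comp (Computable.fst.comp Computable.fst)
        have c1 : Computable (fun q : (List ℕ × ℕ) × ℕ => q.1.1.length) :=
          len_comp (Computable.fst.comp Computable.fst)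
        have c2 : Computable (fun q : (List ℕ × ℕ) × ℕ =>
            fnd (pb q.1.1 q.1.2) (q.1.1.length + 1)) := fnd_comp c0 (Computable.succ.comp c1)
        exact Computable.cond (le_comp c2 c1) (Computable.option_some.comp c2)
          (Computable.const none)
      · intro x
        refine ⟨Nat.find (hex x), 0, ?_⟩
        have h8 := Nat.find_spec (hex x)
        have h9 : fnd (pb (pre (nb B) (Nat.find (hex x))) x)
            ((pre (nb B) (Nat.find (hex x))).length + 1) ≤ Nat.find (hex x) := by
          rw [pre_length]
          rcases fnd_spec (pb (pre (nb B) (Nat.find (hex x))) x) (Nat.find (hex x) + 1) with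
            ⟨h10, _, _⟩ | ⟨h10, h11⟩
          · omega
          · exfalso
            have h12 := h11 (Nat.find (hex x)) (by omega)
            simp only [pb] at h12
            rw [tk_pre _ le_rfl, h8.2, decide_eq_true h8.1] at h12
            simp at h12
        have h10 : (pre (nb B) (Nat.find (hex x))).length = Nat.find (hex x) := pre_length _ _
        rw [decide_eq_true (by rw [h10] at h9 ⊢; exact h9)]
        rfl
      · intro x n w y hy
        cases hd : decide (fnd (pb (pre (nb B) n) x) ((pre (nb B) n).length + 1) ≤
            (pre (nb B) n).length) with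
        | false => rw [hd] at hy; simp at hy
        | true =>
          rw [hd] at hy
          simp only [cond_true, Option.some.injEq] at hy
          rw [decide_eq_true_eq, pre_length] at hd
          rw [pre_length] at hy
          rcases fnd_spec (pb (pre (nb B) n) x) (n + 1) with ⟨h10, h11, h12⟩ | ⟨h10, h11⟩
          · rw [hy] at h10 h11 h12
            symm
            rw [Nat.find_eq_iff]
            simp only [pb, Bool.and_eq_true, decide_eq_true_eq] at h11
            rw [tk_pre _ (by omega)] at h11
            refine ⟨h11, fun j hj hj2 => ?_⟩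
            have h13 := h12 j hj
            simp only [pb] at h13
            rw [tk_pre _ (by omega), hj2.2, decide_eq_true hj2.1] at h13
            simp at h13
          · omega
    · intro q N
      let i := Nat.pair q N
      have hiq : i.unpair.1 = q := by simp [i]
      have hiN : N ≤ i := Nat.right_le_pair q N
      have hnn : nn (s i) = Nat.pair q (max (s i).T (i + 1)) := by
        simp only [nn, hlen, hiq]
      have hn1 : max (s i).T (i + 1) ≤ nn (s i) := by rw [hnn]; exact Nat.right_le_pair _ _
      have hn2 : i + 1 ≤ nn (s i) := (le_max_right _ _).trans hn1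
      have hn3 : (s i).T ≤ nn (s i) := (le_max_left _ _).trans hn1
      refine ⟨nn (s i), by omega, by rw [hnn]; simp, ?_⟩
      have h8 := h4 (s i)
      have h9 : f0 (nn (s i)) < E (s i) := lt_of_le_of_lt (le_max_left _ _) h8
      refine lt_of_lt_of_le h9 ?_
      rw [Nat.le_find_iff]
      intro m hm hm2
      have h10 : pre (nb B) (E (s i)) = pre (nb (nx (s i)).Z) (E (s i)) := by
        have := hB (i + 1)
        rw [hs, h2] at this
        exact this
      have h11 := h7 (s i) B h10 m (hn3.trans hm2.1) hm
      rw [hlen] at h11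
      have h12 := dl_none hn2 h11
      rw [h12] at hm2
      simp at hm2

end Pool.Agent.H572R3
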