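import Mathlib
import Pool.Agent.H572R3.CaseB

set_option autoImplicit false

/-! From escaping functions to distance one. -/

namespace Pool.Agent.H572R3

open MeasureTheory Pool.Agent.Helper743 Nat Filter

lemma fac_prim : Primrec Nat.factorial := by
  have h : Primrec (fun n : ℕ => Nat.rec (motive := fun _ => ℕ) 1 (fun n ih => (n + 1) * ih) n) :=
    Primrec.nat_rec₁ 1 (f := fun n ih => (n + 1) * ih)
      (Primrec.nat_mul.comp (Primrec.succ.comp Primrec.fst) Primrec.snd)
  refine h.of_eq ?_
  intro n
  induction n with
  | zero => rfl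
  | succ n ih =>
    change (n + 1) * (Nat.rec (motive := fun _ => ℕ) 1 (fun n ih => (n + 1) * ih) n) = _
    rw [ih]; rfl

/-- the index of the interval containing `k` -/
def loc (k : ℕ) : ℕ := sumB (fun m => (decide (Nat.factorial (m + 1) ≤ k)).toNat) k

lemma loc_comp : Computable loc := by
  have h0 : Computable₂ (fun (k m : ℕ) => (decide (Nat.factorial (m + 1) ≤ k)).toNat) :=
    toNat_comp (le_comp (fac_prim.to_comp.comp (Computable.succ.comp Computable.snd))
      Computable.fst)
  exact sumB_comp h0 Computable.id

lemma loc_eq {m k : ℕ} (h1 : Nat.factorial m ≤ k) (h2 : k < Nat.factorial (m + 1)) :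
    loc k = m := by
  have hm : m ≤ k := (Nat.self_le_factorial m).trans h1
  unfold loc
  rw [sumB_eq]
  have h3 : ∀ x ∈ Finset.range k, (decide (Nat.factorial (x + 1) ≤ k)).toNat =
      if x < m then 1 else 0 := by
    intro x _
    by_cases hx : x < m
    · have : Nat.factorial (x + 1) ≤ k := (Nat.factorial_le (by omega)).trans h1
      simp [hx, this]
    · have : ¬ Nat.factorial (x + 1) ≤ k := by
        have := Nat.factorial_le (show m + 1 ≤ x + 1 by omega)
        omega
      simp [hx, this]
  rw [Finset.sum_congr rfl h3, ← Finset.card_filter]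
  have h4 : (Finset.range k).filter (fun x => x < m) = Finset.range m := by
    ext x
    simp only [Finset.mem_filter, Finset.mem_range]
    omega
  rw [h4, Finset.card_range]

lemma dlt_one {X Y : ℕ → Bool} (h : ∀ N, ∃ m, N ≤ m ∧ ∀ k, Nat.factorial m ≤ k →
    k < Nat.factorial (m + 1) → X k ≠ Y k) : 1 ≤ dlt X Y := by
  apply le_of_forall_pos_le_add
  intro ε hε
  rw [← sub_le_iff_le_add]
  unfold dlt
  apply le_limsup_of_frequently_le
  · rw [frequently_atTop]
    intro N
    obtain ⟨K, hK⟩ := exists_nat_gt (1 / ε)
    obtain ⟨m, hm, hm2⟩ := h (max (max N 1) K)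
    have hmN : N ≤ m := ((le_max_left _ _).trans (le_max_left _ _)).trans hm
    have hm1 : 1 ≤ m := ((le_max_right _ _).trans (le_max_left _ _)).trans hm
    have hmK : K ≤ m := (le_max_right _ _).trans hm
    refine ⟨Nat.factorial (m + 1), ?_, ?_⟩
    · have := Nat.self_le_factorial (m + 1)
      omega
    · unfold dis
      have hcard : (m + 1).factorial - m.factorial ≤
          ((Finset.range (m + 1).factorial).filter (fun k => X k ≠ Y k)).card := by
        have hsub : Finset.Ico m.factorial (m + 1).factorial ⊆
            (Finset.range (m + 1).factorial).filter (fun k => X k ≠ Y k) := by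
          intro k hk
          rw [Finset.mem_Ico] at hk
          rw [Finset.mem_filter, Finset.mem_range]
          exact ⟨hk.2, hm2 k hk.1 hk.2⟩
        have := Finset.card_le_card hsub
        rwa [Nat.card_Ico] at this
      have hle : m.factorial ≤ (m + 1).factorial := Nat.factorial_le (by omega)
      have hpos : (0 : ℝ) < ((m + 1).factorial : ℝ) := by exact_mod_cast Nat.factorial_pos _
      rw [le_div_iff₀ hpos]
      have hc2 : ((m + 1).factorial : ℝ) - (m.factorial : ℝ) ≤
          (((Finset.range (m + 1).factorial).filter (fun k => X k ≠ Y k)).card : ℝ) := by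
        rw [← Nat.cast_sub hle]
        exact_mod_cast hcard
      refine le_trans ?_ hc2
      have hfac : ((m + 1).factorial : ℝ) = ((m : ℝ) + 1) * (m.factorial : ℝ) := by
        rw [Nat.factorial_succ]; push_cast; ring
      have hmf : (0 : ℝ) < (m.factorial : ℝ) := by exact_mod_cast Nat.factorial_pos _
      have hεm : 1 ≤ ε * ((m : ℝ) + 1) := by
        have h5 : (K : ℝ) ≤ m := by exact_mod_cast hmK
        have h6 : 1 / ε < (m : ℝ) + 1 := by linarith
        rw [div_lt_iff₀ hε] at h6
        linarith
      rw [hfac]
      nlinarith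
  · exact bdd_le X Y

lemma prea_comp {a : ℕ → ℕ → ℕ} (ha : Computable₂ a) :
    Computable (fun s => pre (fun x => a x s) s) := by
  have h := Computable.nat_rec (Computable.id (α := ℕ)) (Computable.const ([] : List ℕ))
    (h := fun (s : ℕ) (q : ℕ × List ℕ) => q.2 ++ [a q.1 s]) (by
      exact Computable.list_concat.comp (Computable.snd.comp Computable.snd)
        (ha.comp (Computable.fst.comp Computable.snd) Computable.fst))
  refine h.of_eq ?_
  intro s
  have : ∀ n, Nat.rec (motive := fun _ => List ℕ) [] (fun y IH => IH ++ [a y s]) n =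
      pre (fun x => a x s) n := by
    intro n
    induction n with
    | zero => rfl
    | succ n ih =>
      rw [pre_succ, ← ih]
  exact this s

theorem distB {A : ℕ → Bool} {a : ℕ → ℕ → ℕ} (ha : Computable₂ a)
    (hlim : ∀ x, ∃ T, ∀ t, T ≤ t → a x t = nb A x) (hA : ¬ Computable (nb A)) :
    ∃ B : ℕ → Bool, FR B ∧ ¬ BR A B ∧ ∃ Y, BR Y B ∧ ∀ X, BR X A → 1 ≤ dlt X Y := by
  classical
  let ap : ℕ → ℕ → ℕ → Option ℕ := fun i k s => W i (pre (fun x => a x s) s, k)
  let S : ℕ → ℕ → ℕ := fun i k => if h : ∃ S y, ∀ s, S ≤ s → ap i k s = some y then h.choose else 0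
  let f0 : ℕ → ℕ := fun m => (Finset.range (Nat.factorial (m + 1))).sup (fun k => S m.unpair.1 k)
  obtain ⟨B, hB1, hB2, g, hg1, hg2⟩ := caseB ha hlim hA f0
  let Yb : ℕ → Bool := fun k => !(decide (ap (loc k).unpair.1 k (g (loc k)) = some 1))
  refine ⟨B, hB1, hB2, Yb, ?_, ?_⟩
  · -- reducibility
    have c1 : Computable (fun z : ℕ =>
        (!(decide (ap (loc z.unpair.1).unpair.1 z.unpair.1 z.unpair.2 = some 1))).toNat) := by
      refine toNat_comp (not_comp (optEq_comp (W_comp3 ?_ ?_ ?_) (Computable.const (some 1))))
      · exact unp1_comp (loc_comp.comp (unp1_comp Computable.id))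
      · exact (prea_comp ha).comp (unp2_comp Computable.id)
      · exact unp1_comp Computable.id
    have r1 : RecT {(nb B : ℕ →. ℕ)} (fun n => Nat.pair n (g (loc n))) :=
      RecT.pair (Computable.recT Computable.id) (RecT.comp hg1 (Computable.recT loc_comp))
    have r2 := (Computable.recT (O := {(nb B : ℕ →. ℕ)}) c1).comp r1
    refine Nat.RecursiveIn.of_eq r2 ?_
    intro n
    simp only [Nat.unpair_pair]
    rfl
  · intro X hX
    obtain ⟨i, hi⟩ := W_univ hX
    have hset : ∀ k, ∀ s, S i k ≤ s → ap i k s = some (nb X k) := by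
      intro k
      have hex : ∃ S, ∀ s, S ≤ s → ap i k s = some (nb X k) := by
        obtain ⟨n, hn⟩ := (hi k _).1 rfl
        choose T hT using hlim
        refine ⟨max n ((Finset.range n).sup T), fun s hs => ?_⟩
        have h1 : pre (fun x => a x s) n = pre (nb A) n := by
          unfold pre
          apply List.map_congr_left
          intro x hx
          apply hT x s
          exact (Finset.le_sup (f := T) (Finset.mem_range.2 (List.mem_range.1 hx))).trans
            ((le_max_right _ _).trans hs)
        rw [← h1] at hn
        exact W_mono i _ ((le_max_left _ _).trans hs) hn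
      have hex2 : ∃ S y, ∀ s, S ≤ s → ap i k s = some y := by
        obtain ⟨S, hS⟩ := hex
        exact ⟨S, _, hS⟩
      have hSd : S i k = hex2.choose := by simp only [S]; rw [dif_pos hex2]
      obtain ⟨y, hy⟩ := hex2.choose_spec
      intro s hs
      rw [hSd] at hs
      obtain ⟨S', hS'⟩ := hex
      have h2 := hy (max hex2.choose S') (le_max_left _ _)
      have h3 := hS' (max hex2.choose S') (le_max_right _ _)
      rw [h2] at h3
      rw [hy s hs, h3]
    apply dlt_one
    intro N
    obtain ⟨n, hn1, hn2, hn3⟩ := hg2 i N
    refine ⟨n, hn1, fun k hk1 hk2 => ?_⟩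
    have hl := loc_eq hk1 hk2
    have h4 : S i k ≤ f0 n := by
      have : S n.unpair.1 k ≤ f0 n :=
        Finset.le_sup (f := fun k => S n.unpair.1 k) (Finset.mem_range.2 hk2)
      rwa [hn2] at this
    have h5 : Yb k = !(X k) := by
      simp only [Yb, hl, hn2]
      rw [hset k (g n) (by omega)]
      unfold nb
      cases X k <;> simp
    rw [h5]
    cases X k <;> simp

/-- the conclusion from a suitable pair -/
lemma pre_list (A : ℕ → Bool) (n : ℕ) : (List.range n).map A = List.ofFn (fun i : Fin n => A i) := by
  apply List.ext_getElem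
  · simp
  · intro i h1 h2
    simp

lemma FR_noncomp {A : ℕ → Bool} (hA : FR A) : ¬ Computable (nb A) := by
  intro hc
  have hcA : Computable A := by
    have h1 : Computable (fun n => decide (nb A n = 1)) :=
      Primrec.eq.decide.to_comp.comp hc (Computable.const 1)
    refine h1.of_eq (fun n => ?_)
    unfold nb
    cases A n <;> simp
  have hpre : Computable (fun n => (List.range n).map A) := by
    have h := Computable.nat_rec (Computable.id (α := ℕ)) (Computable.const ([] : List Bool))
      (h := fun (_ : ℕ) (q : ℕ × List Bool) => q.2 ++ [A q.1]) (by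
        exact Computable.list_concat.comp (Computable.snd.comp Computable.snd)
          (hcA.comp (Computable.fst.comp Computable.snd)))
    refine h.of_eq ?_
    intro n
    induction n with
    | zero => rfl
    | succ n ih =>
      rw [List.range_succ, List.map_append]
      simp only [List.map_cons, List.map_nil]
      rw [← ih]
      rfl
  have hf : Computable (fun k => some (k, (List.range k).map A) : ℕ → Option (ℕ × List Bool)) :=
    Computable.option_some.comp (Computable.id.pair hpre)
  obtain ⟨n, hn⟩ := hA _ hf (by
    intro n L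
    by_cases hnL : n ≤ L
    · have h1 : {τ : Fin L → Bool | ∃ k : ℕ, ∃ σ : List Bool,
          some (k, (List.range k).map A) = some (n, σ) ∧ List.IsPrefix σ (List.ofFn τ)}.ncard ≤
          2 ^ (L - n) := by
        have h2 : (Set.univ : Set (Fin (L - n) → Bool)).ncard = 2 ^ (L - n) := by
          rw [Set.ncard_univ]; simp
        rw [← h2]
        refine Set.ncard_le_ncard_of_injOn
          (fun τ (j : Fin (L - n)) => τ ⟨n + j, by have := j.2; omega⟩) (fun _ _ => Set.mem_univ _)
          ?_ (Set.toFinite _)
        have hp : ∀ τ : Fin L → Bool, (∃ k : ℕ, ∃ σ : List Bool,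
          some (k, (List.range k).map A) = some (n, σ) ∧ List.IsPrefix σ (List.ofFn τ)) →
          ∀ j : Fin L, (j : ℕ) < n → τ j = A j := by
          rintro τ ⟨k, σ, h3, h4⟩ j hj
          simp only [Option.some.injEq, Prod.mk.injEq] at h3
          obtain ⟨rfl, rfl⟩ := h3
          have h5 := h4.getElem (i := j) (by simpa using hj)
          simp at h5
          exact h5.symm
        intro τ hτ τ' hτ' heq
        funext j
        by_cases hj : (j : ℕ) < n
        · rw [hp τ hτ j hj, hp τ' hτ' j hj]
        · have := congrFun heq ⟨(j : ℕ) - n, by have := j.2; omega⟩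
          simp only at this
          have hj2 : (⟨n + ((j : ℕ) - n), by have := j.2; omega⟩ : Fin L) = j := by
            apply Fin.ext
            simp only
            omega
          rwa [hj2] at this
      calc _ ≤ 2 ^ (L - n) * 2 ^ n := Nat.mul_le_mul_right _ h1
        _ = 2 ^ L := by rw [← pow_add]; congr 1; omega
    · have h1 : {τ : Fin L → Bool | ∃ k : ℕ, ∃ σ : List Bool,
          some (k, (List.range k).map A) = some (n, σ) ∧ List.IsPrefix σ (List.ofFn τ)} = ∅ := by
        rw [Set.eq_empty_iff_forall_notMem]
        rintro τ ⟨k, σ, h3, h4⟩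
        simp only [Option.some.injEq, Prod.mk.injEq] at h3
        obtain ⟨rfl, rfl⟩ := h3
        have := h4.length_le
        simp at this
        omega
      rw [h1]
      simp)
  have := hn n ((List.range n).map A) rfl
  apply this
  rw [pre_list]
  apply List.ext_getElem
  · simp
  · intro i h1 h2
    simp

end Pool.Agent.H572R3
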