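import Mathlib
import Pool.Agent.H572R3.Dist2

set_option autoImplicit false

/-! Lower bounds for the measure of the tree of randoms. -/

namespace Pool.Agent.H572R3

open MeasureTheory Pool.Agent.Helper743

/-- uniform version of `FR_of_Pl` -/
lemma FRu {f : ℕ → Option (ℕ × List Bool)} (hf : Computable f)
    (hT : ∀ n L : ℕ, {τ : Fin L → Bool | ∃ k : ℕ, ∃ σ : List Bool,
          f k = some (n, σ) ∧ List.IsPrefix σ (List.ofFn τ)}.ncard * 2 ^ n ≤ 2 ^ L) :
    ∃ n : ℕ, ∀ Z : ℕ → Bool, (∀ t, Pl (pre (nb Z) t) = true) → ∀ k : ℕ, ∀ σ : List Bool,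
      f k = some (n, σ) → σ.map Bool.toNat ≠ pre (nb Z) σ.length := by
  classical
  obtain ⟨e, he⟩ := exists_index hf
  refine ⟨e + 2, fun Z h k σ hk hσ => ?_⟩
  obtain ⟨s0, hs0⟩ := (he k (e + 2, σ)).1 hk
  rw [show Encodable.encode k = k from rfl] at hs0
  let t := max s0 (max (k + 1) (max σ.length (e + 1)))
  have ht1 : s0 ≤ t := le_max_left _ _
  have ht2 : k + 1 ≤ t := (le_max_left _ _).trans (le_max_right _ _)
  have ht3 : σ.length ≤ t := (le_max_left _ _).trans ((le_max_right _ _).trans (le_max_right _ _))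
  have ht4 : e + 1 ≤ t := (le_max_right _ _).trans ((le_max_right _ _).trans (le_max_right _ _))
  have hSB : SB e t (pre (nb Z) t) = true := by
    rw [SB_iff]
    refine ⟨k, by omega, σ, uev_mono _ ht1 hs0, ht3, ?_⟩
    rw [tk_pre _ ht3, hσ]
  have hok : okB e t = true := by
    unfold okB
    rw [decide_eq_true_eq]
    refine le_trans (Nat.mul_le_mul_right _ ?_) (hT (e + 2) t)
    rw [sumB_eq]
    have h1 : ∑ c ∈ Finset.range (2 ^ t), (SB e t (pre (nb (xc c)) t)).toNat =
        ((Finset.range (2 ^ t)).filter (fun c => SB e t (pre (nb (xc c)) t) = true)).card := by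
      rw [Finset.card_filter]
      apply Finset.sum_congr rfl
      intro c _
      cases SB e t (pre (nb (xc c)) t) <;> simp
    rw [h1, ← Set.ncard_coe_finset]
    refine Set.ncard_le_ncard_of_injOn (fun c (j : Fin t) => xc c j) ?_ ?_ (Set.toFinite _)
    · intro c hc
      simp only [Finset.coe_filter, Finset.mem_range, Set.mem_ofPred_eq] at hc
      obtain ⟨k', hk', ρ, h2, h3, h4⟩ := (SB_iff _ _ _).1 hc.2
      rw [tk_pre _ h3, map_toNat_iff] at h4
      refine ⟨k', ρ, (he k' (e + 2, ρ)).2 ⟨t, h2⟩, ?_⟩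
      rw [List.prefix_iff_eq_take]
      apply List.ext_getElem
      · simp [h3]
      · intro i h5 h6
        rw [h4 i h5]
        simp
    · intro c hc c' hc' hcc
      simp only [Finset.coe_filter, Finset.mem_range, Set.mem_ofPred_eq] at hc hc'
      exact xc_inj hc.1 hc'.1 (fun j hj => congrFun hcc ⟨j, hj⟩)
  have hbad : badB e (pre (nb Z) t) = true := by
    unfold badB
    rw [anyB_iff]
    refine ⟨t, by simp, ?_⟩
    rw [hok, hSB]; rfl
  have h2 := h t
  unfold Pl at h2
  rw [allB_iff] at h2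
  have h3 := h2 e (by rw [pre_length]; omega)
  rw [hbad] at h3
  simp at h3

/-- the number of extensions of `σ` of length `s` on the tree -/
def cn (σ : List ℕ) (s : ℕ) : ℕ :=
  sumB (fun d => (Pl (pre (nb (xc d)) s) &&
    decide (tk (pre (nb (xc d)) s) σ.length = σ)).toNat) (2 ^ s)

lemma cn_comp {α : Type*} [Primcodable α] {f : α → List ℕ} {g : α → ℕ} (hf : Computable f)
    (hg : Computable g) : Computable (fun z => cn (f z) (g z)) := by
  have h0 : Computable₂ (fun (z : α) (d : ℕ) => (Pl (pre (nb (xc d)) (g z)) &&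
    decide (tk (pre (nb (xc d)) (g z)) (f z).length = f z)).toNat) := by
    have h1 : Computable (fun q : α × ℕ => pre (nb (xc q.2)) (g q.1)) :=
      prexc_comp Computable.snd (hg.comp Computable.fst)
    exact toNat_comp (and_comp (Pl_comp1 h1) (listEq_comp (tk_comp h1
      (len_comp (hf.comp Computable.fst))) (hf.comp Computable.fst)))
  exact sumB_comp h0 (pow2_comp hg)

attribute [irreducible] cn

lemma cn_meas (σ : List ℕ) (s : ℕ) : coin.real {X | Pl (pre (nb X) s) = true ∧
    tk (pre (nb X) s) σ.length = σ} = (cn σ s : ℝ) / 2 ^ s := by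
  unfold cn
  rw [← coin_count s (fun ρ => Pl ρ && decide (tk ρ σ.length = σ))]
  congr 1
  ext X
  simp

def sm (m n c s : ℕ) : Bool := decide (cn (pre (nb (xc c)) n) s * 2 ^ (m + 2 * n + 1) < 2 ^ s)

/-- first small stage -/
def fsm (m n c s : ℕ) : Bool :=
  decide (n ≤ s) && (sm m n c s && allB (fun s' => decide (s' < n) || !(sm m n c s')) s)

def kcond (m n c s d : ℕ) : Bool :=
  decide (c < 2 ^ n) && (fsm m n c s && (Pl (pre (nb (xc d)) s) &&
    decide (tk (pre (nb (xc d)) s) n = pre (nb (xc c)) n)))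

def bl (d s : ℕ) : List Bool := (List.range s).map (xc d)

/-- the test -/
def kt (j : ℕ) : Option (ℕ × List Bool) :=
  bif kcond j.unpair.1 j.unpair.2.unpair.1 j.unpair.2.unpair.2.unpair.1
      j.unpair.2.unpair.2.unpair.2.unpair.1 j.unpair.2.unpair.2.unpair.2.unpair.2
  then some (j.unpair.1, bl j.unpair.2.unpair.2.unpair.2.unpair.2
    j.unpair.2.unpair.2.unpair.2.unpair.1) else none

section wr
variable {α : Type*} [Primcodable α] {f g h i j : α → ℕ}

lemma sm_comp (hf : Computable f) (hg : Computable g) (hh : Computable h) (hi : Computable i) :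
    Computable (fun z => sm (f z) (g z) (h z) (i z)) :=
  lt_comp (mul_comp (cn_comp (prexc_comp hh hg) hi) (pow2_comp (Computable.succ.comp
    (add_comp hf (mul_comp (Computable.const 2) hg))))) (pow2_comp hi)

lemma fsm_comp (hf : Computable f) (hg : Computable g) (hh : Computable h) (hi : Computable i) :
    Computable (fun z => fsm (f z) (g z) (h z) (i z)) := by
  refine and_comp (le_comp hg hi) (and_comp (sm_comp hf hg hh hi) ?_)
  refine allB_comp (p := fun (z : α) (s : ℕ) => decide (s < g z) ||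
    !(sm (f z) (g z) (h z) s)) ?_ hi
  exact or_comp (lt_comp Computable.snd (hg.comp Computable.fst))
    (not_comp (sm_comp (hf.comp Computable.fst) (hg.comp Computable.fst)
      (hh.comp Computable.fst) Computable.snd))

lemma kcond_comp (hf : Computable f) (hg : Computable g) (hh : Computable h) (hi : Computable i)
    (hj : Computable j) : Computable (fun z => kcond (f z) (g z) (h z) (i z) (j z)) :=
  and_comp (lt_comp hh (pow2_comp hg)) (and_comp (fsm_comp hf hg hh hi)
    (and_comp (Pl_comp1 (prexc_comp hj hi)) (listEq_comp (tk_comp (prexc_comp hj hi) hg)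
      (prexc_comp hh hg))))

lemma bl_comp (hf : Computable f) (hg : Computable g) : Computable (fun z => bl (f z) (g z)) := by
  have h0 : Primrec₂ bl := by
    refine Primrec.list_map (Primrec.list_range.comp Primrec.snd) ?_
    exact xc_prim.comp (Primrec.fst.comp Primrec.fst) Primrec.snd
  exact h0.to_comp.comp hf hg

end wr

lemma kt_comp : Computable kt := by
  have u1 : Computable (fun j : ℕ => j.unpair.1) := unp1_comp Computable.id
  have u2 : Computable (fun j : ℕ => j.unpair.2.unpair.1) := unp1_comp (unp2_comp Computable.id)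
  have v2 : Computable (fun j : ℕ => j.unpair.2.unpair.2) := unp2_comp (unp2_comp Computable.id)
  have u3 : Computable (fun j : ℕ => j.unpair.2.unpair.2.unpair.1) := unp1_comp v2
  have v3 : Computable (fun j : ℕ => j.unpair.2.unpair.2.unpair.2) := unp2_comp v2
  have u4 : Computable (fun j : ℕ => j.unpair.2.unpair.2.unpair.2.unpair.1) := unp1_comp v3
  have u5 : Computable (fun j : ℕ => j.unpair.2.unpair.2.unpair.2.unpair.2) := unp2_comp v3
  exact Computable.cond (kcond_comp u1 u2 u3 u4 u5)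
    (Computable.option_some.comp (u1.pair (bl_comp u5 u4))) (Computable.const none)

lemma fsm_iff (m n c s : ℕ) : fsm m n c s = true ↔ n ≤ s ∧ sm m n c s = true ∧
    ∀ s', n ≤ s' → s' < s → sm m n c s' = false := by
  unfold fsm
  rw [Bool.and_eq_true, Bool.and_eq_true, allB_iff, decide_eq_true_eq]
  refine and_congr_right (fun _ => and_congr_right (fun _ => ?_))
  constructor
  · intro h s' h1 h2
    have := h s' h2
    simp only [Bool.or_eq_true, decide_eq_true_eq, Bool.not_eq_true'] at this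
    rcases this with h3 | h3
    · omega
    · exact h3
  · intro h s' h2
    simp only [Bool.or_eq_true, decide_eq_true_eq, Bool.not_eq_true']
    by_cases h3 : s' < n
    · exact Or.inl h3
    · exact Or.inr (h s' (by omega) h2)

lemma fsm_unique {m n c s s' : ℕ} (h : fsm m n c s = true) (h' : fsm m n c s' = true) : s = s' := by
  rw [fsm_iff] at h h'
  rcases lt_trichotomy s s' with h1 | h1 | h1
  · have := h'.2.2 s h.1 h1
    rw [h.2.1] at this; simp at this
  · exact h1
  · have := h.2.2 s' h'.1 h1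
    rw [h'.2.1] at this; simp at this

/-- the piece for `n, c` -/
def Vs (m n c : ℕ) : Set (ℕ → Bool) :=
  {X | ∃ s, fsm m n c s = true ∧ Pl (pre (nb X) s) = true ∧
    tk (pre (nb X) s) n = pre (nb (xc c)) n}

lemma Vs_meas (m n c : ℕ) : coin.real (Vs m n c) ≤ (1 / 2) ^ (m + 2 * n + 1) := by
  by_cases h : ∃ s, fsm m n c s = true
  · obtain ⟨s, hs⟩ := h
    have h1 : Vs m n c ⊆ {X | Pl (pre (nb X) s) = true ∧
        tk (pre (nb X) s) (pre (nb (xc c)) n).length = pre (nb (xc c)) n} := by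
      rintro X ⟨s', h2, h3, h4⟩
      rw [fsm_unique h2 hs] at h3 h4
      simp only [Set.mem_ofPred_eq, pre_length]
      exact ⟨h3, h4⟩
    refine (measureReal_mono h1).trans ?_
    rw [cn_meas]
    have h2 := ((fsm_iff _ _ _ _).1 hs).2.1
    unfold sm at h2
    rw [decide_eq_true_eq] at h2
    exact ((half_pow_mul (cn (pre (nb (xc c)) n) s) (m + 2 * n) s).2 h2).le
  · have : Vs m n c = ∅ := by
      rw [Set.eq_empty_iff_forall_notMem]
      rintro X ⟨s, hs, _⟩
      exact h ⟨s, hs⟩
    rw [this]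
    simp

lemma bl_map (d s : ℕ) : (bl d s).map Bool.toNat = pre (nb (xc d)) s := by
  unfold bl pre nb
  rw [List.map_map]
  rfl

lemma kt_some {j m : ℕ} {σ : List Bool} (h : kt j = some (m, σ)) : ∃ n c s d,
    c < 2 ^ n ∧ fsm m n c s = true ∧ Pl (pre (nb (xc d)) s) = true ∧
    tk (pre (nb (xc d)) s) n = pre (nb (xc c)) n ∧ σ = bl d s := by
  unfold kt at h
  cases hk : kcond j.unpair.1 j.unpair.2.unpair.1 j.unpair.2.unpair.2.unpair.1
      j.unpair.2.unpair.2.unpair.2.unpair.1 j.unpair.2.unpair.2.unpair.2.unpair.2 with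
  | false => rw [hk] at h; simp at h
  | true =>
    rw [hk] at h
    simp only [cond_true, Option.some.injEq, Prod.mk.injEq] at h
    unfold kcond at hk
    simp only [Bool.and_eq_true, decide_eq_true_eq] at hk
    rw [h.1] at hk
    exact ⟨_, _, _, _, hk.1, hk.2.1, hk.2.2.1, hk.2.2.2, h.2.symm⟩

lemma sum_geo2 (m L : ℕ) : ∑ n ∈ Finset.range L, ∑ _c ∈ Finset.range (2 ^ n),
    ((1 : ℝ) / 2) ^ (m + 2 * n + 1) ≤ (1 / 2) ^ m := by
  have h1 : ∀ n ∈ Finset.range L, ∑ _c ∈ Finset.range (2 ^ n),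
      ((1 : ℝ) / 2) ^ (m + 2 * n + 1) = (1 / 2) ^ m * (1 / 2) ^ (n + 1) := by
    intro n _
    rw [Finset.sum_const, Finset.card_range, nsmul_eq_mul]
    have h2 : ((1 : ℝ) / 2) ^ n * 2 ^ n = 1 := by rw [← mul_pow]; norm_num
    push_cast
    calc (2 : ℝ) ^ n * (1 / 2) ^ (m + 2 * n + 1)
        = ((1 / 2) ^ n * 2 ^ n) * ((1 / 2) ^ m * (1 / 2) ^ (n + 1)) := by ring
      _ = _ := by rw [h2, one_mul]
  rw [Finset.sum_congr rfl h1, ← Finset.mul_sum]
  have h3 : ∑ n ∈ Finset.range L, ((1 : ℝ) / 2) ^ (n + 1) = 1 - (1 / 2) ^ L := by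
    induction L with
    | zero => norm_num
    | succ L ih =>
      rw [Finset.sum_range_succ, ih (fun n hn => h1 n (by
        rw [Finset.mem_range] at hn ⊢; omega))]
      ring
  rw [h3]
  have h4 : (0 : ℝ) < (1 / 2) ^ L := by positivity
  have h5 : (0 : ℝ) < (1 / 2) ^ m := by positivity
  nlinarith

lemma kt_test (m L : ℕ) : {τ : Fin L → Bool | ∃ k : ℕ, ∃ σ : List Bool,
    kt k = some (m, σ) ∧ List.IsPrefix σ (List.ofFn τ)}.ncard * 2 ^ m ≤ 2 ^ L := by
  classical
  set S : Set (Fin L → Bool) := {τ : Fin L → Bool | ∃ k : ℕ, ∃ σ : List Bool,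
    kt k = some (m, σ) ∧ List.IsPrefix σ (List.ofFn τ)} with hS
  have hsub : {X : ℕ → Bool | (fun i : Fin L => X i) ∈ S} ⊆
      ⋃ n ∈ Finset.range (L + 1), ⋃ c ∈ Finset.range (2 ^ n), Vs m n c := by
    rintro X ⟨k, σ, h1, h2⟩
    obtain ⟨n, c, s, d, h3, h4, h5, h6, h7⟩ := kt_some h1
    have hsL : s ≤ L := by
      have := h2.length_le
      rw [h7] at this
      simpa [bl] using this
    have hns : n ≤ s := ((fsm_iff _ _ _ _).1 h4).1
    have hXd : ∀ j < s, xc d j = X j := by
      intro j hj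
      have h8 := h2.getElem (i := j) (by rw [h7]; simpa [bl] using hj)
      simp only [h7, bl, List.getElem_map, List.getElem_range, List.getElem_ofFn] at h8
      exact h8
    have hpre : pre (nb (xc d)) s = pre (nb X) s := pre_eq_iff.2 hXd
    simp only [Set.mem_iUnion, Finset.mem_range]
    exact ⟨n, by omega, c, h3, s, h4, by rw [← hpre]; exact h5, by rw [← hpre]; exact h6⟩
  have h1 : coin.real {X : ℕ → Bool | (fun i : Fin L => X i) ∈ S} ≤ (1 / 2) ^ m := by
    refine (measureReal_mono hsub (measure_ne_top _ _)).trans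
      ((measureReal_biUnion_finset_le _ _).trans (le_trans ?_ (sum_geo2 m (L + 1))))
    apply Finset.sum_le_sum
    intro n _
    refine (measureReal_biUnion_finset_le _ _).trans (Finset.sum_le_sum (fun c _ => Vs_meas m n c))
  rw [Measure.real, coin_ncard, ENNReal.toReal_mul] at h1
  have h2 : ((S.ncard : ENNReal)).toReal = (S.ncard : ℝ) := by simp
  have h3 : (((1 : ENNReal) / 2) ^ L).toReal = (1 / 2 : ℝ) ^ L := by simp
  rw [h2, h3] at h1
  have h4 : (S.ncard : ℝ) * 2 ^ m ≤ 2 ^ L := by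
    rw [div_pow, div_pow, one_pow, one_pow, ← div_eq_mul_one_div,
      div_le_div_iff₀ (by positivity) (by positivity), one_mul] at h1
    exact h1
  exact_mod_cast h4

lemma kt_val {m n c s d : ℕ} (h : kcond m n c s d = true) :
    kt (Nat.pair m (Nat.pair n (Nat.pair c (Nat.pair s d)))) = some (m, bl d s) := by
  unfold kt
  simp only [Nat.unpair_pair]
  rw [h, cond_true]

lemma kcond_true {m n c s d : ℕ} (h1 : c < 2 ^ n) (h2 : fsm m n c s = true)
    (h3 : Pl (pre (nb (xc d)) s) = true)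
    (h4 : tk (pre (nb (xc d)) s) n = pre (nb (xc c)) n) : kcond m n c s d = true := by
  unfold kcond
  simp only [Bool.and_eq_true, decide_eq_true_eq]
  exact ⟨h1, h2, h3, h4⟩

lemma exists_fsm {m n c s : ℕ} (hns : n ≤ s) (h : sm m n c s = true) : ∃ s', fsm m n c s' = true := by
  classical
  have hex : ∃ s, n ≤ s ∧ sm m n c s = true := ⟨s, hns, h⟩
  refine ⟨Nat.find hex, ?_⟩
  have hsp := Nat.find_spec hex
  rw [fsm_iff]
  refine ⟨hsp.1, hsp.2, fun s' h1 h2 => ?_⟩
  have := Nat.find_min hex h2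
  rw [← Bool.not_eq_true]
  exact fun h3 => this ⟨h1, h3⟩

attribute [irreducible] kt kcond fsm sm bl

/-- Kucera's lower bound -/
theorem kucera : ∃ m : ℕ, ∀ Z : ℕ → Bool, (∀ t, Pl (pre (nb Z) t) = true) → ∀ n s, n ≤ s →
    2 ^ s ≤ cn (pre (nb Z) n) s * 2 ^ (m + 2 * n + 1) := by
  obtain ⟨m, hm⟩ := FRu kt_comp kt_test
  refine ⟨m, fun Z hZ n s hns => ?_⟩
  by_contra hcon
  rw [not_le] at hcon
  obtain ⟨c, hc, hcZ⟩ := exists_xc Z n
  have hpc : pre (nb (xc c)) n = pre (nb Z) n := pre_eq_iff.2 hcZ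
  have hsm : sm m n c s = true := by
    unfold sm
    rw [hpc]
    exact decide_eq_true hcon
  obtain ⟨s', hfs⟩ := exists_fsm hns hsm
  have hns' : n ≤ s' := ((fsm_iff _ _ _ _).1 hfs).1
  obtain ⟨d, hd, hdZ⟩ := exists_xc Z s'
  have hpd : pre (nb (xc d)) s' = pre (nb Z) s' := pre_eq_iff.2 hdZ
  have hkc : kcond m n c s' d = true := by
    apply kcond_true hc hfs
    · rw [hpd]; exact hZ _
    · rw [hpd, tk_pre _ hns', hpc]
  have hlen : (bl d s').length = s' := by
    have := congrArg List.length (bl_map d s')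
    simpa using this
  apply hm Z hZ _ _ (kt_val hkc)
  rw [bl_map, hpd, hlen]

end Pool.Agent.H572R3
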