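import Mathlib
import Pool.Agent.H572R3.KG1

set_option autoImplicit false

/-! Selection of leftmost and rightmost extendible strings. -/

namespace Pool.Agent.H572R3

open MeasureTheory Pool.Agent.Helper743

def PP (Z : ℕ → Bool) : Prop := ∀ t, Pl (pre (nb Z) t) = true

def al (σ : List ℕ) (s : ℕ) : Bool := decide (0 < cn σ s)

lemma al_iff (σ : List ℕ) (s : ℕ) : al σ s = true ↔
    ∃ Z : ℕ → Bool, Pl (pre (nb Z) s) = true ∧ tk (pre (nb Z) s) σ.length = σ := by
  unfold al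
  rw [decide_eq_true_eq]
  unfold cn
  constructor
  · intro h
    obtain ⟨c, _, hc⟩ := sumB_pos h
    refine ⟨xc c, ?_⟩
    cases hb : (Pl (pre (nb (xc c)) s) && decide (tk (pre (nb (xc c)) s) σ.length = σ)) with
    | false => rw [hb] at hc; simp at hc
    | true =>
      simp only [Bool.and_eq_true, decide_eq_true_eq] at hb
      exact hb
  · rintro ⟨Z, h1, h2⟩
    obtain ⟨c, hc, hcZ⟩ := exists_xc Z s
    have h3 : pre (nb (xc c)) s = pre (nb Z) s := pre_eq_iff.2 hcZ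
    refine lt_of_lt_of_le ?_ (le_sumB _ hc)
    rw [h3, h1, h2]
    simp

lemma al_anti {σ : List ℕ} {s s' : ℕ} (h0 : σ.length ≤ s) (h : s ≤ s') (h1 : al σ s' = true) :
    al σ s = true := by
  rw [al_iff] at h1 ⊢
  obtain ⟨Z, h2, h3⟩ := h1
  refine ⟨Z, Pl_anti _ h h2, ?_⟩
  rw [tk_pre _ h0]
  rwa [tk_pre _ (h0.trans h)] at h3

lemma al_path {Z : ℕ → Bool} (hZ : PP Z) {n s : ℕ} (h : n ≤ s) : al (pre (nb Z) n) s = true := by
  rw [al_iff]
  refine ⟨Z, hZ s, ?_⟩
  rw [pre_length, tk_pre _ h]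

lemma closed_fin (t : ℕ) (P : (ℕ → Bool) → Prop)
    (hP : ∀ X Y : ℕ → Bool, (∀ j < t, X j = Y j) → (P X ↔ P Y)) : IsClosed {X | P X} := by
  have h : {X : ℕ → Bool | P X} = (fun (X : ℕ → Bool) (i : Fin t) => X i) ⁻¹'
      {x : Fin t → Bool | P (fun j => if h : j < t then x ⟨j, h⟩ else false)} := by
    ext X
    simp only [Set.mem_ofPred_eq, Set.mem_preimage]
    apply hP
    intro j hj
    simp [hj]
  rw [h]
  exact (isClosed_discrete _).preimage (continuous_pi (fun i => continuous_apply _))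

lemma exists_path {σ : List ℕ} (h : ∀ s, σ.length ≤ s → al σ s = true) :
    ∃ Z : ℕ → Bool, PP Z ∧ pre (nb Z) σ.length = σ := by
  let F : ℕ → Set (ℕ → Bool) := fun s =>
    {Z | Pl (pre (nb Z) (σ.length + s)) = true ∧ pre (nb Z) σ.length = σ}
  have hcl : ∀ s, IsClosed (F s) := by
    intro s
    apply closed_fin (σ.length + s)
    intro X Y hXY
    rw [pre_eq_iff.2 hXY, pre_eq_iff.2 (fun j hj => hXY j (by omega))]
  have hne : (⋂ s, F s).Nonempty := by
    apply IsCompact.nonempty_iInter_of_sequence_nonempty_isCompact_isClosed F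
    · intro s Z hZ
      exact ⟨Pl_anti _ (by omega) hZ.1, hZ.2⟩
    · intro s
      obtain ⟨Z, h1, h2⟩ := (al_iff _ _).1 (h (σ.length + s) (by omega))
      rw [tk_pre _ (by omega)] at h2
      exact ⟨Z, h1, h2⟩
    · exact (hcl 0).isCompact
    · exact hcl
  obtain ⟨Z, hZ⟩ := hne
  rw [Set.mem_iInter] at hZ
  exact ⟨Z, fun t => Pl_anti _ (by omega) (hZ t).1, (hZ 0).2⟩

lemma dies {σ : List ℕ} (h : ¬ ∃ Z : ℕ → Bool, PP Z ∧ pre (nb Z) σ.length = σ) :
    ∃ S, σ.length ≤ S ∧ ∀ s, S ≤ s → al σ s = false := by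
  by_contra hcon
  push Not at hcon
  apply h
  apply exists_path
  intro s hs
  obtain ⟨s', h1, h2⟩ := hcon s hs
  exact al_anti hs h1 (by simpa using h2)

section sel

variable {m : ℕ} (hm : ∀ Z : ℕ → Bool, (∀ t, Pl (pre (nb Z) t) = true) → ∀ n s, n ≤ s →
    2 ^ s ≤ cn (pre (nb Z) n) s * 2 ^ (m + 2 * n + 1))

include hm in
lemma two_ext {Z : ℕ → Bool} (hZ : PP Z) (n : ℕ) : ∃ Z' : ℕ → Bool, PP Z' ∧
    pre (nb Z') n = pre (nb Z) n ∧ pre (nb Z') (m + 2 * n + 2) ≠ pre (nb Z) (m + 2 * n + 2) := by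
  classical
  set l := m + 2 * n + 2 with hl
  by_contra hcon
  push Not at hcon
  have hd : ∀ c, ∃ S, pre (nb (xc c)) n = pre (nb Z) n → pre (nb (xc c)) l ≠ pre (nb Z) l →
      l ≤ S ∧ ∀ s, S ≤ s → al (pre (nb (xc c)) l) s = false := by
    intro c
    by_cases h1 : pre (nb (xc c)) n = pre (nb Z) n
    · by_cases h2 : pre (nb (xc c)) l ≠ pre (nb Z) l
      · have h3 : ¬ ∃ Y : ℕ → Bool, PP Y ∧
            pre (nb Y) (pre (nb (xc c)) l).length = pre (nb (xc c)) l := by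
          rintro ⟨Y, hY1, hY2⟩
          rw [pre_length] at hY2
          apply h2
          rw [← hY2]
          apply hcon Y hY1
          rw [← h1, pre_eq_iff]
          intro j hj
          exact pre_eq_iff.1 hY2 j (by omega)
        obtain ⟨S, hS1, hS2⟩ := dies h3
        exact ⟨S, fun _ _ => ⟨by simpa using hS1, hS2⟩⟩
      · exact ⟨0, fun _ h => absurd h h2⟩
    · exact ⟨0, fun h => absurd h h1⟩
  choose S hS using hd
  let s := max l ((Finset.range (2 ^ l)).sup S)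
  have hls : l ≤ s := le_max_left _ _
  have h1 : {X : ℕ → Bool | Pl (pre (nb X) s) = true ∧
      tk (pre (nb X) s) (pre (nb Z) n).length = pre (nb Z) n} ⊆ {X | NZ X l = NZ Z l} := by
    rintro X ⟨hX1, hX2⟩
    simp only [Set.mem_ofPred_eq]
    rw [NZ_inj, ← pre_eq_iff]
    rw [pre_length, tk_pre _ (by omega)] at hX2
    by_contra hne
    obtain ⟨c, hc, hcX⟩ := exists_xc X l
    have h2 : pre (nb (xc c)) l = pre (nb X) l := pre_eq_iff.2 hcX
    have h3 : pre (nb (xc c)) n = pre (nb Z) n := by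
      rw [← hX2]; exact pre_eq_iff.2 (fun j hj => hcX j (by omega))
    have h4 := (hS c h3 (by rw [h2]; exact hne)).2 s
      ((Finset.le_sup (f := S) (Finset.mem_range.2 hc)).trans (le_max_right _ _))
    have h5 : al (pre (nb (xc c)) l) s = true := by
      rw [al_iff]
      refine ⟨X, hX1, ?_⟩
      rw [pre_length, tk_pre _ hls, h2]
    rw [h4] at h5
    simp at h5
  have h2 := measureReal_mono (μ := coin) h1
  rw [cn_meas, coin_cyl] at h2
  have h3 := (half_pow_mul' (cn (pre (nb Z) n) s) (m + 2 * n + 1) s).2 (hm Z hZ n s (by omega))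
  have h4 : ((1 : ℝ) / 2) ^ l < (1 / 2) ^ (m + 2 * n + 1) :=
    pow_lt_pow_right_of_lt_one₀ (by norm_num) (by norm_num) (by omega)
  linarith

def cod (b : Bool) (l j : ℕ) : ℕ := bif b then 2 ^ l - 1 - j else j

lemma cod_cod {b : Bool} {l c : ℕ} (h : c < 2 ^ l) : cod b l (cod b l c) = c := by
  unfold cod
  cases b
  · rfl
  · simp only [cond_true]; omega

lemma cod_lt {b : Bool} {l c : ℕ} (h : c < 2 ^ l) : cod b l c < 2 ^ l := by
  unfold cod
  cases b
  · exact h
  · simp only [cond_true]; omega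

def okc (σ : List ℕ) (l s c : ℕ) : Bool :=
  al (pre (nb (xc c)) l) s && decide (pre (nb (xc c)) σ.length = σ)

def sj (b : Bool) (σ : List ℕ) (l s : ℕ) : ℕ := fnd (fun j => okc σ l s (cod b l j)) (2 ^ l)

def seln (b : Bool) (σ : List ℕ) (l s : ℕ) : List ℕ := pre (nb (xc (cod b l (sj b σ l s)))) l

lemma okc_path {σ : List ℕ} {l s c : ℕ} (hl : l ≤ s) (hσ : σ.length ≤ l) {Z : ℕ → Bool} (hZ : PP Z)
    (h1 : pre (nb Z) l = pre (nb (xc c)) l) (h2 : pre (nb Z) σ.length = σ) :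
    okc σ l s c = true := by
  unfold okc
  rw [Bool.and_eq_true, decide_eq_true_eq, ← h1]
  refine ⟨al_path hZ hl, ?_⟩
  rw [← h2, pre_length, pre_eq_iff]
  intro j hj
  exact (pre_eq_iff.1 h1 j (by omega)).symm

lemma sel_one {Z : ℕ → Bool} (hZ : PP Z) (b : Bool) {n l : ℕ} (hnl : n ≤ l) :
    ∃ Zb : ℕ → Bool, PP Zb ∧ pre (nb Zb) n = pre (nb Z) n ∧
      (∃ S, ∀ s, S ≤ s → seln b (pre (nb Z) n) l s = pre (nb Zb) l) ∧
      (∀ Z' : ℕ → Bool, PP Z' → pre (nb Z') n = pre (nb Z) n → ∀ w, l ≤ w →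
        seln b (pre (nb Z) n) l w = pre (nb Z') l → pre (nb Z') l = pre (nb Zb) l) ∧
      (∀ Z' : ℕ → Bool, PP Z' → pre (nb Z') n = pre (nb Z) n → ∀ c c', c < 2 ^ l → c' < 2 ^ l →
        pre (nb (xc c)) l = pre (nb Zb) l → pre (nb (xc c')) l = pre (nb Z') l →
        cod b l c ≤ cod b l c') := by
  classical
  set σ := pre (nb Z) n with hσ
  have hσl : σ.length = n := by simp [hσ]
  let E : ℕ → Prop := fun j => j < 2 ^ l ∧ ∃ Z' : ℕ → Bool, PP Z' ∧
    pre (nb Z') l = pre (nb (xc (cod b l j))) l ∧ pre (nb Z') n = σ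
  have hEZ : ∀ Z' : ℕ → Bool, PP Z' → pre (nb Z') n = σ → ∀ c', c' < 2 ^ l →
      pre (nb (xc c')) l = pre (nb Z') l → E (cod b l c') := by
    intro Z' h1 h2 c' h3 h4
    refine ⟨cod_lt h3, Z', h1, ?_, h2⟩
    rw [cod_cod h3, h4]
  have hex : ∃ j, E j := by
    obtain ⟨c, hc, hcZ⟩ := exists_xc Z l
    exact ⟨_, hEZ Z hZ rfl c hc (pre_eq_iff.2 hcZ)⟩
  obtain ⟨hj1, Zb, hb1, hb2, hb3⟩ := Nat.find_spec hex
  have hmin : ∀ j, E j → Nat.find hex ≤ j := fun j hj => Nat.find_min' hex hj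
  set j0 := Nat.find hex with hj0
  have hok0 : ∀ s, l ≤ s → okc σ l s (cod b l j0) = true := fun s hs =>
    okc_path hs (by rw [hσl]; exact hnl) hb1 hb2 (by rw [hσl]; exact hb3)
  refine ⟨Zb, hb1, hb3, ?_, ?_, ?_⟩
  · have hd : ∀ j, ∃ S, j < j0 → ∀ s, S ≤ s → okc σ l s (cod b l j) = false := by
      intro j
      by_cases hj : j < j0
      · by_cases hp : pre (nb (xc (cod b l j))) n = σ
        · have h3 : ¬ ∃ Y : ℕ → Bool, PP Y ∧ pre (nb Y) (pre (nb (xc (cod b l j))) l).length =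
              pre (nb (xc (cod b l j))) l := by
            rintro ⟨Y, hY1, hY2⟩
            rw [pre_length] at hY2
            have : E j := by
              refine ⟨by omega, Y, hY1, hY2, ?_⟩
              rw [← hp, pre_eq_iff]
              intro i hi
              exact pre_eq_iff.1 hY2 i (by omega)
            have := hmin j this
            omega
          obtain ⟨S, _, hS⟩ := dies h3
          refine ⟨S, fun _ s hs => ?_⟩
          unfold okc
          rw [hS s hs]; rfl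
        · refine ⟨0, fun _ s _ => ?_⟩
          unfold okc
          rw [hσl, decide_eq_false hp, Bool.and_false]
      · exact ⟨0, fun h => absurd h hj⟩
    choose S hS using hd
    refine ⟨max l ((Finset.range j0).sup S), fun s hs => ?_⟩
    have : sj b σ l s = j0 := by
      apply fnd_eq hj1
      · exact hok0 s ((le_max_left _ _).trans hs)
      · intro j hj
        exact hS j hj s ((Finset.le_sup (f := S) (Finset.mem_range.2 hj)).trans
          ((le_max_right _ _).trans hs))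
    unfold seln
    rw [this, hb2]
  · intro Z' h1 h2 w hw h3
    unfold seln at h3
    rcases fnd_spec (fun j => okc σ l w (cod b l j)) (2 ^ l) with ⟨h4, h5, h6⟩ | ⟨h4, h5⟩
    · have h7 : sj b σ l w = fnd (fun j => okc σ l w (cod b l j)) (2 ^ l) := rfl
      rw [← h7] at h4 h5 h6
      have h8 : E (sj b σ l w) := ⟨h4, Z', h1, h3.symm, h2⟩
      have h9 := hmin _ h8
      have h10 : sj b σ l w = j0 := by
        by_contra hne
        have := h6 j0 (by omega)
        rw [hok0 w hw] at this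
        simp at this
      rw [h10] at h3
      rw [← h3, hb2]
    · have := h5 j0 hj1
      rw [hok0 w hw] at this
      simp at this
  · intro Z' h1 h2 c c' hc hc' h3 h4
    have h5 : c = cod b l j0 := by
      apply xc_inj hc (cod_lt hj1)
      apply pre_eq_iff.1
      rw [h3, hb2]
    rw [h5, cod_cod hj1]
    exact hmin _ (hEZ Z' h1 h2 c' hc' h4)

include hm in
theorem sel_two {Z : ℕ → Bool} (hZ : PP Z) (n : ℕ) : ∃ Zn : Bool → (ℕ → Bool),
    (∀ b, PP (Zn b) ∧ pre (nb (Zn b)) n = pre (nb Z) n ∧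
      (∃ S, ∀ s, S ≤ s → seln b (pre (nb Z) n) (m + 2 * n + 2) s =
        pre (nb (Zn b)) (m + 2 * n + 2)) ∧
      (∀ Z' : ℕ → Bool, PP Z' → pre (nb Z') n = pre (nb Z) n → ∀ w, m + 2 * n + 2 ≤ w →
        seln b (pre (nb Z) n) (m + 2 * n + 2) w = pre (nb Z') (m + 2 * n + 2) →
        pre (nb Z') (m + 2 * n + 2) = pre (nb (Zn b)) (m + 2 * n + 2))) ∧
    pre (nb (Zn false)) (m + 2 * n + 2) ≠ pre (nb (Zn true)) (m + 2 * n + 2) := by
  have h := fun b => sel_one hZ b (n := n) (l := m + 2 * n + 2) (by omega)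
  choose Zn h1 h2 h3 h4 h5 using h
  refine ⟨Zn, fun b => ⟨h1 b, h2 b, h3 b, h4 b⟩, ?_⟩
  intro heq
  obtain ⟨Y, hY1, hY2, hY3⟩ := two_ext hm (h1 false) n
  rw [h2 false] at hY2
  obtain ⟨c, hc, hcZ⟩ := exists_xc (Zn false) (m + 2 * n + 2)
  obtain ⟨c', hc', hcY⟩ := exists_xc Y (m + 2 * n + 2)
  have e1 := pre_eq_iff.2 hcZ
  have e2 := pre_eq_iff.2 hcY
  have h6 := h5 false Y hY1 hY2 c c' hc hc' e1 e2
  have h7 := h5 true Y hY1 hY2 c c' hc hc' (e1.trans heq) e2
  unfold cod at h6 h7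
  simp only [cond_false, cond_true] at h6 h7
  have h8 : c = c' := by omega
  apply hY3
  rw [← e2, ← h8, e1]

end sel

end Pool.Agent.H572R3
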