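import Mathlib
import Pool.Agent.H572R3.KG2

set_option autoImplicit false

/-! Coding into random sets and the case of sets without computable approximations. -/

namespace Pool.Agent.H572R3

open MeasureTheory Pool.Agent.Helper743

def lv (m : ℕ) : ℕ → ℕ
  | 0 => 0
  | i + 1 => m + 2 * lv m i + 2

lemma lv_lt (m i : ℕ) : lv m i < lv m (i + 1) := by rw [lv]; omega

lemma le_lv (m i : ℕ) : i ≤ lv m i := by
  induction i with
  | zero => exact Nat.zero_le _
  | succ i ih => have := lv_lt m i; omega

lemma lv_mono (m : ℕ) {i j : ℕ} (h : i ≤ j) : lv m i ≤ lv m j := by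
  induction j, h using Nat.le_induction with
  | base => exact le_rfl
  | succ j _ ih => exact ih.trans (lv_lt m j).le

lemma exists_PP : ∃ Z, PP Z := by
  have h : ∀ s, (pre (nb (fun _ => false)) 0).length ≤ s → al (pre (nb (fun _ => false)) 0) s = true := by
    intro s _
    rw [al_iff]
    have h1 := Pl_meas s
    have hne : {X | Pl (pre (nb X) s) = true}.Nonempty := by
      by_contra hne
      rw [Set.not_nonempty_iff_eq_empty.1 hne] at h1
      norm_num at h1
    obtain ⟨Z, hZ⟩ := hne
    exact ⟨Z, hZ, by simp [pre, tk]⟩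
  obtain ⟨Z, hZ, _⟩ := exists_path h
  exact ⟨Z, hZ⟩

theorem nodes {m : ℕ} (hm : ∀ Z : ℕ → Bool, (∀ t, Pl (pre (nb Z) t) = true) → ∀ n s, n ≤ s →
    2 ^ s ≤ cn (pre (nb Z) n) s * 2 ^ (m + 2 * n + 1)) :
    ∃ TN : (ℕ → Bool) → ℕ → (ℕ → Bool),
      (∀ G i, PP (TN G i)) ∧
      (∀ G i, pre (nb (TN G (i + 1))) (lv m i) = pre (nb (TN G i)) (lv m i)) ∧
      (∀ G G' i, (∀ j < i, G j = G' j) → TN G i = TN G' i) ∧
      (∀ G i, ∃ S, ∀ s, S ≤ s → seln (G i) (pre (nb (TN G i)) (lv m i)) (lv m (i + 1)) s =
        pre (nb (TN G (i + 1))) (lv m (i + 1))) ∧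
      (∀ G i b, ∀ w, lv m (i + 1) ≤ w →
        seln b (pre (nb (TN G i)) (lv m i)) (lv m (i + 1)) w =
          pre (nb (TN G (i + 1))) (lv m (i + 1)) → b = G i) := by
  obtain ⟨Z0, hZ0⟩ := exists_PP
  have h := fun (Z : {Z : ℕ → Bool // PP Z}) (n : ℕ) => sel_two hm Z.2 n
  choose Zn h1 h2 using h
  let T : (ℕ → Bool) → ℕ → {Z : ℕ → Bool // PP Z} := fun G i =>
    Nat.rec ⟨Z0, hZ0⟩ (fun i Z => ⟨Zn Z (lv m i) (G i), (h1 Z (lv m i) (G i)).1⟩) i
  have hT : ∀ G i, (T G (i + 1)).1 = Zn (T G i) (lv m i) (G i) := fun G i => rfl
  refine ⟨fun G i => (T G i).1, fun G i => (T G i).2, ?_, ?_, ?_, ?_⟩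
  · intro G i
    show pre (nb (T G (i + 1)).1) (lv m i) = pre (nb (T G i).1) (lv m i)
    rw [hT]
    exact (h1 (T G i) (lv m i) (G i)).2.1
  · intro G G' i
    induction i with
    | zero => intro _; rfl
    | succ i ih =>
      intro hGG
      have h3 : T G i = T G' i := Subtype.ext (ih (fun j hj => hGG j (by omega)))
      show (T G (i + 1)).1 = (T G' (i + 1)).1
      rw [hT, hT, h3, hGG i (by omega)]
  · intro G i
    obtain ⟨S, hS⟩ := (h1 (T G i) (lv m i) (G i)).2.2.1
    exact ⟨S, fun s hs => hS s hs⟩
  · intro G i b w hw hb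
    have h3 := (h1 (T G i) (lv m i) b).2.2.2 (T G (i + 1)).1 (T G (i + 1)).2
      ((h1 (T G i) (lv m i) (G i)).2.1) w hw hb
    rw [hT] at h3
    by_contra hne
    have h4 := h2 (T G i) (lv m i)
    cases b <;> cases hG : G i <;> rw [hG] at h3 hne
    · exact hne rfl
    · exact h4 h3.symm
    · exact h4 h3
    · exact hne rfl

def gf (g : List Bool) (i : ℕ) : Bool := g.getD i false

def ndk (m : ℕ) (g : List Bool) (s : ℕ) : ℕ → List ℕ
  | 0 => []
  | i + 1 => seln (gf g i) (ndk m g s i) (lv m (i + 1)) s

section wr
variable {α : Type*} [Primcodable α]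

lemma al_comp {f : α → List ℕ} {g : α → ℕ} (hf : Computable f) (hg : Computable g) :
    Computable (fun z => al (f z) (g z)) := lt_comp (Computable.const 0) (cn_comp hf hg)

lemma sub_comp {f g : α → ℕ} (hf : Computable f) (hg : Computable g) :
    Computable (fun a => f a - g a) := Primrec.nat_sub.to_comp.comp hf hg

lemma cod_comp {b : α → Bool} {l j : α → ℕ} (hb : Computable b) (hl : Computable l)
    (hj : Computable j) : Computable (fun z => cod (b z) (l z) (j z)) :=
  Computable.cond hb (sub_comp (sub_comp (pow2_comp hl) (Computable.const 1)) hj) hj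

lemma okc_comp {f : α → List ℕ} {l s c : α → ℕ} (hf : Computable f) (hl : Computable l)
    (hs : Computable s) (hc : Computable c) : Computable (fun z => okc (f z) (l z) (s z) (c z)) :=
  and_comp (al_comp (prexc_comp hc hl) hs) (listEq_comp (prexc_comp hc (len_comp hf)) hf)

lemma seln_comp {b : α → Bool} {f : α → List ℕ} {l s : α → ℕ} (hb : Computable b)
    (hf : Computable f) (hl : Computable l) (hs : Computable s) :
    Computable (fun z => seln (b z) (f z) (l z) (s z)) := by
  have h0 : Computable₂ (fun (z : α) (j : ℕ) => okc (f z) (l z) (s z) (cod (b z) (l z) j)) :=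
    okc_comp (hf.comp Computable.fst) (hl.comp Computable.fst) (hs.comp Computable.fst)
      (cod_comp (hb.comp Computable.fst) (hl.comp Computable.fst) Computable.snd)
  have h1 : Computable (fun z => sj (b z) (f z) (l z) (s z)) := fnd_comp h0 (pow2_comp hl)
  exact prexc_comp (cod_comp hb hl h1) hl

lemma lv_comp (m : ℕ) {f : α → ℕ} (hf : Computable f) : Computable (fun z => lv m (f z)) := by
  have h := Computable.nat_rec hf (Computable.const 0)
    (h := fun (_ : α) (q : ℕ × ℕ) => m + 2 * q.2 + 2) (by
      exact Computable.succ.comp (Computable.succ.comp (add_comp (Computable.const m)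
        (mul_comp (Computable.const 2) (Computable.snd.comp Computable.snd)))))
  refine h.of_eq ?_
  intro z
  generalize f z = n
  induction n with
  | zero => rfl
  | succ n ih => rw [lv, ← ih]

lemma ndk_comp (m : ℕ) {f : α → List Bool} {s i : α → ℕ} (hf : Computable f) (hs : Computable s)
    (hi : Computable i) : Computable (fun z => ndk m (f z) (s z) (i z)) := by
  have h := Computable.nat_rec hi (Computable.const ([] : List ℕ))
    (h := fun (z : α) (q : ℕ × List ℕ) => seln (gf (f z) q.1) q.2 (lv m (q.1 + 1)) (s z)) (by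
      have h1 : Computable (fun q : α × (ℕ × List ℕ) => gf (f q.1) q.2.1) :=
        (Primrec.list_getD false).to_comp.comp (hf.comp Computable.fst)
          (Computable.fst.comp Computable.snd)
      exact seln_comp h1 (Computable.snd.comp Computable.snd)
        (lv_comp m (Computable.succ.comp (Computable.fst.comp Computable.snd)))
        (hs.comp Computable.fst))
  refine h.of_eq ?_
  intro z
  generalize i z = n
  induction n with
  | zero => rfl
  | succ n ih => rw [ndk, ← ih]

end wr

lemma fs_first {β : Type*} {p : ℕ → Option β} {k n : ℕ} {y : β} (h : ∀ j < k, p j = none)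
    (h1 : p k = some y) (h2 : k < n) : fs p n = some y := by
  obtain ⟨z, hz⟩ := fs_isSome (show k < k + 1 by omega) h1
  have h3 : fs p (k + 1) = some y := by
    obtain ⟨j, hj, hj2⟩ := fs_some hz
    have : j = k := by
      by_contra hne
      rw [h j (by omega)] at hj2
      simp at hj2
    rw [this, h1] at hj2
    rw [hz, hj2]
  exact fs_mono p h2 h3

theorem caseA {A : ℕ → Bool} (hA : ¬ ∃ a : ℕ → ℕ → ℕ, Computable₂ a ∧
    ∀ x, ∃ T, ∀ t, T ≤ t → a x t = nb A x) :
    ∃ B : ℕ → Bool, FR B ∧ ¬ BR A B ∧ ∃ Y, BR Y B ∧ ∀ X, BR X A → 1 ≤ dlt X Y := by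
  classical
  obtain ⟨m, hm⟩ := kucera
  obtain ⟨TN, n1, n2, n3, n4, n5⟩ := nodes hm
  -- nodes of finite strings
  let node : List Bool → List ℕ := fun g => pre (nb (TN (gf g) g.length)) (lv m g.length)
  have hndk : ∀ g : List Bool, ∀ i, ∃ S, ∀ s, S ≤ s →
      ndk m g s i = pre (nb (TN (gf g) i)) (lv m i) := by
    intro g i
    induction i with
    | zero => exact ⟨0, fun s _ => rfl⟩
    | succ i ih =>
      obtain ⟨S, hS⟩ := ih
      obtain ⟨S', hS'⟩ := n4 (gf g) i
      refine ⟨max S S', fun s hs => ?_⟩
      rw [ndk, hS s ((le_max_left _ _).trans hs)]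
      exact hS' s ((le_max_right _ _).trans hs)
  -- the dense sets
  let D1 : ℕ → Set (List Bool) := fun k => {g | ∃ x, (∃ y, W k (node g, x) = some y ∧ y ≠ nb A x) ∨
    ∀ g', g <+: g' → W k (node g', x) = none}
  let D2 : (ℕ → Bool) → ℕ → Set (List Bool) := fun X N => {g | ∃ m', N ≤ m' ∧
    Nat.factorial (m' + 1) ≤ g.length ∧
    ∀ j, Nat.factorial m' ≤ j → j < Nat.factorial (m' + 1) → gf g j ≠ X j}
  have hD1 : ∀ k g, ∃ g', g <+: g' ∧ g' ∈ D1 k := by
    intro k g
    by_cases c1 : ∃ g' x y, g <+: g' ∧ W k (node g', x) = some y ∧ y ≠ nb A x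
    · obtain ⟨g', x, y, h1, h2, h3⟩ := c1
      exact ⟨g', h1, x, Or.inl ⟨y, h2, h3⟩⟩
    · by_cases c2 : ∃ x, ∀ g', g <+: g' → W k (node g', x) = none
      · obtain ⟨x, hx⟩ := c2
        exact ⟨g, List.prefix_refl _, x, Or.inr hx⟩
      · exfalso
        apply hA
        push Not at c2
        let dj : ℕ → List Bool := fun j => g ++ (Encodable.decode (α := List Bool) j).getD []
        let aa : ℕ → ℕ → ℕ := fun x t =>
          (fs (fun j => W k (ndk m (dj j) t (dj j).length, x)) t).getD 0
        have hdj : Computable dj := by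
          have h1 : Computable (fun j : ℕ => (Encodable.decode (α := List Bool) j).getD []) :=
            Computable.option_getD Computable.decode (Computable.const [])
          exact (Primrec.list_append (α := Bool)).to_comp.comp (Computable.const g) h1
        refine ⟨aa, ?_, ?_⟩
        · have h0 : Computable₂ (fun (q : ℕ × ℕ) (j : ℕ) =>
              W k (ndk m (dj j) q.2 (dj j).length, q.1)) := by
            refine W_comp3 (Computable.const k) (ndk_comp m (hdj.comp Computable.snd)
              (Computable.snd.comp Computable.fst)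
              (Computable.list_length.comp (hdj.comp Computable.snd))) ?_
            exact Computable.fst.comp Computable.fst
          exact Computable.option_getD (fs_comp h0 Computable.snd) (Computable.const 0)
        · intro x
          have hex : ∃ j, W k (node (dj j), x) ≠ none := by
            obtain ⟨g', h1, h2⟩ := c2 x
            obtain ⟨ρ, rfl⟩ := h1
            refine ⟨Encodable.encode ρ, ?_⟩
            simp only [dj, Encodable.encodek, Option.getD_some]
            exact h2
          have hsp := Nat.find_spec hex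
          have hval : W k (node (dj (Nat.find hex)), x) = some (nb A x) := by
            obtain ⟨y, hy⟩ := Option.ne_none_iff_exists'.1 hsp
            rw [hy]
            by_contra hne
            exact c1 ⟨dj (Nat.find hex), x, y, List.prefix_append _ _, hy,
              fun h => hne (by rw [h])⟩
          choose S hS using fun j => hndk (dj j) (dj j).length
          refine ⟨max (Nat.find hex + 1) ((Finset.range (Nat.find hex + 1)).sup S), fun t ht => ?_⟩
          have ht1 : Nat.find hex < t := lt_of_lt_of_le (Nat.lt_succ_self _)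
            ((le_max_left _ _).trans ht)
          have ht2 : ∀ j, j ≤ Nat.find hex → ndk m (dj j) t (dj j).length = node (dj j) := by
            intro j hj
            exact hS j t ((Finset.le_sup (f := S) (Finset.mem_range.2 (Nat.lt_succ_of_le hj))).trans
              ((le_max_right _ _).trans ht))
          have hfs : fs (fun j => W k (ndk m (dj j) t (dj j).length, x)) t = some (nb A x) := by
            apply fs_first (k := Nat.find hex) _ _ ht1
            · intro j hj
              rw [ht2 j hj.le]
              have := Nat.find_min hex hj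
              simpa using this
            · rw [ht2 _ le_rfl]
              exact hval
          simp only [aa]
          rw [hfs]
          rfl
  have hD2 : ∀ X N g, ∃ g', g <+: g' ∧ g' ∈ D2 X N := by
    intro X N g
    let m' := max N g.length
    have hg : g.length ≤ Nat.factorial m' :=
      (le_max_right _ _).trans (Nat.self_le_factorial m')
    have hg2 : Nat.factorial m' ≤ Nat.factorial (m' + 1) := Nat.factorial_le (by omega)
    let g' : List Bool := g ++ (List.range (Nat.factorial (m' + 1) - g.length)).map
      (fun j => !(X (g.length + j)))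
    refine ⟨g', List.prefix_append _ _, m', le_max_left _ _, ?_, ?_⟩
    · simp only [g', List.length_append, List.length_map, List.length_range]
      omega
    · intro j h1 h2
      have h3 : gf g' j = !(X j) := by
        unfold gf
        simp only [g', List.getD]
        rw [List.getElem?_append_right (by omega)]
        have h4 : j - g.length < Nat.factorial (m' + 1) - g.length := by omega
        simp only [List.getElem?_map, List.getElem?_range h4, Option.map_some, Option.getD_some]
        congr 2
        omega
      rw [h3]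
      cases X j <;> simp
  -- the generic sequence
  let S : Set (Set (List Bool)) := (Set.range D1) ∪
    (Set.image2 (fun X N => D2 X N) {X : ℕ → Bool | BR X A} Set.univ)
  have hcX : {X : ℕ → Bool | BR X A}.Countable := by
    have h1 : {X : ℕ → Bool | BR X A} = nb ⁻¹' {C : ℕ → ℕ | TR C (nb A)} := rfl
    rw [h1]
    apply (countable_TR (nb A)).preimage_of_injOn
    intro X _ Y _ h
    funext x
    have := congrFun h x
    unfold nb at this
    revert this
    cases X x <;> cases Y x <;> simp
  have hS1 : S.Countable := (Set.countable_range _).union (Set.Countable.image2 hcX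
    Set.countable_univ _)
  have hS2 : S.Nonempty := ⟨_, Or.inl ⟨0, rfl⟩⟩
  have hS3 : ∀ D ∈ S, ∀ g, ∃ g', g <+: g' ∧ g' ∈ D := by
    rintro D (⟨k, rfl⟩ | ⟨X, hX, N, hN, rfl⟩) g
    · exact hD1 k g
    · exact hD2 X N g
  obtain ⟨F, hF⟩ := hS1.exists_eq_range hS2
  have hFS : ∀ t, F t ∈ S := fun t => by rw [hF]; exact ⟨t, rfl⟩
  choose nx hnx1 hnx2 using fun t g => hS3 (F t) (hFS t) g
  let c : ℕ → List Bool := fun t => Nat.rec [] (fun t g => nx t g) t
  have hc1 : ∀ t, c t <+: c (t + 1) := fun t => hnx1 t (c t)
  have hc2 : ∀ t, c (t + 1) ∈ F t := fun t => hnx2 t (c t)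
  have hcm : ∀ t t', t ≤ t' → c t <+: c t' := by
    intro t t' h
    induction t', h using Nat.le_induction with
    | base => exact List.prefix_refl _
    | succ t' _ ih => exact ih.trans (hc1 t')
  have hmeet : ∀ D ∈ S, ∃ t, c t ∈ D := by
    intro D hD
    rw [hF] at hD
    obtain ⟨t, rfl⟩ := hD
    exact ⟨t + 1, hc2 t⟩
  have hAA : BR A A := BR.refl A
  have hlen : ∀ l, ∃ t, l ≤ (c t).length := by
    intro l
    obtain ⟨t, m', h1, h2, _⟩ := hmeet (D2 A l) (Or.inr ⟨A, hAA, l, Set.mem_univ _, rfl⟩)
    refine ⟨t, ?_⟩
    have := Nat.self_le_factorial (m' + 1)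
    omega
  choose T hT using fun x : ℕ => hlen (x + 1)
  let G : ℕ → Bool := fun x => gf (c (T x)) x
  have hgf : ∀ t t', t ≤ t' → ∀ x, x < (c t).length → gf (c t') x = gf (c t) x := by
    intro t t' h x hx
    obtain ⟨ρ, hρ⟩ := hcm t t' h
    unfold gf
    rw [← hρ]
    simp only [List.getD]
    rw [List.getElem?_append_left hx]
  have hG : ∀ t x, x < (c t).length → gf (c t) x = G x := by
    intro t x hx
    rcases le_total t (T x) with h | h
    · exact (hgf t (T x) h x hx).symm
    · exact hgf (T x) t h x (hT x)
  -- the coded set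
  have hlow : ∀ i j, i ≤ j → ∀ x, x < lv m i → TN G j x = TN G i x := by
    intro i j hij
    induction j, hij using Nat.le_induction with
    | base => intro x _; rfl
    | succ j hij ih =>
      intro x hx
      rw [← ih x hx]
      exact pre_eq_iff.1 (n2 G j) x (lt_of_lt_of_le hx (lv_mono m hij))
  let B : ℕ → Bool := fun x => TN G (x + 1) x
  have hB : ∀ i, pre (nb B) (lv m i) = pre (nb (TN G i)) (lv m i) := by
    intro i
    rw [pre_eq_iff]
    intro x hx
    rcases le_total i (x + 1) with h | h
    · exact hlow i (x + 1) h x hx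
    · exact (hlow (x + 1) i h x (by have := le_lv m (x + 1); omega)).symm
  have hPP : PP B := by
    intro t
    have h1 := n1 G t (lv m t)
    rw [← hB t] at h1
    exact Pl_anti _ (le_lv m t) h1
  have hnode : ∀ t, node (c t) = pre (nb B) (lv m (c t).length) := by
    intro t
    simp only [node]
    rw [hB]
    rw [n3 (gf (c t)) G (c t).length (fun j hj => hG t j hj)]
  refine ⟨B, FR_of_Pl hPP, ?_, G, ?_, ?_⟩
  · intro hTR
    obtain ⟨k, hk⟩ := W_univ hTR
    obtain ⟨t, x, hD⟩ := hmeet (D1 k) (Or.inl ⟨k, rfl⟩)
    rcases hD with ⟨y, hy, hne⟩ | hD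
    · rw [hnode] at hy
      exact hne ((hk x y).2 ⟨_, hy⟩)
    · obtain ⟨n, hn⟩ := (hk x _).1 rfl
      obtain ⟨t', ht'⟩ := hlen n
      have h1 := hD (c (max t t')) (hcm _ _ (le_max_left _ _))
      rw [hnode] at h1
      have h2 : n ≤ lv m (c (max t t')).length :=
        ht'.trans ((hcm t' _ (le_max_right _ _)).length_le.trans (le_lv _ _))
      rw [W_mono k _ h2 hn] at h1
      simp at h1
  · -- decoding
    let p : List ℕ → ℕ → ℕ → Option ℕ := fun σ i w =>
      bif (decide (lv m (i + 1) ≤ σ.length) && decide (lv m (i + 1) ≤ w)) then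
        (bif decide (seln false (tk σ (lv m i)) (lv m (i + 1)) w = tk σ (lv m (i + 1))) then some 0
          else (bif decide (seln true (tk σ (lv m i)) (lv m (i + 1)) w = tk σ (lv m (i + 1)))
            then some 1 else none)) else none
    refine cert (G := nb B) (TR.refl (nb B)) p ?_ _ ?_ ?_
    · have c1 : Computable (fun q : (List ℕ × ℕ) × ℕ => q.1.1) :=
        Computable.fst.comp Computable.fst
      have c2 : Computable (fun q : (List ℕ × ℕ) × ℕ => lv m (q.1.2 + 1)) :=
        lv_comp m (Computable.succ.comp (Computable.snd.comp Computable.fst))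
      have c3 : Computable (fun q : (List ℕ × ℕ) × ℕ => lv m q.1.2) :=
        lv_comp m (Computable.snd.comp Computable.fst)
      have c4 : Computable (fun q : (List ℕ × ℕ) × ℕ => tk q.1.1 (lv m q.1.2)) := tk_comp c1 c3
      have c5 : Computable (fun q : (List ℕ × ℕ) × ℕ => tk q.1.1 (lv m (q.1.2 + 1))) :=
        tk_comp c1 c2
      have c6 : ∀ b, Computable (fun q : (List ℕ × ℕ) × ℕ =>
          decide (seln b (tk q.1.1 (lv m q.1.2)) (lv m (q.1.2 + 1)) q.2 =
            tk q.1.1 (lv m (q.1.2 + 1)))) := fun b =>
        listEq_comp (seln_comp (Computable.const b) c4 c2 Computable.snd) c5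
      exact Computable.cond (and_comp (le_comp c2 (len_comp c1)) (le_comp c2 Computable.snd))
        (Computable.cond (c6 false) (Computable.const (some 0))
          (Computable.cond (c6 true) (Computable.const (some 1)) (Computable.const none)))
        (Computable.const none)
    · intro i
      obtain ⟨S', hS'⟩ := n4 G i
      refine ⟨lv m (i + 1), max (lv m (i + 1)) S', ?_⟩
      simp only [p]
      rw [pre_length, tk_pre _ (lv_lt m i).le, tk_pre _ le_rfl, hB, hB]
      have h1 := hS' (max (lv m (i + 1)) S') (le_max_right _ _)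
      have h2 : (decide (lv m (i + 1) ≤ lv m (i + 1)) &&
          decide (lv m (i + 1) ≤ max (lv m (i + 1)) S')) = true := by simp
      rw [h2, cond_true]
      cases hGi : G i with
      | false =>
        rw [hGi] at h1
        rw [decide_eq_true h1]
        rfl
      | true =>
        rw [hGi] at h1
        rw [decide_eq_true h1]
        cases decide (seln false (pre (nb (TN G i)) (lv m i)) (lv m (i + 1))
          (max (lv m (i + 1)) S') = pre (nb (TN G (i + 1))) (lv m (i + 1))) <;> rfl
    · intro i n w y hy
      simp only [p] at hy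
      cases hc : (decide (lv m (i + 1) ≤ (pre (nb B) n).length) && decide (lv m (i + 1) ≤ w)) with
      | false => rw [hc] at hy; simp at hy
      | true =>
        rw [hc, cond_true] at hy
        simp only [Bool.and_eq_true, decide_eq_true_eq, pre_length] at hc
        rw [tk_pre _ ((lv_lt m i).le.trans hc.1), tk_pre _ hc.1, hB, hB] at hy
        cases h0 : decide (seln false (pre (nb (TN G i)) (lv m i)) (lv m (i + 1)) w =
            pre (nb (TN G (i + 1))) (lv m (i + 1))) with
        | true =>
          rw [h0] at hy
          simp only [cond_true, Option.some.injEq] at hy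
          have h1 := n5 G i false w hc.2 (of_decide_eq_true h0)
          rw [← hy]
          unfold nb
          rw [← h1]
          rfl
        | false =>
          rw [h0] at hy
          rw [cond_false] at hy
          cases h2 : decide (seln true (pre (nb (TN G i)) (lv m i)) (lv m (i + 1)) w =
              pre (nb (TN G (i + 1))) (lv m (i + 1))) with
          | true =>
            rw [h2] at hy
            simp only [cond_true, Option.some.injEq] at hy
            have h1 := n5 G i true w hc.2 (of_decide_eq_true h2)
            rw [← hy]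
            unfold nb
            rw [← h1]
            rfl
          | false => rw [h2] at hy; simp at hy
  · intro X hX
    apply dlt_one
    intro N
    obtain ⟨t, m', h1, h2, h3⟩ := hmeet (D2 X N) (Or.inr ⟨X, hX, N, Set.mem_univ _, rfl⟩)
    refine ⟨m', h1, fun k hk1 hk2 => ?_⟩
    have h4 := h3 k hk1 hk2
    rw [hG t k (by omega)] at h4
    exact fun h => h4 h.symm

end Pool.Agent.H572R3
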